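import Pool.Agent.Lib.MP_00ece3_co.Spec

/-!
# Adding points in general position near the origin
-/

namespace Pool.Agent.Lib.MP_00ece3_co

namespace Centre

open Filter Topology

lemma orient_rot (x y z : ℝ × ℝ) : orient x y z = orient y z x := by
  unfold orient; ring

/-- The parabola through the origin. -/
def gam (t : ℝ) : ℝ × ℝ := (t, t ^ 2)

lemma continuous_gam : Continuous gam := by
  unfold gam; fun_prop

lemma finite_eq (P : ℝ × ℝ) : {t : ℝ | gam t = P}.Finite := by
  apply Set.Finite.subset (Set.finite_singleton P.1)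
  intro t ht
  have : (gam t).1 = P.1 := by rw [ht]
  simpa [gam] using this

lemma finite_orient (P Q : ℝ × ℝ) (h : P ≠ Q) : {t : ℝ | orient P Q (gam t) = 0}.Finite := by
  classical
  set A : ℝ := Q.1 - P.1 with hA
  set B : ℝ := Q.2 - P.2 with hB
  set c : ℝ := B * P.1 - A * P.2 with hc
  set p : Polynomial ℝ := Polynomial.C A * Polynomial.X ^ 2 + Polynomial.C (-B) * Polynomial.X +
    Polynomial.C c with hp
  have hp0 : p ≠ 0 := by
    intro h0
    have h2 : p.coeff 2 = 0 := by rw [h0]; simp
    have h1 : p.coeff 1 = 0 := by rw [h0]; simp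
    have e2 : p.coeff 2 = A := by
      simp [hp, Polynomial.coeff_X, Polynomial.coeff_C]
    have e1 : p.coeff 1 = -B := by
      simp [hp, Polynomial.coeff_X, Polynomial.coeff_C, Polynomial.coeff_X_pow]
    apply h
    rw [e2] at h2
    rw [e1] at h1
    apply Prod.ext
    · linarith
    · linarith
  apply Set.Finite.subset (Polynomial.finite_setOfPred_isRoot hp0)
  intro t ht
  have ht' : orient P Q (gam t) = 0 := ht
  show p.eval t = 0
  have : p.eval t = orient P Q (gam t) := by
    simp only [hp, Polynomial.eval_add, Polynomial.eval_mul, Polynomial.eval_C,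
      Polynomial.eval_pow, Polynomial.eval_X, orient, gam, hc, hA, hB]
    ring
  rw [this, ht']

/-- One more point near the origin. -/
lemma exists_point {ι : Type} [Finite ι] {κ : Type} [Finite κ] (p : ι → ℝ × ℝ)
    (hp : Function.Injective p) (q : κ → ℝ × ℝ)
    (hq : ∀ a b, a ≠ b → orient (q a) (q b) (0, 0) ≠ 0) :
    ∃ z : ℝ × ℝ, (∀ i, z ≠ p i) ∧ (∀ i j, i ≠ j → orient (p i) (p j) z ≠ 0) ∧
      ∀ a b, a ≠ b → 0 < orient (q a) (q b) (0, 0) * orient (q a) (q b) z := by
  have h1 : ∀ᶠ t in 𝓝[≠] (0 : ℝ), ∀ i, gam t ≠ p i := by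
    rw [eventually_all]
    intro i
    have := (finite_eq (p i)).eventually_cofinite_notMem
    exact (Filter.Eventually.filter_mono (nhdsNE_le_cofinite (0 : ℝ)) this)
  have h2 : ∀ᶠ t in 𝓝[≠] (0 : ℝ), ∀ i j, i ≠ j → orient (p i) (p j) (gam t) ≠ 0 := by
    rw [eventually_all]
    intro i
    rw [eventually_all]
    intro j
    by_cases hij : i = j
    · filter_upwards with t h using absurd hij h
    · have := (finite_orient (p i) (p j) (fun h => hij (hp h))).eventually_cofinite_notMem
      have h3 := Filter.Eventually.filter_mono (nhdsNE_le_cofinite (0 : ℝ)) this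
      filter_upwards [h3] with t ht _ using ht
  have h3 : ∀ᶠ t in 𝓝[≠] (0 : ℝ), ∀ a b, a ≠ b →
      0 < orient (q a) (q b) (0, 0) * orient (q a) (q b) (gam t) := by
    rw [eventually_all]
    intro a
    rw [eventually_all]
    intro b
    by_cases hab : a = b
    · filter_upwards with t h using absurd hab h
    · have hc : Continuous fun t : ℝ => orient (q a) (q b) (0, 0) * orient (q a) (q b) (gam t) := by
        unfold orient gam; fun_prop
      have h0 : 0 < orient (q a) (q b) (0, 0) * orient (q a) (q b) (gam 0) := by
        have : gam 0 = (0, 0) := by simp [gam]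
        rw [this]
        exact mul_self_pos.mpr (hq a b hab)
      have h4 := (hc.tendsto 0).eventually (lt_mem_nhds h0)
      filter_upwards [mem_nhdsWithin_of_mem_nhds h4] with t ht _ using ht
  obtain ⟨t, ht1, ht2, ht3⟩ := (h1.and (h2.and h3)).exists
  exact ⟨gam t, ht1, ht2, ht3⟩

end Centre

open Centre in
theorem centre : CentreStmt := by
  intro N m q hq hq0
  induction m with
  | zero =>
    refine ⟨Sum.elim q (fun s => s.elim0), ⟨?_, ?_⟩, fun a => rfl, fun a b s => s.elim0⟩
    · rintro (a | s) (b | s') h
      · exact congrArg _ (hq.1 h)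
      · exact s'.elim0
      · exact s.elim0
      · exact s.elim0
    · rintro (a | s) (b | s) (c | s) hab hac hbc <;> first | exact s.elim0 | skip
      exact hq.2 a b c (fun h => hab (congrArg _ h)) (fun h => hac (congrArg _ h))
        (fun h => hbc (congrArg _ h))
  | succ m ih =>
    obtain ⟨p, ⟨hpi, hpo⟩, hpa, hps⟩ := ih
    obtain ⟨z, hz1, hz2, hz3⟩ := exists_point p hpi q hq0
    -- the old index of a new index, or `none` for the last one
    let g : Fin N ⊕ Fin (m + 1) → Option (Fin N ⊕ Fin m) :=
      Sum.elim (fun a => some (Sum.inl a)) (Fin.lastCases none (fun s => some (Sum.inr s)))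
    have hg : Function.Injective g := by
      rintro (a | s) (b | s') h
      · simp [g] at h; rw [h]
      · exfalso
        refine Fin.lastCases ?_ (fun s' => ?_) s' h <;> intro h <;> simp [g] at h
      · exfalso
        refine Fin.lastCases ?_ (fun s => ?_) s h <;> intro h <;> simp [g] at h
      · revert h
        refine Fin.lastCases ?_ (fun s => ?_) s <;> refine Fin.lastCases ?_ (fun s' => ?_) s' <;>
          intro h <;> simp [g] at h <;> simp [h]
    let P : Option (Fin N ⊕ Fin m) → ℝ × ℝ := fun o => o.elim z p
    have hPi : Function.Injective P := by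
      rintro (_ | i) (_ | j) h
      · rfl
      · exact absurd h (hz1 j)
      · exact absurd h.symm (hz1 i)
      · exact congrArg _ (hpi h)
    have hPo : ∀ a b c, a ≠ b → a ≠ c → b ≠ c → orient (P a) (P b) (P c) ≠ 0 := by
      rintro (_ | i) (_ | j) (_ | k) hab hac hbc
      · exact absurd rfl hab
      · exact absurd rfl hab
      · exact absurd rfl hac
      · show orient z (p j) (p k) ≠ 0
        rw [orient_rot]
        exact hz2 j k (fun h => hbc (congrArg _ h))
      · exact absurd rfl hbc
      · show orient (p i) z (p k) ≠ 0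
        rw [orient_rot, orient_rot]
        exact hz2 k i (fun h => hac (congrArg _ h.symm))
      · exact hz2 i j (fun h => hab (congrArg _ h))
      · exact hpo i j k (fun h => hab (congrArg _ h)) (fun h => hac (congrArg _ h))
          (fun h => hbc (congrArg _ h))
    refine ⟨fun i => P (g i), ⟨hPi.comp hg, ?_⟩, fun a => hpa a, ?_⟩
    · intro a b c hab hac hbc
      exact hPo _ _ _ (fun h => hab (hg h)) (fun h => hac (hg h)) (fun h => hbc (hg h))
    · intro a b s hab
      refine Fin.lastCases ?_ (fun s => ?_) s
      · have : P (g (Sum.inr (Fin.last m))) = z := by simp [g, P]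
        show 0 < orient (q a) (q b) (0, 0) *
          orient (q a) (q b) (P (g (Sum.inr (Fin.last m))))
        rw [this]
        exact hz3 a b hab
      · have : P (g (Sum.inr (Fin.castSucc s))) = p (Sum.inr s) := by simp [g, P]
        show 0 < orient (q a) (q b) (0, 0) *
          orient (q a) (q b) (P (g (Sum.inr (Fin.castSucc s))))
        rw [this]
        exact hps a b s hab

end Pool.Agent.Lib.MP_00ece3_co
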