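import Pool.Agent.Lib.MP_00ece3_co.Spec

/-!
# Minors of contractions are minors
-/

namespace Pool.Agent.Lib.MP_00ece3_co

open Classical

/-- Two vertices in the same fibre are joined inside the preimage of every set which contains
the image. -/
theorem Contract.reachable_fibre {V W : Type} (G : SimpleGraph V) (f : V → W)
    (hf : ∀ w, (G.induce (f ⁻¹' {w})).Connected) (S : Set W)
    (x y : f ⁻¹' S) (hxy : f x.1 = f y.1) : (G.induce (f ⁻¹' S)).Reachable x y := by
  have hle : f ⁻¹' {f x.1} ≤ f ⁻¹' S := by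
    intro z hz
    have hz' : f z = f x.1 := hz
    have hx : f x.1 ∈ S := x.2
    show f z ∈ S
    rw [hz']
    exact hx
  have h1 : (G.induce (f ⁻¹' {f x.1})).Reachable ⟨x.1, rfl⟩ ⟨y.1, hxy.symm⟩ :=
    (hf (f x.1)).preconnected _ _
  have h2 := h1.map (SimpleGraph.induceHomOfLE G hle).toHom
  exact h2

/-- Preimages of connected sets of the contraction are connected. -/
theorem Contract.connected_preimage {V W : Type} (G : SimpleGraph V) (f : V → W)
    (hf : ∀ w, (G.induce (f ⁻¹' {w})).Connected) (S : Set W)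
    (hS : ((contract G f).induce S).Connected) : (G.induce (f ⁻¹' S)).Connected := by
  have key : ∀ (w w' : S), ((contract G f).induce S).Walk w w' →
      ∀ x y : f ⁻¹' S, f x.1 = w.1 → f y.1 = w'.1 → (G.induce (f ⁻¹' S)).Reachable x y := by
    intro w w' p
    induction p with
    | nil =>
      intro x y hx hy
      exact Contract.reachable_fibre G f hf S x y (hx.trans hy.symm)
    | @cons u v w h p ih =>
      intro x y hx hy
      have h' : (contract G f).Adj u.1 v.1 := h
      obtain ⟨hne, a, b, ha, hb, hab⟩ := h'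
      have haS : a ∈ f ⁻¹' S := by
        show f a ∈ S
        rw [ha]; exact u.2
      have hbS : b ∈ f ⁻¹' S := by
        show f b ∈ S
        rw [hb]; exact v.2
      have h1 : (G.induce (f ⁻¹' S)).Reachable x ⟨a, haS⟩ :=
        Contract.reachable_fibre G f hf S x ⟨a, haS⟩ (hx.trans ha.symm)
      have h2 : (G.induce (f ⁻¹' S)).Reachable ⟨a, haS⟩ ⟨b, hbS⟩ := by
        apply SimpleGraph.Adj.reachable
        exact hab
      exact (h1.trans h2).trans (ih ⟨b, hbS⟩ y hb hy)
  obtain ⟨w⟩ := hS.nonempty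
  obtain ⟨a⟩ := (hf w.1).nonempty
  have haS : a.1 ∈ f ⁻¹' S := by
    have : f a.1 = w.1 := a.2
    show f a.1 ∈ S
    rw [this]; exact w.2
  have : Nonempty (f ⁻¹' S) := ⟨⟨a.1, haS⟩⟩
  refine SimpleGraph.Connected.mk ?_
  intro x y
  obtain ⟨p⟩ := hS.preconnected ⟨f x.1, x.2⟩ ⟨f y.1, y.2⟩
  exact key _ _ p x y rfl rfl

theorem contract_minor : ContractStmt := by
  intro U V W H G f hf hm
  obtain ⟨B, hc, hd, ha⟩ := hm
  refine ⟨fun u => f ⁻¹' (B u), ?_, ?_, ?_⟩
  · intro u
    exact Contract.connected_preimage G f hf (B u) (hc u)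
  · intro u u' hne
    exact Disjoint.preimage f (hd u u' hne)
  · intro u u' hadj
    obtain ⟨a, haB, b, hbB, hab⟩ := ha u u' hadj
    obtain ⟨-, x, y, hx, hy, hxy⟩ := hab
    refine ⟨x, ?_, y, ?_, hxy⟩
    · show f x ∈ B u
      rw [hx]; exact haB
    · show f y ∈ B u'
      rw [hy]; exact hbB

theorem IsMinor.mono {U V : Type} {H : SimpleGraph U} {G G' : SimpleGraph V} (h : G ≤ G') :
    IsMinor H G → IsMinor H G' := by
  rintro ⟨B, hc, hd, ha⟩
  refine ⟨B, ?_, hd, ?_⟩
  · intro w
    exact (hc w).mono (fun x y hxy => h hxy)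
  · intro w w' hw
    obtain ⟨a, haB, b, hbB, hab⟩ := ha w w' hw
    exact ⟨a, haB, b, hbB, h hab⟩

/-- Connectedness of an induced subgraph of an induced subgraph, seen in the big graph. -/
theorem Contract.connected_image {V : Type} (G : SimpleGraph V) (s : Set V) (B : Set s)
    (h : ((G.induce s).induce B).Connected) :
    (G.induce ((Subtype.val : s → V) '' B)).Connected := by
  let e : ((G.induce s).induce B) →g (G.induce ((Subtype.val : s → V) '' B)) :=
    { toFun := fun x => ⟨x.1.1, ⟨x.1, x.2, rfl⟩⟩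
      map_rel' := fun {a b} hab => hab }
  have hsurj : Function.Surjective e := by
    rintro ⟨y, ⟨x, hx, rfl⟩⟩
    exact ⟨⟨x, hx⟩, rfl⟩
  exact h.map e hsurj

theorem IsMinor.of_induce {U V : Type} {H : SimpleGraph U} {G : SimpleGraph V} (s : Set V) :
    IsMinor H (G.induce s) → IsMinor H G := by
  rintro ⟨B, hc, hd, ha⟩
  refine ⟨fun u => (Subtype.val : s → V) '' (B u), ?_, ?_, ?_⟩
  · intro w
    exact Contract.connected_image G s (B w) (hc w)
  · intro w w' hne
    exact Set.disjoint_image_of_injective Subtype.val_injective (hd w w' hne)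
  · intro w w' hw
    obtain ⟨a, haB, b, hbB, hab⟩ := ha w w' hw
    exact ⟨a.1, ⟨a, haB, rfl⟩, b.1, ⟨b, hbB, rfl⟩, hab⟩

theorem Contract.connected_singleton {V : Type} (G : SimpleGraph V) (v : V) :
    (G.induce ({v} : Set V)).Connected := by
  have : Nonempty ({v} : Set V) := ⟨⟨v, rfl⟩⟩
  refine SimpleGraph.Connected.mk ?_
  rintro ⟨x, hx⟩ ⟨y, hy⟩
  have h1 : x = v := hx
  have h2 : y = v := hy
  subst h1
  subst h2
  exact SimpleGraph.Reachable.refl _

theorem minor_succ {V : Type} (G : SimpleGraph V) (h : ℕ) (v : V)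
    (hm : IsMinor (⊤ : SimpleGraph (Fin h)) (G.induce {x | G.Adj v x})) :
    IsMinor (⊤ : SimpleGraph (Fin (h + 1))) G := by
  obtain ⟨B, hc, hd, ha⟩ := hm
  let B' : Fin (h + 1) → Set V :=
    Fin.cases {v} (fun i => (Subtype.val : {x | G.Adj v x} → V) '' (B i))
  have hB0 : B' 0 = {v} := rfl
  have hBs : ∀ i : Fin h, B' i.succ = (Subtype.val : {x | G.Adj v x} → V) '' (B i) :=
    fun i => rfl
  have hv : ∀ i : Fin h, Disjoint ({v} : Set V) (B' i.succ) := by
    intro i
    rw [hBs, Set.disjoint_singleton_left]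
    rintro ⟨x, -, hx⟩
    have h1 : G.Adj v x.1 := x.2
    rw [hx] at h1
    exact G.loopless.irrefl v h1
  have hadj : ∀ i : Fin h, ∃ b ∈ B' i.succ, G.Adj v b := by
    intro i
    obtain ⟨x⟩ := (hc i).nonempty
    exact ⟨x.1.1, ⟨x.1, x.2, rfl⟩, x.1.2⟩
  refine ⟨B', ?_, ?_, ?_⟩
  · intro w
    refine Fin.cases ?_ (fun i => ?_) w
    · exact Contract.connected_singleton G v
    · exact Contract.connected_image G _ (B i) (hc i)
  · intro w w'
    refine Fin.cases ?_ (fun i => ?_) w
    · refine Fin.cases ?_ (fun j => ?_) w'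
      · intro hne; exact absurd rfl hne
      · intro _; exact hv j
    · refine Fin.cases ?_ (fun j => ?_) w'
      · intro _; exact (hv i).symm
      · intro hne
        have hij : i ≠ j := fun hh => hne (by rw [hh])
        exact Set.disjoint_image_of_injective Subtype.val_injective (hd i j hij)
  · intro w w'
    refine Fin.cases ?_ (fun i => ?_) w
    · refine Fin.cases ?_ (fun j => ?_) w'
      · intro hne; exact absurd rfl hne
      · intro _
        obtain ⟨b, hb, hvb⟩ := hadj j
        exact ⟨v, rfl, b, hb, hvb⟩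
    · refine Fin.cases ?_ (fun j => ?_) w'
      · intro _
        obtain ⟨b, hb, hvb⟩ := hadj i
        exact ⟨b, hb, v, rfl, hvb.symm⟩
      · intro hne
        have hij : (⊤ : SimpleGraph (Fin h)).Adj i j := by
          intro hh
          exact hne (by rw [hh])
        obtain ⟨a, haB, b, hbB, hab⟩ := ha i j hij
        exact ⟨a.1, ⟨a, haB, rfl⟩, b.1, ⟨b, hbB, rfl⟩, hab⟩

end Pool.Agent.Lib.MP_00ece3_co
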