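import Pool.Agent.Lib.MP_00ece3_co.Spec

/-!
# Orchard crossing numbers of planar graphs: edges between a set and its complement
-/

namespace Pool.Agent.Lib.MP_00ece3_co

open Classical

namespace Cross

variable {V : Type} [Fintype V]

/-- the retraction sending each `t ∈ T0` to `φ t` -/
noncomputable def retr (T0 : Finset V) (φ : V → V) (a : V) : V := if a ∈ T0 then φ a else a

theorem pairs_contract (hc : ContractStmt) (hp : PairsStmt) (G : SimpleGraph V) (hG : NoK5 G)
    (T0 : Finset V) (φ : V → V) (hφ : ∀ t ∈ T0, φ t ∉ T0 ∧ G.Adj t (φ t))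
    (S1 : Finset V) (hS1 : ∀ x ∈ S1, x ∉ T0) :
    ((S1 ×ˢ S1).filter (fun e => (contract G (retr T0 φ)).Adj e.1 e.2)).card ≤ 8 * S1.card := by
  have hr : ∀ a, retr T0 φ a ∉ T0 := by
    intro a
    unfold retr
    split_ifs with h
    · exact (hφ a h).1
    · exact h
  let f : V → {x : V // x ∉ T0} := fun a => ⟨retr T0 φ a, hr a⟩
  have hno : NoK5 (contract G f) := by
    intro h
    refine hG (hc (Fin 5) V {x : V // x ∉ T0} ⊤ G f ?_ h)
    intro w
    have hw : w.1 ∈ f ⁻¹' {w} := by
      simp only [Set.mem_preimage, Set.mem_singleton_iff]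
      apply Subtype.ext
      simp only [f, retr]
      rw [if_neg w.2]
    have hreach : ∀ x : (f ⁻¹' {w} : Set V), (G.induce (f ⁻¹' {w})).Reachable x ⟨w.1, hw⟩ := by
      rintro ⟨x, hx⟩
      have hx' : retr T0 φ x = w.1 := by
        have := congrArg Subtype.val (Set.mem_singleton_iff.mp hx)
        exact this
      unfold retr at hx'
      split_ifs at hx' with h
      · have hadj : G.Adj x w.1 := hx' ▸ (hφ x h).2
        exact SimpleGraph.Adj.reachable (by simpa using hadj)
      · subst hx'
        exact SimpleGraph.Reachable.refl _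
    have : Nonempty (f ⁻¹' {w} : Set V) := ⟨⟨w.1, hw⟩⟩
    exact SimpleGraph.Connected.mk (fun x y => (hreach x).trans (hreach y).symm)
  have h1 := hp {x : V // x ∉ T0} (contract G f) hno (S1.subtype (fun x => x ∉ T0))
  have h2 : (S1.subtype (fun x => x ∉ T0)).card = S1.card := by
    rw [Finset.card_subtype]
    congr 1
    exact Finset.filter_true_of_mem hS1
  rw [h2] at h1
  refine le_trans ?_ h1
  have hsub : (S1 ×ˢ S1).filter (fun e => (contract G (retr T0 φ)).Adj e.1 e.2) ⊆
      (((S1.subtype (fun x => x ∉ T0)) ×ˢ (S1.subtype (fun x => x ∉ T0))).filter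
        (fun e => (contract G f).Adj e.1 e.2)).image (fun e => (e.1.1, e.2.1)) := by
    rintro ⟨x, y⟩ hxy
    rw [Finset.mem_filter, Finset.mem_product] at hxy
    obtain ⟨⟨hx, hy⟩, hne, a, b, ha, hb, hab⟩ := hxy
    rw [Finset.mem_image]
    refine ⟨(⟨x, hS1 x hx⟩, ⟨y, hS1 y hy⟩), ?_, rfl⟩
    rw [Finset.mem_filter, Finset.mem_product]
    refine ⟨⟨?_, ?_⟩, ?_, a, b, ?_, ?_, hab⟩
    · simpa using hx
    · simpa using hy
    · intro h
      exact hne (congrArg Subtype.val h)
    · exact Subtype.ext ha
    · exact Subtype.ext hb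
  exact le_trans (Finset.card_le_card hsub) Finset.card_image_le

omit [Fintype V] in
theorem triangles (H : SimpleGraph V) : ∀ (S : Finset V)
    (_ : ∀ S1 ⊆ S, ((S1 ×ˢ S1).filter (fun e => H.Adj e.1 e.2)).card ≤ 8 * S1.card),
    ((S.powersetCard 3).filter (fun t : Finset V => H.IsClique (t : Set V))).card ≤ 28 * S.card := by
  intro S
  induction S using Finset.strongInduction with
  | H S ih =>
    intro h
    rcases S.eq_empty_or_nonempty with rfl | hne
    · simp
    have hex : ∃ a ∈ S, (S.filter (fun b => H.Adj a b)).card ≤ 8 := by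
      by_contra hcon
      push Not at hcon
      have h1 := h S (Finset.Subset.refl S)
      have h2 : ((S ×ˢ S).filter (fun e => H.Adj e.1 e.2)).card =
          ∑ a ∈ S, (S.filter (fun b => H.Adj a b)).card := by
        rw [Finset.card_filter, Finset.sum_product]
        refine Finset.sum_congr rfl fun a _ => ?_
        rw [Finset.card_filter]
      have h3 : ∑ a ∈ S, 9 ≤ ∑ a ∈ S, (S.filter (fun b => H.Adj a b)).card :=
        Finset.sum_le_sum fun a ha => hcon a ha
      rw [Finset.sum_const, smul_eq_mul] at h3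
      have := hne.card_pos
      omega
    obtain ⟨a, ha, hdeg⟩ := hex
    have h1 := ih (S.erase a) (Finset.erase_ssubset ha)
      (fun S1 hS1 => h S1 (hS1.trans (Finset.erase_subset _ _)))
    have hsub : (S.powersetCard 3).filter (fun t : Finset V => H.IsClique (t : Set V)) ⊆
        (((S.erase a).powersetCard 3).filter (fun t : Finset V => H.IsClique (t : Set V))) ∪
        (((S.filter (fun b => H.Adj a b)).powersetCard 2).image (fun p : Finset V => insert a p)) := by
      intro t ht
      rw [Finset.mem_filter, Finset.mem_powersetCard] at ht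
      obtain ⟨⟨htS, htc⟩, hcl⟩ := ht
      rw [Finset.mem_union]
      by_cases hat : a ∈ t
      · right
        rw [Finset.mem_image]
        refine ⟨t.erase a, ?_, Finset.insert_erase hat⟩
        rw [Finset.mem_powersetCard]
        refine ⟨?_, ?_⟩
        · intro b hb
          rw [Finset.mem_erase] at hb
          rw [Finset.mem_filter]
          exact ⟨htS hb.2, hcl (Finset.mem_coe.mpr hat) (Finset.mem_coe.mpr hb.2)
            (Ne.symm hb.1)⟩
        · rw [Finset.card_erase_of_mem hat, htc]
      · left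
        rw [Finset.mem_filter, Finset.mem_powersetCard]
        refine ⟨⟨?_, htc⟩, hcl⟩
        intro b hb
        rw [Finset.mem_erase]
        refine ⟨?_, htS hb⟩
        rintro rfl
        exact hat hb
    have h2 : (((S.filter (fun b => H.Adj a b)).powersetCard 2).image
        (fun p : Finset V => insert a p)).card ≤ 28 := by
      refine le_trans Finset.card_image_le ?_
      rw [Finset.card_powersetCard]
      calc (S.filter (fun b => H.Adj a b)).card.choose 2 ≤ (8 : ℕ).choose 2 :=
            Nat.choose_le_choose 2 hdeg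
        _ = 28 := by decide
    have h3 := (Finset.card_le_card hsub).trans (Finset.card_union_le _ _)
    rw [Finset.card_erase_of_mem ha] at h1
    have := Finset.card_pos.mpr ⟨a, ha⟩
    omega

omit [Fintype V] in
theorem noK33 (G : SimpleGraph V) (hG : Planar G) (s t : Fin 3 → V)
    (hs : Function.Injective s) (ht : Function.Injective t)
    (hadj : ∀ i j, G.Adj (s i) (t j)) : False := by
  apply hG.2
  have hst : ∀ i j, s i ≠ t j := fun i j => (hadj i j).ne
  refine ⟨Sum.elim (fun i => {s i}) (fun j => {t j}), ?_, ?_, ?_⟩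
  · rintro (i | j)
    · simp only [Sum.elim_inl]
      have : Nonempty ({s i} : Set V) := ⟨⟨s i, rfl⟩⟩
      have : Subsingleton ({s i} : Set V) := ⟨fun a b => Subtype.ext (a.2.trans b.2.symm)⟩
      exact SimpleGraph.Connected.mk (SimpleGraph.Preconnected.of_subsingleton)
    · simp only [Sum.elim_inr]
      have : Nonempty ({t j} : Set V) := ⟨⟨t j, rfl⟩⟩
      have : Subsingleton ({t j} : Set V) := ⟨fun a b => Subtype.ext (a.2.trans b.2.symm)⟩
      exact SimpleGraph.Connected.mk (SimpleGraph.Preconnected.of_subsingleton)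
  · rintro (i | j) (i' | j') h
    · simp only [Sum.elim_inl, Set.disjoint_singleton]
      intro h'
      exact h (congrArg Sum.inl (hs h'))
    · simp only [Sum.elim_inl, Sum.elim_inr, Set.disjoint_singleton]
      exact hst i j'
    · simp only [Sum.elim_inl, Sum.elim_inr, Set.disjoint_singleton]
      exact (hst i' j).symm
    · simp only [Sum.elim_inr, Set.disjoint_singleton]
      intro h'
      exact h (congrArg Sum.inr (ht h'))
  · rintro (i | j) (i' | j') h
    · simp at h
    · exact ⟨s i, rfl, t j', rfl, hadj i j'⟩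
    · exact ⟨t j, rfl, s i', rfl, (hadj i' j).symm⟩
    · simp at h

theorem maximal (hc : ContractStmt) (hp : PairsStmt) (G : SimpleGraph V) (hG : NoK5 G)
    (S T3 : Finset V) (hT3 : ∀ t ∈ T3, t ∉ S) :
    ∃ (T0 : Finset V) (φ : V → V), T0 ⊆ T3 ∧ (∀ t ∈ T0, φ t ∈ S ∧ G.Adj t (φ t)) ∧
      T0.card ≤ 4 * S.card ∧
      (∀ t ∈ T3, t ∉ T0 → ∀ s ∈ S, ∀ s' ∈ S, s ≠ s' → G.Adj t s → G.Adj t s' →
        (contract G (retr T0 φ)).Adj s s') := by
  let P : Finset V → Prop := fun T0 => T0 ⊆ T3 ∧ ∃ φ : V → V,
    (∀ t ∈ T0, φ t ∈ S ∧ G.Adj t (φ t)) ∧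
    2 * T0.card ≤
      ((S ×ˢ S).filter (fun e => (contract G (retr T0 φ)).Adj e.1 e.2)).card
  have hne : (Finset.univ.filter P).Nonempty := by
    refine ⟨∅, ?_⟩
    rw [Finset.mem_filter]
    refine ⟨Finset.mem_univ _, Finset.empty_subset _, id, ?_, ?_⟩
    · intro t ht
      simp at ht
    · simp
  obtain ⟨T0, hT0, hmax⟩ := Finset.exists_max_image (Finset.univ.filter P) Finset.card hne
  rw [Finset.mem_filter] at hT0
  obtain ⟨-, hsub, φ, hφ, hcard⟩ := hT0
  have hS : ∀ x ∈ S, x ∉ T0 := fun x hx hx' => hT3 x (hsub hx') hx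
  have hpc := pairs_contract hc hp G hG T0 φ
    (fun t ht => ⟨hS _ (hφ t ht).1, (hφ t ht).2⟩) S hS
  refine ⟨T0, φ, hsub, hφ, by omega, ?_⟩
  intro t ht ht0 s hs s' hs' hss hts hts'
  by_contra hnot
  have htS : t ∉ S := hT3 t ht
  have hP : P (insert t T0) := by
    refine ⟨Finset.insert_subset ht hsub, Function.update φ t s, ?_, ?_⟩
    · intro x hx
      rw [Finset.mem_insert] at hx
      by_cases hxt : x = t
      · subst hxt
        rw [Function.update_self]
        exact ⟨hs, hts⟩
      · rw [Function.update_of_ne hxt]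
        exact hφ x (hx.resolve_left hxt)
    · rw [Finset.card_insert_of_notMem ht0]
      have hret : ∀ a, a ≠ t → retr (insert t T0) (Function.update φ t s) a =
          retr T0 φ a := by
        intro a ha
        unfold retr
        rw [Function.update_of_ne ha]
        have : a ∈ insert t T0 ↔ a ∈ T0 := by
          rw [Finset.mem_insert]
          exact ⟨fun h => h.resolve_left ha, Or.inr⟩
        simp only [this]
      have hrett : retr (insert t T0) (Function.update φ t s) t = s := by
        unfold retr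
        rw [if_pos (Finset.mem_insert_self _ _), Function.update_self]
      have hretS : ∀ a ∈ S, retr (insert t T0) (Function.update φ t s) a = a := by
        intro a ha
        unfold retr
        rw [if_neg]
        rw [Finset.mem_insert]
        rintro (rfl | h)
        · exact htS ha
        · exact hS a ha h
      have hrt : retr T0 φ t = t := by
        unfold retr
        rw [if_neg ht0]
      have hadj1 : (contract G (retr (insert t T0) (Function.update φ t s))).Adj s s' :=
        ⟨hss, t, s', hrett, hretS s' hs', hts'⟩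
      have hsup : insert (s, s') (insert (s', s)
          ((S ×ˢ S).filter (fun e => (contract G (retr T0 φ)).Adj e.1 e.2))) ⊆
          (S ×ˢ S).filter (fun e =>
            (contract G (retr (insert t T0) (Function.update φ t s))).Adj e.1 e.2) := by
        intro e he
        rw [Finset.mem_insert, Finset.mem_insert] at he
        rw [Finset.mem_filter, Finset.mem_product]
        rcases he with rfl | rfl | he
        · exact ⟨⟨hs, hs'⟩, hadj1⟩
        · exact ⟨⟨hs', hs⟩, hadj1.symm⟩
        · rw [Finset.mem_filter, Finset.mem_product] at he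
          obtain ⟨⟨h1, h2⟩, h3, a, b, ha, hb, hab⟩ := he
          refine ⟨⟨h1, h2⟩, h3, a, b, ?_, ?_, hab⟩
          · rw [hret a, ha]
            rintro rfl
            rw [hrt] at ha
            exact htS (ha ▸ h1)
          · rw [hret b, hb]
            rintro rfl
            rw [hrt] at hb
            exact htS (hb ▸ h2)
      have hc1 := Finset.card_le_card hsup
      have hn2 : (s', s) ∉
          (S ×ˢ S).filter (fun e => (contract G (retr T0 φ)).Adj e.1 e.2) := by
        rw [Finset.mem_filter]
        exact fun h => hnot h.2.symm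
      have hn1 : (s, s') ∉ insert (s', s)
          ((S ×ˢ S).filter (fun e => (contract G (retr T0 φ)).Adj e.1 e.2)) := by
        rw [Finset.mem_insert, Finset.mem_filter]
        rintro (h | h)
        · exact hss (congrArg Prod.fst h)
        · exact hnot h.2
      rw [Finset.card_insert_of_notMem hn1, Finset.card_insert_of_notMem hn2] at hc1
      omega
  have h1 := hmax (insert t T0) (by
    rw [Finset.mem_filter]
    exact ⟨Finset.mem_univ _, hP⟩)
  rw [Finset.card_insert_of_notMem ht0] at h1
  omega

theorem card_T3 (hc : ContractStmt) (hp : PairsStmt) (G : SimpleGraph V) (hG : Planar G)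
    (S T3 : Finset V) (hT3 : ∀ t ∈ T3, t ∉ S)
    (hdeg : ∀ t ∈ T3, 3 ≤ (S.filter (fun s => G.Adj t s)).card) :
    T3.card ≤ 60 * S.card := by
  obtain ⟨T0, φ, hsub, hφ, hcard, hcl⟩ := maximal hc hp G hG.1 S T3 hT3
  have hS : ∀ x ∈ S, x ∉ T0 := fun x hx hx' => hT3 x (hsub hx') hx
  have htri := triangles (contract G (retr T0 φ)) S (fun S1 hS1 =>
    pairs_contract hc hp G hG.1 T0 φ
      (fun t ht => ⟨hS _ (hφ t ht).1, (hφ t ht).2⟩) S1 (fun x hx => hS x (hS1 hx)))
  -- choose a triangle for each remaining `t`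
  have hch : ∀ t : V, ∃ τ : Finset V, t ∈ T3 \ T0 →
      τ ⊆ S.filter (fun s => G.Adj t s) ∧ τ.card = 3 := by
    intro t
    by_cases ht : t ∈ T3 \ T0
    · obtain ⟨τ, h1, h2⟩ := Finset.exists_subset_card_eq (hdeg t (Finset.mem_sdiff.mp ht).1)
      exact ⟨τ, fun _ => ⟨h1, h2⟩⟩
    · exact ⟨∅, fun h => absurd h ht⟩
  choose τ hτ using hch
  have hmaps : ∀ t ∈ T3 \ T0, τ t ∈ (S.powersetCard 3).filter
      (fun t : Finset V => (contract G (retr T0 φ)).IsClique (t : Set V)) := by
    intro t ht
    obtain ⟨h1, h2⟩ := hτ t ht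
    rw [Finset.mem_filter, Finset.mem_powersetCard]
    refine ⟨⟨h1.trans (Finset.filter_subset _ _), h2⟩, ?_⟩
    intro x hx y hy hxy
    have hx' := Finset.mem_filter.mp (h1 (Finset.mem_coe.mp hx))
    have hy' := Finset.mem_filter.mp (h1 (Finset.mem_coe.mp hy))
    rw [Finset.mem_sdiff] at ht
    exact hcl t ht.1 ht.2 x hx'.1 y hy'.1 hxy hx'.2 hy'.2
  have hfib : ∀ q ∈ (S.powersetCard 3).filter
      (fun t : Finset V => (contract G (retr T0 φ)).IsClique (t : Set V)),
      ((T3 \ T0).filter (fun t => τ t = q)).card ≤ 2 := by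
    intro q hq
    by_contra hcon
    push Not at hcon
    obtain ⟨Q, hQ1, hQ2⟩ := Finset.exists_subset_card_eq (show 3 ≤ _ from hcon)
    rw [Finset.mem_filter, Finset.mem_powersetCard] at hq
    have e1 : Nonempty (Fin 3 ≃ q) := ⟨(Finset.equivFinOfCardEq hq.1.2).symm⟩
    have e2 : Nonempty (Fin 3 ≃ Q) := ⟨(Finset.equivFinOfCardEq hQ2).symm⟩
    obtain ⟨e1⟩ := e1
    obtain ⟨e2⟩ := e2
    refine noK33 G hG (fun i => (e1 i).1) (fun j => (e2 j).1) ?_ ?_ ?_
    · exact fun a b h => e1.injective (Subtype.ext h)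
    · exact fun a b h => e2.injective (Subtype.ext h)
    · intro i j
      have h2 := Finset.mem_filter.mp (hQ1 (e2 j).2)
      have h3 := (hτ _ h2.1).1
      rw [h2.2] at h3
      exact (Finset.mem_filter.mp (h3 (e1 i).2)).2.symm
  have h1 := Finset.card_le_mul_card_image_of_maps_to hmaps 2 hfib
  have h2 : T3.card ≤ T0.card + (T3 \ T0).card := by
    have := Finset.card_sdiff_add_card_inter T3 T0
    have h3 := Finset.card_le_card (Finset.inter_subset_right : T3 ∩ T0 ⊆ T0)
    omega
  omega

end Cross

theorem cross (hc : ContractStmt) (hp : PairsStmt) : CrossStmt := by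
  intro V _ G hG S
  set T3 : Finset V := Sᶜ.filter (fun t => 3 ≤ (S.filter (fun s => G.Adj t s)).card) with hT3
  have hT3S : ∀ t ∈ T3, t ∉ S := by
    intro t ht
    rw [hT3, Finset.mem_filter, Finset.mem_compl] at ht
    exact ht.1
  have hcard := Cross.card_T3 hc hp G hG S T3 hT3S (by
    intro t ht
    rw [hT3, Finset.mem_filter] at ht
    exact ht.2)
  have hsum : ((S ×ˢ Sᶜ).filter (fun e => G.Adj e.1 e.2)).card =
      ∑ t ∈ Sᶜ, (S.filter (fun s => G.Adj t s)).card := by
    rw [Finset.card_filter, Finset.sum_product_right]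
    refine Finset.sum_congr rfl fun t _ => ?_
    rw [Finset.card_filter]
    refine Finset.sum_congr rfl fun s _ => ?_
    simp only [G.adj_comm]
  have hsplit : ∑ t ∈ Sᶜ, (S.filter (fun s => G.Adj t s)).card ≤
      2 * Sᶜ.card + ∑ t ∈ T3, (S.filter (fun s => G.Adj t s)).card := by
    rw [hT3, Finset.sum_filter, mul_comm, ← smul_eq_mul, ← Finset.sum_const,
      ← Finset.sum_add_distrib]
    refine Finset.sum_le_sum fun t _ => ?_
    split_ifs with h
    · omega
    · omega
  have hpairs := hp V G hG.1 (S ∪ T3)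
  have hlow : 2 * ∑ t ∈ T3, (S.filter (fun s => G.Adj t s)).card ≤
      (((S ∪ T3) ×ˢ (S ∪ T3)).filter (fun e => G.Adj e.1 e.2)).card := by
    have h1 : ((S ×ˢ T3).filter (fun e => G.Adj e.1 e.2)).card =
        ∑ t ∈ T3, (S.filter (fun s => G.Adj t s)).card := by
      rw [Finset.card_filter, Finset.sum_product_right]
      refine Finset.sum_congr rfl fun t _ => ?_
      rw [Finset.card_filter]
      refine Finset.sum_congr rfl fun s _ => ?_
      simp only [G.adj_comm]
    have h2 : ((T3 ×ˢ S).filter (fun e => G.Adj e.1 e.2)).card =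
        ∑ t ∈ T3, (S.filter (fun s => G.Adj t s)).card := by
      rw [Finset.card_filter, Finset.sum_product]
      refine Finset.sum_congr rfl fun t _ => ?_
      rw [Finset.card_filter]
    have hdisj : Disjoint ((S ×ˢ T3).filter (fun e => G.Adj e.1 e.2))
        ((T3 ×ˢ S).filter (fun e => G.Adj e.1 e.2)) := by
      rw [Finset.disjoint_left]
      rintro ⟨x, y⟩ h h'
      rw [Finset.mem_filter, Finset.mem_product] at h h'
      exact hT3S x h'.1.1 h.1.1
    have hsub : (S ×ˢ T3).filter (fun e => G.Adj e.1 e.2) ∪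
        (T3 ×ˢ S).filter (fun e => G.Adj e.1 e.2) ⊆
        ((S ∪ T3) ×ˢ (S ∪ T3)).filter (fun e => G.Adj e.1 e.2) := by
      rintro ⟨x, y⟩ h
      rw [Finset.mem_filter, Finset.mem_product, Finset.mem_union, Finset.mem_union]
      rcases Finset.mem_union.mp h with h | h
      · obtain ⟨h12, h3⟩ := Finset.mem_filter.mp h
        obtain ⟨h1, h2⟩ := Finset.mem_product.mp h12
        exact ⟨⟨Or.inl h1, Or.inr h2⟩, h3⟩
      · obtain ⟨h12, h3⟩ := Finset.mem_filter.mp h
        obtain ⟨h1, h2⟩ := Finset.mem_product.mp h12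
        exact ⟨⟨Or.inr h1, Or.inl h2⟩, h3⟩
    have h3 := Finset.card_le_card hsub
    rw [Finset.card_union_of_disjoint hdisj, h1, h2] at h3
    omega
  have hun : (S ∪ T3).card ≤ S.card + T3.card := Finset.card_union_le _ _
  rw [hsum]
  omega

end Pool.Agent.Lib.MP_00ece3_co
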