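import Pool.Agent.Lib.MP_00ece3_co.Spec

/-!
# Graphs with many edges have a large clique minor

`pairs`: a graph without `K₅` minor has at most `4n` edges, in any induced subgraph.
-/

namespace Pool.Agent.Lib.MP_00ece3_co

open Classical

namespace Edges

/-- The number of ordered pairs of adjacent vertices. -/
noncomputable def prs {V : Type} [Fintype V] (G : SimpleGraph V) : ℕ :=
  ((Finset.univ : Finset (V × V)).filter (fun e => G.Adj e.1 e.2)).card

/-- Common neighbours. -/
noncomputable def com {V : Type} [Fintype V] (G : SimpleGraph V) (u v : V) : Finset V :=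
  Finset.univ.filter (fun b => G.Adj u b ∧ G.Adj v b)

theorem minor_of_induce {U V : Type} (H : SimpleGraph U) (G : SimpleGraph V) (S : Set V)
    (h : IsMinor H (G.induce S)) : IsMinor H G := by
  obtain ⟨B, h1, h2, h3⟩ := h
  refine ⟨fun w => Subtype.val '' (B w), ?_, ?_, ?_⟩
  · intro w
    refine SimpleGraph.Connected.map
      (f := (⟨fun x => ⟨x.1.1, ⟨x.1, x.2, rfl⟩⟩, ?_⟩ :
        ((G.induce S).induce (B w)) →g (G.induce (Subtype.val '' (B w))))) ?_ (h1 w)
    · intro a b hab
      exact hab
    · rintro ⟨x, y, hy, rfl⟩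
      exact ⟨⟨y, hy⟩, rfl⟩
  · intro w w' hw
    rw [Set.disjoint_left]
    rintro x ⟨y, hy, rfl⟩ ⟨z, hz, hzy⟩
    have : z = y := Subtype.ext hzy
    subst this
    exact (Set.disjoint_left.1 (h2 w w' hw)) hy hz
  · intro w w' hw
    obtain ⟨a, ha, b, hb, hab⟩ := h3 w w' hw
    exact ⟨a.1, ⟨a, ha, rfl⟩, b.1, ⟨b, hb, rfl⟩, hab⟩

theorem singleton_conn {V : Type} (G : SimpleGraph V) (v : V) :
    (G.induce ({v} : Set V)).Connected := by
  have : Nonempty ({v} : Set V) := ⟨⟨v, rfl⟩⟩
  exact SimpleGraph.Connected.of_subsingleton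

theorem pair_conn {V : Type} (G : SimpleGraph V) (u v : V) (h : G.Adj u v) :
    (G.induce ({u, v} : Set V)).Connected := by
  have : Nonempty ({u, v} : Set V) := ⟨⟨u, by simp⟩⟩
  refine ⟨?_⟩
  rintro ⟨x, hx⟩ ⟨y, hy⟩
  by_cases hxy : x = y
  · subst hxy
    exact SimpleGraph.Reachable.refl _
  · apply SimpleGraph.Adj.reachable
    change G.Adj x y
    simp only [Set.mem_insert_iff, Set.mem_singleton_iff] at hx hy
    rcases hx with rfl | rfl <;> rcases hy with rfl | rfl
    · exact absurd rfl hxy
    · exact h
    · exact h.symm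
    · exact absurd rfl hxy

/-- The map contracting `v` onto `u`. -/
noncomputable def cmap {V : Type} (u v : V) (huv : u ≠ v) (x : V) : {x : V // x ≠ v} :=
  if h : x = v then ⟨u, huv⟩ else ⟨x, h⟩

theorem cmap_v {V : Type} (u v : V) (huv : u ≠ v) : cmap u v huv v = ⟨u, huv⟩ := by
  simp [cmap]

theorem cmap_ne {V : Type} (u v : V) (huv : u ≠ v) (x : V) (h : x ≠ v) :
    cmap u v huv x = ⟨x, h⟩ := by
  simp [cmap, h]

theorem cmap_val {V : Type} (u v : V) (huv : u ≠ v) (x : V) :
    (cmap u v huv x).1 = if x = v then u else x := by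
  by_cases h : x = v
  · simp [cmap, h]
  · simp [cmap, h]

theorem cmap_fibre {V : Type} (G : SimpleGraph V) (u v : V) (h : G.Adj u v)
    (w : {x : V // x ≠ v}) :
    (G.induce ((cmap u v h.ne) ⁻¹' {w})).Connected := by
  by_cases hw : w.1 = u
  · have : (cmap u v h.ne) ⁻¹' {w} = {u, v} := by
      ext x
      simp only [Set.mem_preimage, Set.mem_singleton_iff, Set.mem_insert_iff]
      rw [← Subtype.coe_inj, cmap_val]
      by_cases hx : x = v
      · simp [hx, hw]
      · simp [hx, hw]
    rw [this]
    exact pair_conn G u v h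
  · have : (cmap u v h.ne) ⁻¹' {w} = {w.1} := by
      ext x
      simp only [Set.mem_preimage, Set.mem_singleton_iff]
      rw [← Subtype.coe_inj, cmap_val]
      by_cases hx : x = v
      · subst hx
        simp only [if_true]
        constructor
        · intro h'
          exact absurd h'.symm hw
        · intro h'
          exact absurd h'.symm w.2
      · simp [hx]
    rw [this]
    exact singleton_conn G w.1

/-- The pairs lost in the contraction. -/
noncomputable def bad {V : Type} [Fintype V] (G : SimpleGraph V) (u v : V) : Finset (V × V) :=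
  {(u, v), (v, u)} ∪ (com G u v).image (fun b => (v, b)) ∪ (com G u v).image (fun b => (b, v))

theorem bad_card {V : Type} [Fintype V] (G : SimpleGraph V) (u v : V) :
    (bad G u v).card ≤ 2 + 2 * (com G u v).card := by
  unfold bad
  have h1 : (({(u, v), (v, u)} : Finset (V × V))).card ≤ 2 := Finset.card_le_two
  have h2 : ((com G u v).image (fun b => (v, b))).card ≤ (com G u v).card :=
    Finset.card_image_le
  have h3 : ((com G u v).image (fun b => (b, v))).card ≤ (com G u v).card :=
    Finset.card_image_le
  have h4 := Finset.card_union_le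
    (({(u, v), (v, u)} : Finset (V × V)) ∪ (com G u v).image (fun b => (v, b)))
    ((com G u v).image (fun b => (b, v)))
  have h5 := Finset.card_union_le
    (({(u, v), (v, u)} : Finset (V × V))) ((com G u v).image (fun b => (v, b)))
  omega

theorem contract_prs {V : Type} [Fintype V] (G : SimpleGraph V) (u v : V) (h : G.Adj u v) :
    prs G ≤ prs (contract G (cmap u v h.ne)) + 2 + 2 * (com G u v).card := by
  have hb := bad_card G u v
  have key : ((Finset.univ : Finset (V × V)).filter (fun e => G.Adj e.1 e.2) \ bad G u v).card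
      ≤ prs (contract G (cmap u v h.ne)) := by
    unfold prs
    apply Finset.card_le_card_of_injOn
      (fun e => (cmap u v h.ne e.1, cmap u v h.ne e.2))
    · rintro ⟨a, b⟩ hab
      simp only [Finset.coe_sdiff, Set.mem_sdiff, Finset.mem_coe, Finset.mem_filter,
        Finset.mem_univ, true_and] at hab ⊢
      obtain ⟨hab, hbad⟩ := hab
      refine ⟨?_, a, b, rfl, rfl, hab⟩
      intro hEq
      rw [← Subtype.coe_inj, cmap_val, cmap_val] at hEq
      apply hbad
      unfold bad
      simp only [Finset.mem_union, Finset.mem_insert, Finset.mem_singleton, Prod.mk.injEq,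
        Finset.mem_image]
      left; left
      by_cases ha : a = v
      · by_cases hb' : b = v
        · exact absurd (ha.trans hb'.symm) hab.ne
        · simp only [ha, hb', if_true, if_false] at hEq
          right
          exact ⟨ha, hEq.symm⟩
      · by_cases hb' : b = v
        · simp only [ha, hb', if_true, if_false] at hEq
          left
          exact ⟨hEq, hb'⟩
        · simp only [ha, hb', if_false] at hEq
          exact absurd hEq hab.ne
    · rintro ⟨a, b⟩ hab ⟨a', b'⟩ hab' hEq
      simp only [Finset.coe_sdiff, Set.mem_sdiff, Finset.mem_coe, Finset.mem_filter,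
        Finset.mem_univ, true_and] at hab hab'
      obtain ⟨hab, hbad⟩ := hab
      obtain ⟨hab', hbad'⟩ := hab'
      simp only [Prod.mk.injEq] at hEq
      obtain ⟨e1, e2⟩ := hEq
      rw [← Subtype.coe_inj, cmap_val, cmap_val] at e1 e2
      unfold bad com at hbad hbad'
      simp only [Finset.mem_union, Finset.mem_insert, Finset.mem_singleton, Prod.mk.injEq,
        Finset.mem_image, Finset.mem_filter, Finset.mem_univ, true_and] at hbad hbad'
      push Not at hbad hbad'
      have huv := h.ne
      have hs : ∀ x y, G.Adj x y → G.Adj y x := fun x y hxy => hxy.symm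
      have hne : ∀ x y, G.Adj x y → x ≠ y := fun x y hxy => hxy.ne
      obtain ⟨⟨⟨p1, p2⟩, p3⟩, p4⟩ := hbad
      obtain ⟨⟨⟨q1, q2⟩, q3⟩, q4⟩ := hbad'
      have haa : a = a' ∨ (a = v ∧ a' = u) ∨ (a = u ∧ a' = v) := by
        by_cases ha : a = v
        · by_cases ha' : a' = v
          · left; rw [ha, ha']
          · simp only [ha, ha', if_true, if_false] at e1
            right; left; exact ⟨ha, e1.symm⟩
        · by_cases ha' : a' = v
          · simp only [ha, ha', if_true, if_false] at e1
            right; right; exact ⟨e1, ha'⟩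
          · simp only [ha, ha', if_false] at e1
            left; exact e1
      have hbb : b = b' ∨ (b = v ∧ b' = u) ∨ (b = u ∧ b' = v) := by
        by_cases ha : b = v
        · by_cases ha' : b' = v
          · left; rw [ha, ha']
          · simp only [ha, ha', if_true, if_false] at e2
            right; left; exact ⟨ha, e2.symm⟩
        · by_cases ha' : b' = v
          · simp only [ha, ha', if_true, if_false] at e2
            right; right; exact ⟨e2, ha'⟩
          · simp only [ha, ha', if_false] at e2
            left; exact e2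
      rcases haa with rfl | ⟨rfl, rfl⟩ | ⟨rfl, rfl⟩
      · rcases hbb with rfl | ⟨rfl, rfl⟩ | ⟨rfl, rfl⟩
        · rfl
        · exact absurd rfl (p4 a ⟨hs _ _ hab', hs _ _ hab⟩ rfl)
        · exact absurd rfl (q4 a ⟨hs _ _ hab, hs _ _ hab'⟩ rfl)
      · rcases hbb with rfl | ⟨rfl, rfl⟩ | ⟨rfl, rfl⟩
        · exact absurd rfl (p3 b ⟨hab', hab⟩ rfl)
        · exact absurd rfl (hne _ _ hab)
        · exact absurd rfl (p2 rfl)
      · rcases hbb with rfl | ⟨rfl, rfl⟩ | ⟨rfl, rfl⟩
        · exact absurd rfl (q3 b ⟨hab, hab'⟩ rfl)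
        · exact absurd rfl (p1 rfl)
        · exact absurd rfl (hne _ _ hab)
  have h6 := Finset.le_card_sdiff (bad G u v)
    ((Finset.univ : Finset (V × V)).filter (fun e => G.Adj e.1 e.2))
  unfold prs at key ⊢
  omega

/-- The number of pairs as a sum of degrees, lower bound. -/
theorem prs_ge {V : Type} [Fintype V] (G : SimpleGraph V) (d : ℕ)
    (h : ∀ v, d ≤ ((Finset.univ : Finset V).filter (fun b => G.Adj v b)).card) :
    d * Fintype.card V ≤ prs G := by
  have : prs G = ∑ v : V, ((Finset.univ : Finset V).filter (fun b => G.Adj v b)).card := by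
    unfold prs
    rw [Finset.card_filter, Fintype.sum_prod_type]
    apply Finset.sum_congr rfl
    intro v _
    rw [Finset.card_filter]
  rw [this]
  calc d * Fintype.card V = ∑ _v : V, d := by
        rw [Finset.sum_const, Finset.card_univ, smul_eq_mul, mul_comm]
    _ ≤ _ := Finset.sum_le_sum (fun v _ => h v)

/-- Adding a vertex adjacent to everything. -/
theorem minor_cone {V : Type} (G : SimpleGraph V) (v : V) (h : ℕ)
    (hm : IsMinor (⊤ : SimpleGraph (Fin h)) (G.induce (G.neighborSet v))) :
    IsMinor (⊤ : SimpleGraph (Fin (h + 1))) G := by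
  obtain ⟨B, h1, h2, h3⟩ := hm
  have hB : ∀ i, ((G.induce (Subtype.val '' (B i))).Connected) := by
    intro w
    refine SimpleGraph.Connected.map
      (f := (⟨fun x => ⟨x.1.1, ⟨x.1, x.2, rfl⟩⟩, ?_⟩ :
        ((G.induce (G.neighborSet v)).induce (B w)) →g (G.induce (Subtype.val '' (B w))))) ?_
      (h1 w)
    · intro a b hab
      exact hab
    · rintro ⟨x, y, hy, rfl⟩
      exact ⟨⟨y, hy⟩, rfl⟩
  have hd : ∀ i, Disjoint ({v} : Set V) (Subtype.val '' (B i)) := by
    intro i
    rw [Set.disjoint_left]
    rintro x hx ⟨y, hy, hyx⟩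
    have hxv : x = v := hx
    have := y.2
    rw [hyx, hxv] at this
    exact (SimpleGraph.irrefl G) this
  have ha : ∀ i, ∃ b ∈ Subtype.val '' (B i), G.Adj v b := by
    intro i
    obtain ⟨⟨y, hy⟩⟩ := (h1 i).nonempty
    exact ⟨y.1, ⟨y, hy, rfl⟩, y.2⟩
  refine ⟨Fin.cases {v} (fun i => Subtype.val '' (B i)), ?_, ?_, ?_⟩
  · intro w
    refine Fin.cases ?_ (fun i => ?_) w
    · exact singleton_conn G v
    · exact hB i
  · intro w w'
    refine Fin.cases ?_ (fun i => ?_) w
    · refine Fin.cases ?_ (fun j => ?_) w'
      · intro h0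
        exact absurd rfl h0
      · intro _
        exact hd j
    · refine Fin.cases ?_ (fun j => ?_) w'
      · intro _
        exact (hd i).symm
      · intro hij
        have hij' : i ≠ j := fun h' => hij (by rw [h'])
        change Disjoint (Subtype.val '' (B i)) (Subtype.val '' (B j))
        rw [Set.disjoint_left]
        rintro x ⟨y, hy, rfl⟩ ⟨z, hz, hzy⟩
        have : z = y := Subtype.ext hzy
        subst this
        exact (Set.disjoint_left.1 (h2 i j hij')) hy hz
  · intro w w'
    refine Fin.cases ?_ (fun i => ?_) w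
    · refine Fin.cases ?_ (fun j => ?_) w'
      · intro h0
        exact absurd rfl h0
      · intro _
        obtain ⟨b, hb, hvb⟩ := ha j
        exact ⟨v, rfl, b, hb, hvb⟩
    · refine Fin.cases ?_ (fun j => ?_) w'
      · intro _
        obtain ⟨b, hb, hvb⟩ := ha i
        exact ⟨b, hb, v, rfl, hvb.symm⟩
      · intro hij
        have hij' : i ≠ j := fun h' => hij (by rw [h'])
        obtain ⟨a, ha', b, hb, hab⟩ := h3 i j hij'
        exact ⟨a.1, ⟨a, ha', rfl⟩, b.1, ⟨b, hb, rfl⟩, hab⟩

theorem main (hc : ContractStmt) : ∀ h n : ℕ, ∀ (V : Type) [Fintype V] (G : SimpleGraph V),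
    Fintype.card V = n → 1 ≤ n → 2 ^ h * n ≤ prs G →
    IsMinor (⊤ : SimpleGraph (Fin (h + 2))) G := by
  intro h
  induction h with
  | zero =>
    intro n V _ G hV hn hp
    have hpos : 0 < prs G := by
      have : 1 ≤ 2 ^ 0 * n := by simpa using hn
      omega
    unfold prs at hpos
    rw [Finset.card_pos] at hpos
    obtain ⟨⟨a, b⟩, hab⟩ := hpos
    simp only [Finset.mem_filter, Finset.mem_univ, true_and] at hab
    have hne := hab.ne
    refine ⟨fun i => if i = 0 then {a} else {b}, ?_, ?_, ?_⟩
    · intro w
      by_cases hw : w = 0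
      · have e : (fun i : Fin (0 + 2) => if i = 0 then ({a} : Set V) else {b}) w = {a} :=
          if_pos hw
        rw [e]
        exact singleton_conn G a
      · have e : (fun i : Fin (0 + 2) => if i = 0 then ({a} : Set V) else {b}) w = {b} :=
          if_neg hw
        rw [e]
        exact singleton_conn G b
    · intro w w' hw
      fin_cases w <;> fin_cases w' <;> simp at hw ⊢
      · exact hne
      · exact hne.symm
    · intro w w' hw
      fin_cases w <;> fin_cases w' <;> simp at hw ⊢
      · exact hab
      · exact hab.symm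
  | succ h ih =>
    intro n
    induction n with
    | zero =>
      intro V _ G hV hn
      omega
    | succ n ihn =>
      intro V _ G hV hn hp
      by_cases hcase : ∃ u v, G.Adj u v ∧ (com G u v).card + 1 ≤ 2 ^ h
      · obtain ⟨u, v, huv, hcom⟩ := hcase
        have hcp := contract_prs G u v huv
        have hcard : Fintype.card {x : V // x ≠ v} = n := by
          have : Fintype.card {x : V // x ≠ v} = Fintype.card V - 1 := by
            simpa using Set.card_ne_eq v
          omega
        have hn1 : 1 ≤ n := by
          rw [← hcard]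
          have : Nonempty {x : V // x ≠ v} := ⟨⟨u, huv.ne⟩⟩
          exact Fintype.card_pos
        apply hc _ _ _ _ G (cmap u v huv.ne) (cmap_fibre G u v huv)
        apply ihn _ _ hcard hn1
        have h2 : 2 ^ (h + 1) * (n + 1) = 2 ^ (h + 1) * n + 2 * 2 ^ h := by ring
        omega
      · push Not at hcase
        have hpos : 0 < prs G := by
          have h1 : 1 ≤ 2 ^ (h + 1) * (n + 1) := Nat.one_le_iff_ne_zero.2 (by positivity)
          omega
        have hpos' := hpos
        unfold prs at hpos'
        rw [Finset.card_pos] at hpos'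
        obtain ⟨⟨v, b⟩, hvb⟩ := hpos'
        simp only [Finset.mem_filter, Finset.mem_univ, true_and] at hvb
        apply minor_cone G v (h + 2)
        have hne : Nonempty (G.neighborSet v) := ⟨⟨b, hvb⟩⟩
        apply ih (Fintype.card (G.neighborSet v)) _ _ rfl Fintype.card_pos
        apply prs_ge
        rintro ⟨u, hu⟩
        have h1 := hcase v u hu
        have h0 : 2 ^ h ≤ (com G v u).card := by omega
        refine h0.trans ?_
        have : com G v u ⊆ ((Finset.univ : Finset (G.neighborSet v)).filter
            (fun b => (G.induce (G.neighborSet v)).Adj ⟨u, hu⟩ b)).image Subtype.val := by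
          intro x hx
          unfold com at hx
          simp only [Finset.mem_filter, Finset.mem_univ, true_and] at hx
          simp only [Finset.mem_image, Finset.mem_filter, Finset.mem_univ, true_and]
          exact ⟨⟨x, hx.1⟩, hx.2, rfl⟩
        exact (Finset.card_le_card this).trans Finset.card_image_le

end Edges

open Edges in
theorem pairs (hc : ContractStmt) : PairsStmt := by
  intro V _ G hG S
  by_contra hcon
  push Not at hcon
  apply hG
  apply minor_of_induce _ G (S : Set V)
  have hS : S.Nonempty := by
    rw [Finset.nonempty_iff_ne_empty]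
    rintro rfl
    simp at hcon
  have hcard : Fintype.card ((S : Set V)) = S.card := by simp
  apply main hc 3 S.card _ _ hcard hS.card_pos
  have : ((S ×ˢ S).filter (fun e => G.Adj e.1 e.2)).card ≤ prs (G.induce (S : Set V)) := by
    have hsub : ((S ×ˢ S).filter (fun e => G.Adj e.1 e.2)) ⊆
        ((Finset.univ : Finset (((S : Set V) : Type) × ((S : Set V) : Type))).filter
          (fun e => (G.induce (S : Set V)).Adj e.1 e.2)).image (fun e => (e.1.1, e.2.1)) := by
      rintro ⟨a, b⟩ hab
      simp only [Finset.mem_filter, Finset.mem_product] at hab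
      simp only [Finset.mem_image, Finset.mem_filter, Finset.mem_univ, true_and]
      exact ⟨(⟨a, hab.1.1⟩, ⟨b, hab.1.2⟩), hab.2, rfl⟩
    exact (Finset.card_le_card hsub).trans Finset.card_image_le
  have h8 : 2 ^ 3 * S.card = 8 * S.card := by norm_num
  omega

end Pool.Agent.Lib.MP_00ece3_co
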