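import Pool.Agent.Lib.MP_00ece3_co.Spec

/-!
# Fragmentation of graphs without `K₅` minor
-/

namespace Pool.Agent.Lib.MP_00ece3_co

open Classical

namespace Fragment

theorem connected_image {V : Type} (G : SimpleGraph V) (W : Set V) (B : Set ↥W)
    (h : ((G.induce W).induce B).Connected) : (G.induce (Subtype.val '' B)).Connected := by
  refine SimpleGraph.Connected.map (G := (G.induce W).induce B)
    ⟨fun x => ⟨x.1.1, ⟨x.1, x.2, rfl⟩⟩, fun h => h⟩ ?_ h
  rintro ⟨_, ⟨y, hy, rfl⟩⟩
  exact ⟨⟨y, hy⟩, rfl⟩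

theorem noK5_induce {V : Type} {G : SimpleGraph V} (W : Set V) (h : NoK5 G) :
    NoK5 (G.induce W) := by
  rintro ⟨B, h1, h2, h3⟩
  apply h
  refine ⟨fun w => Subtype.val '' B w, fun w => connected_image G W (B w) (h1 w),
    fun w w' hne => ?_, fun w w' hadj => ?_⟩
  · exact (Set.disjoint_image_iff Subtype.val_injective).2 (h2 w w' hne)
  · obtain ⟨a, ha, b, hb, hab⟩ := h3 w w' hadj
    exact ⟨a.1, ⟨a, ha, rfl⟩, b.1, ⟨b, hb, rfl⟩, hab⟩

/-- The vertex set of a component of `G - S`. -/
def part {V : Type} (G : SimpleGraph V) (S : Set V)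
    (c : (G.induce Sᶜ).ConnectedComponent) : Set V := Subtype.val '' c.supp

theorem part_connected {V : Type} (G : SimpleGraph V) (S : Set V)
    (c : (G.induce Sᶜ).ConnectedComponent) : (G.induce (part G S c)).Connected :=
  connected_image G Sᶜ c.supp c.connected_toSimpleGraph

theorem part_disjoint {V : Type} (G : SimpleGraph V) (S : Set V)
    (c : (G.induce Sᶜ).ConnectedComponent) : Disjoint (part G S c) S := by
  rw [Set.disjoint_left]
  rintro _ ⟨x, -, rfl⟩
  exact x.2

theorem part_mk {V : Type} (G : SimpleGraph V) (S : Set V)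
    (c : (G.induce Sᶜ).ConnectedComponent) {x : V} (hx : x ∈ part G S c) (hx' : x ∈ Sᶜ) :
    (G.induce Sᶜ).connectedComponentMk ⟨x, hx'⟩ = c := by
  obtain ⟨y, hy, rfl⟩ := hx
  exact hy

theorem step {V : Type} [Fintype V] (G : SimpleGraph V) (S0 : Finset V) (a : ℝ) (D : ℝ)
    (ha : 0 ≤ a)
    (hP : ∀ W : Set V, Disjoint W (S0 : Set V) → (G.induce W).Connected →
      ∃ T : Finset ↥W, (T.card : ℝ) ≤ a * Fintype.card ↥W ∧
        ∀ C : Finset ↥W, Disjoint C T → ((G.induce W).induce (C : Set ↥W)).Connected →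
          (C.card : ℝ) ≤ D) :
    ∃ S : Finset V, (S.card : ℝ) ≤ S0.card + a * Fintype.card V ∧
      ∀ C : Finset V, Disjoint C S → (G.induce (C : Set V)).Connected → (C.card : ℝ) ≤ D := by
  choose T hT1 hT2 using fun c => hP (part G (S0 : Set V) c) (part_disjoint G _ c)
    (part_connected G _ c)
  have hfin : Finite (G.induce ((S0 : Set V)ᶜ)).ConnectedComponent := Quot.finite _
  have hft : Fintype (G.induce ((S0 : Set V)ᶜ)).ConnectedComponent := Fintype.ofFinite _
  refine ⟨S0 ∪ Finset.univ.biUnion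
    (fun c => (T c).map ⟨Subtype.val, Subtype.val_injective⟩), ?_, ?_⟩
  · have h1 := Finset.card_union_le S0 (Finset.univ.biUnion
      (fun c => (T c).map ⟨Subtype.val, Subtype.val_injective⟩))
    have h2 : (Finset.univ.biUnion
        (fun c => (T c).map ⟨Subtype.val, Subtype.val_injective⟩)).card ≤
        ∑ c, (T c).card := by
      refine le_trans Finset.card_biUnion_le (le_of_eq ?_)
      apply Finset.sum_congr rfl
      intro c _
      rw [Finset.card_map]
    have h3 : ∑ c, (Fintype.card ↥(part G (S0 : Set V) c)) ≤ Fintype.card V := by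
      rw [← Fintype.card_sigma]
      apply Fintype.card_le_of_injective (fun x => x.2.1)
      rintro ⟨c, x⟩ ⟨d, y⟩ hxy
      have hxy' : x.1 = y.1 := hxy
      have hx' : x.1 ∈ ((S0 : Set V)ᶜ) := fun h =>
        (Set.disjoint_left.1 (part_disjoint G _ c)) x.2 h
      have hcd : c = d := by
        rw [← part_mk G _ c x.2 hx']
        apply part_mk G _ d
        rw [hxy']
        exact y.2
      subst hcd
      have : x = y := Subtype.ext hxy'
      rw [this]
    have h4 : (∑ c, ((T c).card : ℝ)) ≤ a * Fintype.card V := by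
      calc (∑ c, ((T c).card : ℝ)) ≤ ∑ c, a * (Fintype.card ↥(part G (S0 : Set V) c) : ℝ) :=
            Finset.sum_le_sum (fun c _ => hT1 c)
        _ = a * ∑ c, (Fintype.card ↥(part G (S0 : Set V) c) : ℝ) := by rw [Finset.mul_sum]
        _ ≤ a * Fintype.card V := by
            apply mul_le_mul_of_nonneg_left _ ha
            exact_mod_cast h3
    have h5 : ((S0 ∪ Finset.univ.biUnion
        (fun c => (T c).map ⟨Subtype.val, Subtype.val_injective⟩)).card : ℝ) ≤
        S0.card + ∑ c, ((T c).card : ℝ) := by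
      exact_mod_cast le_trans h1 (Nat.add_le_add_left h2 _)
    linarith
  · intro C hC hconn
    rw [Finset.disjoint_union_right] at hC
    obtain ⟨hC0, hC1⟩ := hC
    have hout : ∀ x ∈ C, x ∈ ((S0 : Set V)ᶜ) := fun x hx h => (Finset.disjoint_left.1 hC0) hx h
    obtain ⟨⟨x0, hx0⟩⟩ := hconn.nonempty
    set c := (G.induce ((S0 : Set V)ᶜ)).connectedComponentMk ⟨x0, hout x0 hx0⟩ with hc
    have hsub : ∀ x ∈ C, x ∈ part G (S0 : Set V) c := by
      intro x hx
      refine ⟨⟨x, hout x hx⟩, ?_, rfl⟩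
      have hr := hconn.preconnected ⟨x, hx⟩ ⟨x0, hx0⟩
      have hr' := hr.map (SimpleGraph.induceHomOfLE G
        (show (C : Set V) ≤ ((S0 : Set V)ᶜ) from hout)).toHom
      exact SimpleGraph.ConnectedComponent.sound hr'
    have key := hT2 c (Finset.univ.filter (fun x => x.1 ∈ C)) ?_ ?_
    · have hcard : (Finset.univ.filter
          (fun x : ↥(part G (S0 : Set V) c) => x.1 ∈ C)).card = C.card := by
        apply Finset.card_bij (fun x _ => x.1)
        · intro x hx
          exact (Finset.mem_filter.1 hx).2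
        · intro x _ y _ hxy
          exact Subtype.ext hxy
        · intro x hx
          exact ⟨⟨x, hsub x hx⟩, Finset.mem_filter.2 ⟨Finset.mem_univ _, hx⟩, rfl⟩
      rw [hcard] at key
      exact key
    · rw [Finset.disjoint_left]
      intro x hx hx'
      apply Finset.disjoint_left.1 hC1 (Finset.mem_filter.1 hx).2
      rw [Finset.mem_biUnion]
      exact ⟨c, Finset.mem_univ _, Finset.mem_map.2 ⟨x, hx', rfl⟩⟩
    · refine SimpleGraph.Connected.map (G := G.induce (C : Set V))
        ⟨fun x => ⟨⟨x.1, hsub x.1 x.2⟩, ?_⟩, fun h => h⟩ ?_ hconn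
      · rw [Finset.mem_coe, Finset.mem_filter]
        exact ⟨Finset.mem_univ _, x.2⟩
      · rintro ⟨x, hx⟩
        rw [Finset.mem_coe, Finset.mem_filter] at hx
        exact ⟨⟨x.1, hx.2⟩, rfl⟩

theorem iter (a D : ℝ) (ha : 0 ≤ a) (m₀ : ℕ) (hD : (m₀ : ℝ) ≤ D)
    (hsep : ∀ (V : Type) [Fintype V] (G : SimpleGraph V), NoK5 G → m₀ ≤ Fintype.card V →
      ∃ S : Finset V, (S.card : ℝ) ≤ a * Fintype.card V ∧
        ∀ C : Finset V, Disjoint C S → (G.induce (C : Set V)).Connected →
          3 * C.card ≤ 2 * Fintype.card V) (j : ℕ) :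
    ∀ (V : Type) [Fintype V] (G : SimpleGraph V), NoK5 G →
      (Fintype.card V : ℝ) ≤ (3 / 2) ^ j * D →
      ∃ S : Finset V, (S.card : ℝ) ≤ j * a * Fintype.card V ∧
        ∀ C : Finset V, Disjoint C S → (G.induce (C : Set V)).Connected →
          (C.card : ℝ) ≤ D := by
  induction j with
  | zero =>
    intro V _ G _ hV
    rw [pow_zero, one_mul] at hV
    refine ⟨∅, by simp, fun C _ _ => ?_⟩
    have : (C.card : ℝ) ≤ Fintype.card V := by exact_mod_cast Finset.card_le_univ C
    linarith
  | succ j ih =>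
    intro V _ G hG hV
    by_cases hsmall : (Fintype.card V : ℝ) ≤ D
    · refine ⟨∅, ?_, fun C _ _ => ?_⟩
      · rw [Finset.card_empty, Nat.cast_zero]
        positivity
      · have : (C.card : ℝ) ≤ Fintype.card V := by exact_mod_cast Finset.card_le_univ C
        linarith
    · rw [not_le] at hsmall
      have hm : m₀ ≤ Fintype.card V := by
        have : (m₀ : ℝ) ≤ Fintype.card V := by linarith
        exact_mod_cast this
      obtain ⟨S0, hS0, hS0'⟩ := hsep V G hG hm
      obtain ⟨S, hS, hS'⟩ := step G S0 (j * a) D (by positivity) (by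
        intro W hW hconn
        apply ih (↥W) (G.induce W) (noK5_induce W hG)
        have h1 : 3 * (Finset.univ.filter (fun x => x ∈ W)).card ≤ 2 * Fintype.card V := by
          apply hS0'
          · rw [Finset.disjoint_left]
            intro x hx hx'
            exact Set.disjoint_left.1 hW (Finset.mem_filter.1 hx).2 hx'
          · have e : ((Finset.univ.filter (fun x => x ∈ W) : Finset V) : Set V) = W := by
              ext x
              simp
            rw [e]
            exact hconn
        have h2 : (Finset.univ.filter (fun x => x ∈ W)).card = Fintype.card ↥W := by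
          rw [Fintype.card_subtype]
        rw [h2] at h1
        have h3 : (3 : ℝ) * Fintype.card ↥W ≤ 2 * Fintype.card V := by exact_mod_cast h1
        have h4 : (3 / 2 : ℝ) ^ (j + 1) * D = (3 / 2) * ((3 / 2) ^ j * D) := by ring
        rw [h4] at hV
        linarith)
      refine ⟨S, ?_, hS'⟩
      push_cast
      nlinarith [hS, hS0]

end Fragment

open Fragment in
/-- Fragmentation. -/
theorem fragment (h : SeparatorStmt) : FragmentStmt := by
  intro δ hδ
  obtain ⟨j, hj⟩ := exists_pow_lt_of_lt_one hδ (show (2 / 3 : ℝ) < 1 by norm_num)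
  obtain ⟨m₀, hm₀⟩ := h (δ / (j + 1)) (by positivity)
  obtain ⟨n₀, hn₀⟩ := exists_nat_ge ((m₀ : ℝ) / δ)
  refine ⟨n₀, ?_⟩
  intro V _ G hG hV
  have hV' : (n₀ : ℝ) ≤ Fintype.card V := by exact_mod_cast hV
  have hD : (m₀ : ℝ) ≤ δ * Fintype.card V := by
    have : (m₀ : ℝ) / δ ≤ Fintype.card V := le_trans hn₀ hV'
    rw [div_le_iff₀ hδ] at this
    linarith
  have hcard0 : (0 : ℝ) ≤ Fintype.card V := by positivity
  obtain ⟨S, hS, hS'⟩ := iter (δ / (j + 1)) (δ * Fintype.card V) (by positivity) m₀ hD hm₀ j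
    V G hG (by
      have h1 : (3 / 2 : ℝ) ^ j * (2 / 3) ^ j = 1 := by
        rw [← mul_pow]
        norm_num
      have h2 : (1 : ℝ) ≤ (3 / 2) ^ j * δ := by
        rw [← h1]
        exact mul_le_mul_of_nonneg_left hj.le (by positivity)
      calc (Fintype.card V : ℝ) = 1 * Fintype.card V := by ring
        _ ≤ ((3 / 2) ^ j * δ) * Fintype.card V := mul_le_mul_of_nonneg_right h2 hcard0
        _ = (3 / 2) ^ j * (δ * Fintype.card V) := by ring)
  refine ⟨S, ?_, hS'⟩
  have h3 : (j : ℝ) * (δ / (j + 1)) ≤ δ := by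
    rw [mul_div_assoc']
    rw [div_le_iff₀ (by positivity)]
    nlinarith
  exact le_trans hS (mul_le_mul_of_nonneg_right h3 hcard0)

end Pool.Agent.Lib.MP_00ece3_co
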