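import Pool.Agent.Lib.MP_00ece3_co.Spec

/-!
# Orchard crossing numbers of planar graphs: the regular polygon
-/

namespace Pool.Agent.Lib.MP_00ece3_co

namespace Gon

theorem orient_circle (a b c : ℝ) :
    orient (Real.cos a, Real.sin a) (Real.cos b, Real.sin b) (Real.cos c, Real.sin c) =
      4 * Real.sin ((b - a) / 2) * Real.sin ((c - a) / 2) * Real.sin ((c - b) / 2) := by
  have e : (c - b) / 2 = (c + a) / 2 - (b + a) / 2 := by ring
  unfold orient
  simp only []
  rw [Real.cos_sub_cos b a, Real.sin_sub_sin c a, Real.sin_sub_sin b a, Real.cos_sub_cos c a, e,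
    Real.sin_sub]
  ring

theorem orient_circle_zero (a b : ℝ) :
    orient (Real.cos a, Real.sin a) (Real.cos b, Real.sin b) (0, 0) = Real.sin (b - a) := by
  unfold orient
  simp only []
  rw [Real.sin_sub]
  ring

theorem half_pos {N i j : ℕ} (hij : i < j) (hj : j < N) :
    0 < Real.sin ((2 * Real.pi * j / N - 2 * Real.pi * i / N) / 2) := by
  have hN : (0 : ℝ) < N := by
    have : 0 < N := by omega
    exact_mod_cast this
  have h1 : (i : ℝ) < j := by exact_mod_cast hij
  have h2 : (j : ℝ) < N := by exact_mod_cast hj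
  have h0 : (0 : ℝ) ≤ i := Nat.cast_nonneg i
  have hpi := Real.pi_pos
  have e : (2 * Real.pi * j / N - 2 * Real.pi * i / N) / 2 = Real.pi * ((j - i) / N) := by
    field_simp
  rw [e]
  apply Real.sin_pos_of_pos_of_lt_pi
  · exact mul_pos hpi (div_pos (by linarith) hN)
  · have : ((j : ℝ) - i) / N < 1 := by
      rw [div_lt_one hN]; linarith
    nlinarith

end Gon

open Gon in
/-- C. orientations in the regular polygon -/
theorem gon_pos : GonStmt := by
  intro N i j l hij hjl hl
  unfold gon
  rw [orient_circle]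
  have h1 := half_pos hij (by omega : j < N)
  have h2 := half_pos (by omega : i < l) hl
  have h3 := half_pos hjl hl
  positivity

open Gon in
/-- C'. the side of the centre -/
theorem gon_centre : GonCentreStmt := by
  intro N i j hij hj
  have hN : (0 : ℝ) < N := by
    have : 0 < N := by omega
    exact_mod_cast this
  have h1 : (i : ℝ) < j := by exact_mod_cast hij
  have h2 : (j : ℝ) < N := by exact_mod_cast hj
  have h0 : (0 : ℝ) ≤ i := Nat.cast_nonneg i
  have hpi := Real.pi_pos
  have e : 2 * Real.pi * (j : ℝ) / N - 2 * Real.pi * i / N = Real.pi * (2 * (j - i) / N) := by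
    field_simp
  unfold gon
  rw [orient_circle_zero, e]
  constructor
  · intro h
    have h' : 2 * ((j : ℝ) - i) < N := by
      have : (2 : ℝ) * ((j - i : ℕ) : ℝ) < N := by exact_mod_cast h
      rwa [Nat.cast_sub hij.le] at this
    apply Real.sin_pos_of_pos_of_lt_pi
    · exact mul_pos hpi (div_pos (by linarith) hN)
    · have : (2 * ((j : ℝ) - i)) / N < 1 := by
        rw [div_lt_one hN]; exact h'
      nlinarith
  · intro h
    have h' : (N : ℝ) < 2 * ((j : ℝ) - i) := by
      have : (N : ℝ) < (2 : ℝ) * ((j - i : ℕ) : ℝ) := by exact_mod_cast h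
      rwa [Nat.cast_sub hij.le] at this
    have e2 : Real.pi * (2 * ((j : ℝ) - i) / N) =
        Real.pi * (2 * ((j : ℝ) - i) / N) - 2 * Real.pi + 2 * Real.pi := by ring
    rw [e2, Real.sin_add_two_pi]
    apply Real.sin_neg_of_neg_of_neg_pi_lt
    · have : 2 * ((j : ℝ) - i) / N < 2 := by
        rw [div_lt_iff₀ hN]; linarith
      nlinarith
    · have : 1 < 2 * ((j : ℝ) - i) / N := by
        rw [lt_div_iff₀ hN]; linarith
      nlinarith

end Pool.Agent.Lib.MP_00ece3_co
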