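import Pool.Agent.Lib.MP_00ece3_co.Spec

/-!
# `K_{2,n-2}` is planar
-/

namespace Pool.Agent.Lib.MP_00ece3_co

namespace K2Aux

/-- A connected set without centre is a single vertex. -/
theorem subsingleton_of_no_centre {n : ℕ} {B : Set (Fin n)} (hc : ((K2 n).induce B).Connected)
    (hB : ∀ x ∈ B, 2 ≤ x.val) {x y : Fin n} (hx : x ∈ B) (hy : y ∈ B) : x = y := by
  by_contra hne
  have hnt : Nontrivial B := ⟨⟨⟨x, hx⟩, ⟨y, hy⟩, fun h => hne (congrArg Subtype.val h)⟩⟩
  obtain ⟨z, hz⟩ := hc.preconnected.exists_adj_of_nontrivial ⟨x, hx⟩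
  have h1 : (K2 n).Adj x z.val := hz
  have h2 := hB x hx
  have h3 := hB z.val z.2
  rcases h1 with h | h <;> omega

/-- Adjacent branch sets: one of them contains a centre. -/
theorem centre_of_adj {n : ℕ} {B B' : Set (Fin n)}
    (h : ∃ a ∈ B, ∃ b ∈ B', (K2 n).Adj a b) : (∃ x ∈ B, x.val < 2) ∨ (∃ x ∈ B', x.val < 2) := by
  obtain ⟨a, ha, b, hb, h | h⟩ := h
  · exact Or.inl ⟨a, ha, h.1⟩
  · exact Or.inr ⟨b, hb, h.1⟩

/-- At most two disjoint sets contain a centre. -/
theorem not_three {n : ℕ} {W : Type} {B : W → Set (Fin n)}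
    (hd : ∀ w w', w ≠ w' → Disjoint (B w) (B w')) {a b c : W} (hab : a ≠ b) (hac : a ≠ c)
    (hbc : b ≠ c) (ha : ∃ x ∈ B a, x.val < 2) (hb : ∃ x ∈ B b, x.val < 2)
    (hc : ∃ x ∈ B c, x.val < 2) : False := by
  obtain ⟨x, hx, hx2⟩ := ha
  obtain ⟨y, hy, hy2⟩ := hb
  obtain ⟨z, hz, hz2⟩ := hc
  have h1 : x.val ≠ y.val := fun h =>
    Set.disjoint_left.mp (hd a b hab) hx (by rw [Fin.ext h]; exact hy)
  have h2 : x.val ≠ z.val := fun h =>
    Set.disjoint_left.mp (hd a c hac) hx (by rw [Fin.ext h]; exact hz)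
  have h3 : y.val ≠ z.val := fun h =>
    Set.disjoint_left.mp (hd b c hbc) hy (by rw [Fin.ext h]; exact hz)
  omega

end K2Aux

open K2Aux in
theorem k2_planar : K2PlanarStmt := by
  intro n
  refine ⟨?_, ?_⟩
  · rintro ⟨B, -, hd, hadj⟩
    -- among branch sets 0,1,2,3 at least three contain a centre
    have h : ∀ i j : Fin 5, i ≠ j → (∃ x ∈ B i, x.val < 2) ∨ (∃ x ∈ B j, x.val < 2) :=
      fun i j hij => centre_of_adj (hadj i j hij)
    by_cases h0 : ∃ x ∈ B 0, x.val < 2
    · by_cases h1 : ∃ x ∈ B 1, x.val < 2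
      · rcases h 2 3 (by decide) with h2 | h3
        · exact not_three hd (by decide) (by decide) (by decide) h0 h1 h2
        · exact not_three hd (by decide) (by decide) (by decide) h0 h1 h3
      · have h2 := (h 1 2 (by decide)).resolve_left h1
        have h3 := (h 1 3 (by decide)).resolve_left h1
        exact not_three hd (by decide) (by decide) (by decide) h0 h2 h3
    · have h1 := (h 0 1 (by decide)).resolve_left h0
      have h2 := (h 0 2 (by decide)).resolve_left h0
      have h3 := (h 0 3 (by decide)).resolve_left h0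
      exact not_three hd (by decide) (by decide) (by decide) h1 h2 h3
  · rintro ⟨B, -, hd, hadj⟩
    have h : ∀ i j : Fin 3, (∃ x ∈ B (Sum.inl i), x.val < 2) ∨ (∃ x ∈ B (Sum.inr j), x.val < 2) :=
      fun i j => centre_of_adj (hadj _ _ (by simp))
    -- one of the two sides consists of three branch sets with a centre
    by_cases hL : ∀ i : Fin 3, ∃ x ∈ B (Sum.inl i), x.val < 2
    · exact not_three hd (by decide) (by decide) (by decide) (hL 0) (hL 1) (hL 2)
    · push Not at hL
      obtain ⟨i, hi⟩ := hL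
      have hR : ∀ j : Fin 3, ∃ x ∈ B (Sum.inr j), x.val < 2 := by
        intro j
        refine (h i j).resolve_left ?_
        rintro ⟨x, hx, hx2⟩
        have := hi x hx
        omega
      exact not_three hd (by decide) (by decide) (by decide) (hR 0) (hR 1) (hR 2)

end Pool.Agent.Lib.MP_00ece3_co
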