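import Pool.Agent.Lib.MP_00ece3_co.Spec

/-!
# The limit of `M(n)/n³`
-/

namespace Pool.Agent.Lib.MP_00ece3_co

open Filter Topology

theorem M_le_of_upper {n : ℕ} {B : ℝ} (hB : 0 ≤ B)
    (h : ∀ G : SimpleGraph (Fin n), Planar G → (OCN G : ℝ) ≤ B) : (M n : ℝ) ≤ B := by
  have h1 : M n ≤ ⌊B⌋₊ := by
    apply csSup_le'
    rintro c ⟨G, hG, rfl⟩
    exact Nat.le_floor (h G hG)
  exact (Nat.cast_le.mpr h1).trans (Nat.floor_le hB)

theorem limit (lo : LowerStmt) (up : UpperStmt) :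
    Tendsto (fun n : ℕ => (M n : ℝ) / (n : ℝ) ^ 3) atTop (𝓝 (1 / 4)) := by
  rw [Metric.tendsto_atTop]
  intro ε hε
  obtain ⟨n₀, hn₀⟩ := up (ε / 2) (by positivity)
  obtain ⟨n₁, hn₁⟩ := exists_nat_ge (10 / ε)
  refine ⟨max n₀ (max n₁ 5), fun n hn => ?_⟩
  have h0 : n₀ ≤ n := (le_max_left _ _).trans hn
  have h1 : n₁ ≤ n := ((le_max_left _ _).trans (le_max_right _ _)).trans hn
  have h5 : 5 ≤ n := ((le_max_right _ _).trans (le_max_right _ _)).trans hn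
  have hn5 : (5 : ℝ) ≤ n := by exact_mod_cast h5
  have hn3 : 0 < (n : ℝ) ^ 3 := by positivity
  have hup : (M n : ℝ) ≤ (1 / 4 + ε / 2) * (n : ℝ) ^ 3 :=
    M_le_of_upper (by positivity) (fun G hG => hn₀ n h0 G hG)
  have hlo := lo n h5
  have hloR : ((n : ℝ) - 2) * (n - 3) * (n - 5) ≤ 4 * M n := by
    have h : ((((n - 2) * (n - 3) * (n - 5) : ℕ)) : ℝ) ≤ ((4 * M n : ℕ) : ℝ) := by
      exact_mod_cast hlo
    push_cast [Nat.cast_sub (show 2 ≤ n by omega), Nat.cast_sub (show 3 ≤ n by omega),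
      Nat.cast_sub h5] at h
    exact h
  have hεn : 10 ≤ ε * n := by
    have h2 : 10 / ε ≤ n := hn₁.trans (by exact_mod_cast h1)
    rw [div_le_iff₀ hε] at h2
    linarith
  rw [Real.dist_eq, abs_lt]
  constructor
  · rw [lt_sub_iff_add_lt, lt_div_iff₀ hn3]
    have h6 : (n : ℝ) ^ 3 - 10 * (n : ℝ) ^ 2 ≤ ((n : ℝ) - 2) * (n - 3) * (n - 5) := by nlinarith
    have h7 : 10 * (n : ℝ) ^ 2 ≤ ε * (n : ℝ) ^ 3 := by
      have := mul_le_mul_of_nonneg_right hεn (by positivity : (0 : ℝ) ≤ (n : ℝ) ^ 2)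
      nlinarith
    nlinarith
  · rw [sub_lt_iff_lt_add, div_lt_iff₀ hn3]
    nlinarith

end Pool.Agent.Lib.MP_00ece3_co
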