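import Pool.Agent.Lib.MP_00ece3_co.Spec

/-!
# Ordering the vertices component by component
-/

namespace Pool.Agent.Lib.MP_00ece3_co

open Classical

theorem order : OrderStmt := by
  intro V _ G S D hD
  set H : SimpleGraph {x : V // x ∈ Sᶜ} := G.comap Subtype.val with hH
  let comp : {x : V // x ∈ Sᶜ} → ℕ := fun x =>
    (Fintype.equivFin H.ConnectedComponent (H.connectedComponentMk x)).val
  have hcomp : ∀ x y, comp x = comp y → H.Reachable x y := by
    intro x y hxy
    have h1 := (Fintype.equivFin H.ConnectedComponent).injective (Fin.ext hxy)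
    exact SimpleGraph.ConnectedComponent.exact h1
  have hcomp' : ∀ x y, H.Reachable x y → comp x = comp y := by
    intro x y hxy
    have : H.connectedComponentMk x = H.connectedComponentMk y :=
      SimpleGraph.ConnectedComponent.sound hxy
    simp only [comp, this]
  let e0 : Fin (Sᶜ.card) ≃ {x : V // x ∈ Sᶜ} := Sᶜ.equivFin.symm
  let σ : Equiv.Perm (Fin (Sᶜ.card)) := Tuple.sort (comp ∘ e0)
  have hmono : Monotone ((comp ∘ e0) ∘ σ) := Tuple.monotone_sort _
  refine ⟨σ.trans e0, ?_⟩
  intro i j hij hadj
  set e := σ.trans e0 with he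
  have hmono' : ∀ a b, a ≤ b → comp (e a) ≤ comp (e b) := fun a b hab => hmono hab
  have hadjH : H.Adj (e i) (e j) := by
    rw [hH, SimpleGraph.comap_adj]
    exact hadj
  have hcij : comp (e i) = comp (e j) := hcomp' _ _ hadjH.reachable
  set C : Finset V := Finset.univ.filter (fun x => ∃ h : x ∈ Sᶜ, comp ⟨x, h⟩ = comp (e i))
    with hC
  have hmemC : ∀ x : {x : V // x ∈ Sᶜ}, comp x = comp (e i) → x.1 ∈ C := by
    intro x hx
    rw [hC, Finset.mem_filter]
    exact ⟨Finset.mem_univ _, x.2, hx⟩
  have hCS : Disjoint C S := by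
    rw [Finset.disjoint_left]
    intro x hx hxS
    rw [hC, Finset.mem_filter] at hx
    obtain ⟨_, h, _⟩ := hx
    exact (Finset.mem_compl.1 h) hxS
  have hconn : (G.induce (C : Set V)).Connected := by
    apply SimpleGraph.induce_connected_of_patches (e i).1 (by exact_mod_cast hmemC (e i) rfl)
    intro v hv
    have hv' : v ∈ C := by exact_mod_cast hv
    rw [hC, Finset.mem_filter] at hv'
    obtain ⟨_, hvS, hvc⟩ := hv'
    obtain ⟨p⟩ := hcomp (e i) ⟨v, hvS⟩ hvc.symm
    let f : H →g G := ⟨Subtype.val, fun {a b} h => by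
      rw [hH, SimpleGraph.comap_adj] at h
      exact h⟩
    let q := p.map f
    have hq := q.connected_induce_support
    refine ⟨{x | x ∈ q.support}, ?_, SimpleGraph.Walk.start_mem_support q,
      SimpleGraph.Walk.end_mem_support q, hq.preconnected _ _⟩
    intro x hx
    have hx' : x ∈ (p.map f).support := hx
    rw [SimpleGraph.Walk.support_map, List.mem_map] at hx'
    obtain ⟨y, hy, rfl⟩ := hx'
    have : H.Reachable (e i) y := ⟨p.takeUntil y hy⟩
    exact_mod_cast hmemC y (hcomp' _ _ this).symm
  have hcard := hD C hCS hconn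
  have himg : (Finset.Icc i j).image (fun l => (e l).1) ⊆ C := by
    intro x hx
    rw [Finset.mem_image] at hx
    obtain ⟨l, hl, rfl⟩ := hx
    rw [Finset.mem_Icc] at hl
    apply hmemC
    have h1 := hmono' _ _ hl.1
    have h2 := hmono' _ _ hl.2
    omega
  have hc1 : ((Finset.Icc i j).image (fun l => (e l).1)).card = (Finset.Icc i j).card := by
    apply Finset.card_image_of_injective
    intro a b hab
    exact e.injective (Subtype.ext hab)
  have hc2 := Finset.card_le_card himg
  rw [hc1, Fin.card_Icc] at hc2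
  omega

end Pool.Agent.Lib.MP_00ece3_co
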