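import Pool.Agent.Lib.MP_00ece3_co.Spec

/-!
# Orchard crossing numbers of planar graphs: the placement
-/

namespace Pool.Agent.Lib.MP_00ece3_co

namespace Place

theorem orient_cyc (x y z : ℝ × ℝ) : orient x y z = orient y z x := by
  unfold orient; ring

theorem orient_swap (x y z : ℝ × ℝ) : orient x y z = - orient y x z := by
  unfold orient; ring

theorem orient_self (x z : ℝ × ℝ) : orient x x z = 0 := by
  unfold orient; ring

/-- outside of the arc -/
theorem orient_gon_pos (h1 : GonStmt) {N a b c : ℕ} (hab : a < b) (hb : b < N) (hc : c < N)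
    (h : c < a ∨ b < c) : 0 < orient (gon N a) (gon N b) (gon N c) := by
  rcases h with h | h
  · have := h1 N c a b h hab hb
    rwa [orient_cyc] at this
  · exact h1 N a b c hab h hc

/-- inside of the arc -/
theorem orient_gon_neg (h1 : GonStmt) {N a b c : ℕ} (hb : b < N)
    (h : a < c) (h' : c < b) : orient (gon N a) (gon N b) (gon N c) < 0 := by
  have := h1 N a c b h h' hb
  have e : orient (gon N a) (gon N b) (gon N c) = - orient (gon N a) (gon N c) (gon N b) := by
    unfold orient; ring
  rw [e]; linarith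

theorem orient_gon_ne (h1 : GonStmt) {N a b c : ℕ} (ha : a < N) (hb : b < N) (hc : c < N)
    (hab : a ≠ b) (hac : a ≠ c) (hbc : b ≠ c) : orient (gon N a) (gon N b) (gon N c) ≠ 0 := by
  rcases lt_or_gt_of_ne hab with h | h
  · by_cases h' : c < a ∨ b < c
    · exact (orient_gon_pos h1 h hb hc h').ne'
    · push Not at h'
      exact (orient_gon_neg h1 hb (by omega) (by omega)).ne
  · rw [orient_swap]
    apply neg_ne_zero.mpr
    by_cases h' : c < b ∨ a < c
    · exact (orient_gon_pos h1 h ha hc h').ne'
    · push Not at h'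
      exact (orient_gon_neg h1 ha (by omega) (by omega)).ne

theorem isPlacement_gon (h1 : GonStmt) (k : ℕ) :
    IsPlacement (fun i : Fin (2 * k + 1) => gon (2 * k + 1) i.val) := by
  refine ⟨?_, ?_⟩
  · intro a b hab
    by_contra hne
    have hne' : a.val ≠ b.val := fun h => hne (Fin.ext h)
    have ha := a.isLt
    have hb := b.isLt
    obtain ⟨c, hc, hac, hbc⟩ : ∃ c, c < 2 * k + 1 ∧ a.val ≠ c ∧ b.val ≠ c := by
      by_cases h0 : a.val ≠ 0 ∧ b.val ≠ 0
      · exact ⟨0, by omega, h0.1, h0.2⟩
      · by_cases h1' : a.val ≠ 1 ∧ b.val ≠ 1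
        · exact ⟨1, by omega, h1'.1, h1'.2⟩
        · exact ⟨2, by omega, by omega, by omega⟩
    have := orient_gon_ne h1 ha hb hc hne' hac hbc
    apply this
    have hab' : gon (2 * k + 1) a.val = gon (2 * k + 1) b.val := hab
    rw [hab', orient_self]
  · intro a b c hab hac hbc
    exact orient_gon_ne h1 a.isLt b.isLt c.isLt (fun h => hab (Fin.ext h))
      (fun h => hac (Fin.ext h)) (fun h => hbc (Fin.ext h))

theorem centre_ne (h2 : GonCentreStmt) (k : ℕ) (a b : Fin (2 * k + 1)) (hab : a ≠ b) :
    orient (gon (2 * k + 1) a.val) (gon (2 * k + 1) b.val) (0, 0) ≠ 0 := by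
  have hne' : a.val ≠ b.val := fun h => hab (Fin.ext h)
  rcases lt_or_gt_of_ne hne' with h | h
  · have := h2 (2 * k + 1) a.val b.val h b.isLt
    by_cases h' : 2 * (b.val - a.val) < 2 * k + 1
    · exact (this.1 h').ne'
    · exact (this.2 (by omega)).ne
  · rw [orient_swap]
    apply neg_ne_zero.mpr
    have := h2 (2 * k + 1) b.val a.val h a.isLt
    by_cases h' : 2 * (a.val - b.val) < 2 * k + 1
    · exact (this.1 h').ne'
    · exact (this.2 (by omega)).ne

/-- The pairs of vertices with one vertex in the second part. -/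
def mixed (N m : ℕ) : Finset (Sym2 (Fin N ⊕ Fin m)) :=
  (Finset.univ : Finset (Fin m × (Fin N ⊕ Fin m))).image fun x => s(Sum.inr x.1, x.2)

theorem card_mixed (N m : ℕ) : (mixed N m).card ≤ m * (N + m) := by
  refine Finset.card_image_le.trans ?_
  simp

theorem mem_mixed_left {N m : ℕ} (s : Fin m) (v : Fin N ⊕ Fin m) :
    s(Sum.inr s, v) ∈ mixed N m := by
  unfold mixed
  rw [Finset.mem_image]
  exact ⟨(s, v), Finset.mem_univ _, rfl⟩

theorem mem_mixed_right {N m : ℕ} (s : Fin m) (v : Fin N ⊕ Fin m) :
    s(v, Sum.inr s) ∈ mixed N m := by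
  rw [Sym2.eq_swap]
  exact mem_mixed_left s v

/-- `sepCount` is at most the number of mixed pairs plus the number of separating circle pairs. -/
theorem sepCount_le {N m : ℕ} (p : Fin N ⊕ Fin m → ℝ × ℝ) (x y : Fin N ⊕ Fin m)
    (B : Finset (Sym2 (Fin N ⊕ Fin m)))
    (hB : ∀ a b : Fin N, a < b → Sum.inl a ≠ x → Sum.inl a ≠ y → Sum.inl b ≠ x → Sum.inl b ≠ y →
      Separates p (Sum.inl a) (Sum.inl b) x y → s(Sum.inl a, Sum.inl b) ∈ B) :
    sepCount p x y ≤ B.card + m * (N + m) := by
  classical
  unfold sepCount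
  have hsub : {e : Sym2 (Fin N ⊕ Fin m) | ∃ a b, e = s(a, b) ∧ a ≠ b ∧ a ≠ x ∧ a ≠ y ∧ b ≠ x ∧
      b ≠ y ∧ Separates p a b x y} ⊆ ((B ∪ mixed N m : Finset _) : Set _) := by
    rintro e ⟨a, b, rfl, hab, hax, hay, hbx, hby, hs⟩
    rw [Finset.coe_union, Set.mem_union, Finset.mem_coe, Finset.mem_coe]
    rcases a with a | s
    · rcases b with b | s
      · left
        have hne : a ≠ b := fun h => hab (by rw [h])
        rcases lt_or_gt_of_ne hne with h | h
        · exact hB a b h hax hay hbx hby hs
        · rw [Sym2.eq_swap]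
          refine hB b a h hbx hby hax hay ?_
          unfold Separates at hs ⊢
          rw [orient_swap, orient_swap _ _ (p y)]
          linarith
      · right; exact mem_mixed_right s _
    · right; exact mem_mixed_left s _
  calc _ ≤ ((B ∪ mixed N m : Finset _) : Set (Sym2 (Fin N ⊕ Fin m))).ncard :=
        Set.ncard_le_ncard hsub (Finset.finite_toSet _)
    _ = (B ∪ mixed N m).card := Set.ncard_coe_finset _
    _ ≤ B.card + (mixed N m).card := Finset.card_union_le _ _
    _ ≤ B.card + m * (N + m) := Nat.add_le_add_left (card_mixed N m) _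

/-- the pairs `(i, j)` with `i, j ≥ 1`, `i + j ≤ k`. -/
def tri (k : ℕ) : Finset (ℕ × ℕ) :=
  ((Finset.Icc 1 k) ×ˢ (Finset.Icc 1 k)).filter fun x => x.1 + x.2 ≤ k

theorem card_tri (k : ℕ) : 2 * (tri k).card ≤ k * k := by
  classical
  have hinj : Set.InjOn (fun x : ℕ × ℕ => (k + 1 - x.1, k + 1 - x.2)) (tri k : Set (ℕ × ℕ)) := by
    rintro ⟨a, b⟩ h ⟨c, d⟩ h' e
    simp only [tri, Finset.coe_filter, Finset.mem_product, Finset.mem_Icc, Set.mem_ofPred_eq]
      at h h'
    simp only [Prod.mk.injEq] at e ⊢
    omega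
  have hdisj : Disjoint (tri k) ((tri k).image fun x : ℕ × ℕ => (k + 1 - x.1, k + 1 - x.2)) := by
    rw [Finset.disjoint_left]
    rintro ⟨a, b⟩ h h'
    rw [Finset.mem_image] at h'
    obtain ⟨⟨c, d⟩, h', e⟩ := h'
    simp only [tri, Finset.mem_filter, Finset.mem_product, Finset.mem_Icc] at h h'
    simp only [Prod.mk.injEq] at e
    omega
  have hsub : (tri k) ∪ ((tri k).image fun x : ℕ × ℕ => (k + 1 - x.1, k + 1 - x.2)) ⊆
      (Finset.Icc 1 k) ×ˢ (Finset.Icc 1 k) := by
    intro x hx
    rw [Finset.mem_union] at hx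
    rcases hx with hx | hx
    · exact (Finset.mem_filter.mp hx).1
    · rw [Finset.mem_image] at hx
      obtain ⟨⟨c, d⟩, h', rfl⟩ := hx
      simp only [tri, Finset.mem_filter, Finset.mem_product, Finset.mem_Icc] at h'
      simp only [Finset.mem_product, Finset.mem_Icc]
      omega
  have := Finset.card_le_card hsub
  rw [Finset.card_union_of_disjoint hdisj, Finset.card_image_of_injOn hinj,
    Finset.card_product, Nat.card_Icc] at this
  simp only [Nat.add_sub_cancel] at this
  omega

/-- The circle pairs separated from the centre, combinatorially. -/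
def cpairs (k : ℕ) (c : ℕ) : Finset (ℕ × ℕ) :=
  ((Finset.range (2 * k + 1)) ×ˢ (Finset.range (2 * k + 1))).filter fun x => x.1 < x.2 ∧
    ((2 * (x.2 - x.1) < 2 * k + 1 ∧ x.1 < c ∧ c < x.2) ∨
     (2 * k + 1 < 2 * (x.2 - x.1) ∧ (c < x.1 ∨ x.2 < c)))

theorem card_cpairs (k c : ℕ) (hc : c < 2 * k + 1) : 2 * (cpairs k c).card ≤ k * k := by
  classical
  refine le_trans ?_ (card_tri k)
  refine Nat.mul_le_mul_left 2 ?_
  refine Finset.card_le_card_of_injOn
    (fun x => if x.1 < c ∧ c < x.2 then (c - x.1, x.2 - c)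
      else if c < x.1 then (c + (2 * k + 1) - x.2, x.1 - c)
      else (c - x.2, x.1 + (2 * k + 1) - c)) ?_ ?_
  · rintro ⟨a, b⟩ h
    simp only [cpairs, Finset.coe_filter, Finset.mem_product, Finset.mem_range,
      Set.mem_ofPred_eq] at h
    simp only [tri, Finset.coe_filter, Finset.mem_product, Finset.mem_Icc, Set.mem_ofPred_eq]
    split_ifs <;> simp only [] <;> omega
  · rintro ⟨a, b⟩ h ⟨a', b'⟩ h' e
    simp only [cpairs, Finset.coe_filter, Finset.mem_product, Finset.mem_range,
      Set.mem_ofPred_eq] at h h'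
    simp only [] at e
    simp only [Prod.mk.injEq]
    split_ifs at e <;> simp only [Prod.mk.injEq] at e <;> omega

end Place

open Place in
/-- E. the placement -/
theorem place (h1 : GonStmt) (h2 : GonCentreStmt) (h3 : CentreStmt) : PlacementStmt := by
  classical
  intro k m
  obtain ⟨p, hp, hq, hs⟩ := h3 (2 * k + 1) m (fun i => gon (2 * k + 1) i.val)
    (isPlacement_gon h1 k) (centre_ne h2 k)
  refine ⟨p, hp, ?_, ?_⟩
  · intro c s
    have hcl := c.isLt
    set B : Finset (Sym2 (Fin (2 * k + 1) ⊕ Fin m)) :=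
      ((Finset.univ : Finset (Fin (2 * k + 1) × Fin (2 * k + 1))).filter
        (fun x => (x.1.val, x.2.val) ∈ cpairs k c.val)).image
        (fun x => s(Sum.inl x.1, Sum.inl x.2)) with hBdef
    have hBcard : B.card ≤ (cpairs k c.val).card := by
      rw [hBdef]
      refine Finset.card_image_le.trans ?_
      refine Finset.card_le_card_of_injOn
        (fun x : Fin (2 * k + 1) × Fin (2 * k + 1) => (x.1.val, x.2.val)) ?_ ?_
      · intro x hx
        exact (Finset.mem_filter.mp hx).2
      · rintro ⟨a, b⟩ - ⟨a', b'⟩ - e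
        simp only [Prod.mk.injEq] at e ⊢
        exact ⟨Fin.ext e.1, Fin.ext e.2⟩
    have hle := sepCount_le p (Sum.inr s) (Sum.inl c) B (by
      intro a b hab hax hay hbx hby hsep
      rw [hBdef, Finset.mem_image]
      refine ⟨(a, b), ?_, rfl⟩
      rw [Finset.mem_filter]
      refine ⟨Finset.mem_univ _, ?_⟩
      have hac : a.val ≠ c.val := fun h => hay (by rw [Fin.ext h])
      have hbc : b.val ≠ c.val := fun h => hby (by rw [Fin.ext h])
      have hab' : a.val < b.val := hab
      have hal := a.isLt
      have hbl := b.isLt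
      simp only [cpairs, Finset.mem_filter, Finset.mem_product, Finset.mem_range]
      refine ⟨⟨hal, hbl⟩, hab', ?_⟩
      unfold Separates at hsep
      have hss := hs a b s (ne_of_lt hab)
      rw [hq, hq, hq] at hsep
      by_cases hd : 2 * (b.val - a.val) < 2 * k + 1
      · left
        refine ⟨hd, ?_⟩
        by_contra hcon
        have hout : c.val < a.val ∨ b.val < c.val := by omega
        have hpos := orient_gon_pos h1 hab' hbl hcl hout
        have h0 := (h2 (2 * k + 1) a.val b.val hab' hbl).1 hd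
        have h0' := (pos_iff_pos_of_mul_pos hss).mp h0
        have := mul_pos h0' hpos
        linarith
      · right
        have hd' : 2 * k + 1 < 2 * (b.val - a.val) := by omega
        refine ⟨hd', ?_⟩
        by_contra hcon
        have hneg := orient_gon_neg h1 (c := c.val) hbl (a := a.val) (by omega) (by omega)
        have h0 := (h2 (2 * k + 1) a.val b.val hab' hbl).2 hd'
        have h0' := (neg_iff_neg_of_mul_pos hss).mp h0
        have := mul_pos_of_neg_of_neg h0' hneg
        linarith)
    have hcc := card_cpairs k c.val hcl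
    omega
  · intro c d hcd
    have hcd' : c.val < d.val := hcd
    have hcl := c.isLt
    have hdl := d.isLt
    set B : Finset (Sym2 (Fin (2 * k + 1) ⊕ Fin m)) :=
      ((Finset.Ioo c d) ×ˢ (Finset.univ : Finset (Fin (2 * k + 1)))).image
        (fun x => s(Sum.inl x.1, Sum.inl x.2)) with hBdef
    have hBcard : B.card ≤ (d.val - c.val) * (2 * k + 1 + m) := by
      rw [hBdef]
      refine Finset.card_image_le.trans ?_
      rw [Finset.card_product, Fin.card_Ioo, Finset.card_univ, Fintype.card_fin]
      exact Nat.mul_le_mul (by omega) (by omega)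
    have hle := sepCount_le p (Sum.inl c) (Sum.inl d) B (by
      intro a b hab hax hay hbx hby hsep
      have hac : a.val ≠ c.val := fun h => hax (by rw [Fin.ext h])
      have hbc : b.val ≠ c.val := fun h => hbx (by rw [Fin.ext h])
      have had : a.val ≠ d.val := fun h => hay (by rw [Fin.ext h])
      have hbd : b.val ≠ d.val := fun h => hby (by rw [Fin.ext h])
      have hab' : a.val < b.val := hab
      have hal := a.isLt
      have hbl := b.isLt
      rw [hBdef, Finset.mem_image]
      unfold Separates at hsep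
      rw [hq, hq, hq, hq] at hsep
      by_cases hA : c.val < a.val ∧ a.val < d.val
      · refine ⟨(a, b), ?_, rfl⟩
        rw [Finset.mem_product, Finset.mem_Ioo]
        exact ⟨⟨hA.1, hA.2⟩, Finset.mem_univ _⟩
      by_cases hB' : c.val < b.val ∧ b.val < d.val
      · refine ⟨(b, a), ?_, Sym2.eq_swap⟩
        rw [Finset.mem_product, Finset.mem_Ioo]
        exact ⟨⟨hB'.1, hB'.2⟩, Finset.mem_univ _⟩
      exfalso
      by_cases hin : a.val < c.val ∧ c.val < b.val
      · have h3' := orient_gon_neg h1 hbl hin.1 hin.2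
        have h4 := orient_gon_neg h1 hbl (a := a.val) (c := d.val) (by omega) (by omega)
        have := mul_pos_of_neg_of_neg h3' h4
        linarith
      · have h3' := orient_gon_pos h1 hab' hbl hcl (by omega)
        have h4 := orient_gon_pos h1 hab' hbl hdl (by omega)
        have := mul_pos h3' h4
        linarith)
    omega

end Pool.Agent.Lib.MP_00ece3_co
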