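import Pool.Agent.Lib.MP_00ece3_co.Spec

/-!
# Separators in graphs without `K₅` minor (Plotkin, Rao, Smith)
-/

namespace Pool.Agent.Lib.MP_00ece3_co

open Classical

namespace Sep

variable {V : Type} {G : SimpleGraph V}

/-- A connected finite vertex set. -/
def Conn (G : SimpleGraph V) (s : Finset V) : Prop := (G.induce (s : Set V)).Connected

lemma Conn.nonempty {s : Finset V} (h : Conn G s) : s.Nonempty := by
  obtain ⟨x, hx⟩ := SimpleGraph.Connected.nonempty h
  exact ⟨x, by simpa using hx⟩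

lemma conn_singleton (v : V) : Conn G {v} := by
  unfold Conn
  have : (((({v} : Finset V)) : Set V)) = {v} := by simp
  rw [this]
  apply SimpleGraph.induce_connected_of_patches v (by simp)
  intro w hw
  have hwv : w = v := by simpa using hw
  subst hwv
  exact ⟨{w}, le_rfl, by simp, by simp, SimpleGraph.Reachable.refl _⟩

lemma Conn.union {s t : Finset V} (hs : Conn G s) (ht : Conn G t) (h : (s ∩ t).Nonempty) :
    Conn G (s ∪ t) := by
  have := SimpleGraph.induce_union_connected (SimpleGraph.Connected.preconnected hs)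
    (SimpleGraph.Connected.preconnected ht) (by
      obtain ⟨x, hx⟩ := h
      rw [Finset.mem_inter] at hx
      exact ⟨x, by simpa using hx.1, by simpa using hx.2⟩)
  unfold Conn
  rw [Finset.coe_union]
  exact this

lemma Conn.union_adj {s t : Finset V} (hs : Conn G s) (ht : Conn G t) {a b : V}
    (ha : a ∈ s) (hb : b ∈ t) (hab : G.Adj a b) : Conn G (s ∪ t) := by
  have := SimpleGraph.connected_induce_union (SimpleGraph.Connected.preconnected hs)
    (SimpleGraph.Connected.preconnected ht) (Finset.mem_coe.2 ha) (Finset.mem_coe.2 hb) hab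
  unfold Conn
  rw [Finset.coe_union]
  exact this

/-- Balls in the graph induced on `B`. -/
noncomputable def ball (G : SimpleGraph V) (B : Finset V) (v : V) : ℕ → Finset V
  | 0 => {v}
  | r + 1 => ball G B v r ∪ B.filter (fun w => ∃ u ∈ ball G B v r, G.Adj u w)

lemma ball_subset {B : Finset V} {v : V} (hv : v ∈ B) (r : ℕ) : ball G B v r ⊆ B := by
  induction r with
  | zero => simpa [ball] using hv
  | succ r ih =>
    simp only [ball]
    exact Finset.union_subset ih (Finset.filter_subset _ _)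

lemma ball_succ {B : Finset V} {v : V} (r : ℕ) : ball G B v r ⊆ ball G B v (r + 1) := by
  simp only [ball]
  exact Finset.subset_union_left

lemma ball_mono {B : Finset V} {v : V} {r s : ℕ} (h : r ≤ s) : ball G B v r ⊆ ball G B v s := by
  induction h with
  | refl => exact le_rfl
  | step _ ih => exact ih.trans (ball_succ _)

lemma mem_ball_self {B : Finset V} {v : V} (r : ℕ) : v ∈ ball G B v r :=
  ball_mono (Nat.zero_le r) (by simp [ball])

lemma ball_adj {B : Finset V} {v u w : V} {r : ℕ} (hu : u ∈ ball G B v r) (hw : w ∈ B)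
    (h : G.Adj u w) : w ∈ ball G B v (r + 1) := by
  simp only [ball]
  exact Finset.mem_union_right _ (Finset.mem_filter.2 ⟨hw, u, hu, h⟩)

lemma ball_path {B : Finset V} {v : V} (r : ℕ) : ∀ w ∈ ball G B v r,
    ∃ P : Finset V, P ⊆ ball G B v r ∧ v ∈ P ∧ w ∈ P ∧ Conn G P ∧ P.card ≤ r + 1 := by
  induction r with
  | zero =>
    intro w hw
    have hwv : w = v := by simpa [ball] using hw
    subst hwv
    exact ⟨{w}, by simp [ball], by simp, by simp, conn_singleton w, by simp⟩
  | succ r ih =>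
    intro w hw
    simp only [ball] at hw
    rcases Finset.mem_union.1 hw with hw | hw
    · obtain ⟨P, h1, h2, h3, h4, h5⟩ := ih w hw
      exact ⟨P, h1.trans (ball_succ _), h2, h3, h4, by omega⟩
    · rw [Finset.mem_filter] at hw
      obtain ⟨hwB, u, hu, huw⟩ := hw
      obtain ⟨P, h1, h2, h3, h4, h5⟩ := ih u hu
      refine ⟨P ∪ {w}, ?_, Finset.mem_union_left _ h2, by simp,
        h4.union_adj (conn_singleton w) h3 (by simp) huw, ?_⟩
      · apply Finset.union_subset (h1.trans (ball_succ _))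
        simpa using ball_adj hu hwB huw
      · have := Finset.card_union_le P {w}
        simp only [Finset.card_singleton] at this
        omega

lemma card_le_four (hG : NoK5 G) (F : Finset (Finset V)) (hc : ∀ A ∈ F, Conn G A)
    (hd : ∀ A ∈ F, ∀ A' ∈ F, A ≠ A' → Disjoint A A' ∧ ∃ a ∈ A, ∃ b ∈ A', G.Adj a b) :
    F.card ≤ 4 := by
  by_contra hcon
  have h5 : 5 ≤ F.card := by omega
  obtain ⟨T, hT, hcard⟩ := Finset.exists_subset_card_eq h5
  let e := T.equivFinOfCardEq hcard
  apply hG
  have hmem : ∀ w, (e.symm w).1 ∈ F := fun w => hT (e.symm w).2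
  have hne : ∀ w w', w ≠ w' → (e.symm w).1 ≠ (e.symm w').1 := by
    intro w w' h h'
    exact h (e.symm.injective (Subtype.ext h'))
  refine ⟨fun w => (((e.symm w).1 : Finset V) : Set V), fun w => hc _ (hmem w), ?_, ?_⟩
  · intro w w' hww
    have := (hd _ (hmem w) _ (hmem w') (hne w w' hww)).1
    exact Finset.disjoint_coe.2 this
  · intro w w' hww
    have hww' : w ≠ w' := by simpa using hww
    obtain ⟨a, ha, b, hb, hab⟩ := (hd _ (hmem w) _ (hmem w') (hne w w' hww')).2
    exact ⟨a, by simpa using ha, b, by simpa using hb, hab⟩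

/-- growth of balls -/
lemma growth {B : Finset V} {v : V} (l L : ℕ)
    (h : ∀ r < L, (ball G B v r).card < l * (ball G B v (r + 1) \ ball G B v r).card) :
    ∀ r ≤ L, (l + 1) ^ r ≤ l ^ r * (ball G B v r).card := by
  intro r
  induction r with
  | zero => intro _; simp [ball]
  | succ r ih =>
    intro hr
    have h1 := ih (by omega)
    have h2 := h r (by omega)
    have h3 : (ball G B v (r + 1) \ ball G B v r).card + (ball G B v r).card
        = (ball G B v (r + 1)).card := Finset.card_sdiff_add_card_eq_card (ball_succ r)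
    have h4 : (l + 1) * (ball G B v r).card ≤ l * (ball G B v (r + 1)).card := by
      rw [← h3]
      nlinarith
    calc (l + 1) ^ (r + 1) = (l + 1) * (l + 1) ^ r := by ring
      _ ≤ (l + 1) * (l ^ r * (ball G B v r).card) := Nat.mul_le_mul_left _ h1
      _ = l ^ r * ((l + 1) * (ball G B v r).card) := by ring
      _ ≤ l ^ r * (l * (ball G B v (r + 1)).card) := Nat.mul_le_mul_left _ h4
      _ = l ^ (r + 1) * (ball G B v (r + 1)).card := by ring

variable [Fintype V]

/-- States of the search. -/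
structure St (G : SimpleGraph V) (l K : ℕ) (F : Finset (Finset V)) (X R : Finset V) : Prop where
  conn : ∀ A ∈ F, Conn G A
  size : ∀ A ∈ F, A.card ≤ K
  pair : ∀ A ∈ F, ∀ A' ∈ F, A ≠ A' → Disjoint A A' ∧ ∃ a ∈ A, ∃ b ∈ A', G.Adj a b
  dXR : Disjoint X R
  dX : ∀ A ∈ F, Disjoint A X
  dR : ∀ A ∈ F, Disjoint A R
  lX : l * X.card ≤ R.card
  cR : 3 * R.card ≤ 2 * Fintype.card V
  edge : ∀ x ∈ R, ∀ y, y ∉ X → y ∉ R → (∀ A ∈ F, y ∉ A) → ¬ G.Adj x y

/-- The rest. -/
noncomputable def rest (F : Finset (Finset V)) (X R : Finset V) : Finset V :=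
  Finset.univ.filter (fun y => y ∉ X ∧ y ∉ R ∧ ∀ A ∈ F, y ∉ A)

lemma mem_rest {F : Finset (Finset V)} {X R : Finset V} {y : V} :
    y ∈ rest F X R ↔ y ∉ X ∧ y ∉ R ∧ ∀ A ∈ F, y ∉ A := by simp [rest]

lemma card_add_le {S B : Finset V} (h : Disjoint S B) : S.card + B.card ≤ Fintype.card V := by
  rw [← Finset.card_union_of_disjoint h]
  exact Finset.card_le_univ _

lemma stepA {l K : ℕ} {F : Finset (Finset V)} {X R : Finset V} (h : St G l K F X R)
    (hB : 2 * Fintype.card V < 3 * (rest F X R).card) (A : Finset V) (hA : A ∈ F)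
    (hAB : ∀ a ∈ A, ∀ y ∈ rest F X R, ¬ G.Adj a y) :
    ∃ F' X' R', St G l K F' X' R' ∧
      5 * (X.card + R.card) + F.card < 5 * (X'.card + R'.card) + F'.card := by
  have hRA : (R ∪ A).card = R.card + A.card :=
    Finset.card_union_of_disjoint (h.dR A hA).symm
  have hApos : 0 < A.card := Finset.card_pos.2 (h.conn A hA).nonempty
  have hdis : Disjoint (R ∪ A) (rest F X R) := by
    rw [Finset.disjoint_left]
    intro x hx hx'
    rw [mem_rest] at hx'
    rcases Finset.mem_union.1 hx with hx | hx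
    · exact hx'.2.1 hx
    · exact hx'.2.2 A hA hx
  have hle := card_add_le hdis
  refine ⟨F.erase A, X, R ∪ A, ?_, ?_⟩
  · refine ⟨?_, ?_, ?_, ?_, ?_, ?_, ?_, ?_, ?_⟩
    · intro A' hA'
      exact h.conn A' (Finset.mem_of_mem_erase hA')
    · intro A' hA'
      exact h.size A' (Finset.mem_of_mem_erase hA')
    · intro A1 h1 A2 h2 h12
      exact h.pair A1 (Finset.mem_of_mem_erase h1) A2 (Finset.mem_of_mem_erase h2) h12
    · rw [Finset.disjoint_union_right]
      exact ⟨h.dXR, (h.dX A hA).symm⟩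
    · intro A' hA'
      exact h.dX A' (Finset.mem_of_mem_erase hA')
    · intro A' hA'
      rw [Finset.disjoint_union_right]
      exact ⟨h.dR A' (Finset.mem_of_mem_erase hA'),
        (h.pair A' (Finset.mem_of_mem_erase hA') A hA (Finset.ne_of_mem_erase hA')).1⟩
    · have := h.lX
      omega
    · omega
    · intro x hx y hyX hyR hyF
      rw [Finset.mem_union, not_or] at hyR
      have hy : y ∈ rest F X R := by
        rw [mem_rest]
        refine ⟨hyX, hyR.1, ?_⟩
        intro A' hA'
        by_cases hAA : A' = A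
        · rw [hAA]; exact hyR.2
        · exact hyF A' (Finset.mem_erase.2 ⟨hAA, hA'⟩)
      rcases Finset.mem_union.1 hx with hx | hx
      · rw [mem_rest] at hy
        exact h.edge x hx y hy.1 hy.2.1 hy.2.2
      · exact hAB x hx y hy
  · have h1 : (F.erase A).card = F.card - 1 := Finset.card_erase_of_mem hA
    have h2 : 0 < F.card := Finset.card_pos.2 ⟨A, hA⟩
    omega

/-- adding a new branch set -/
lemma stepT {l K : ℕ} {F : Finset (Finset V)} {X R : Finset V} (h : St G l K F X R)
    (T : Finset V) (hT : Conn G T) (hTK : T.card ≤ K) (hTB : T ⊆ rest F X R)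
    (hadj : ∀ A ∈ F, ∃ a ∈ A, ∃ b ∈ T, G.Adj a b) :
    ∃ F' X' R', St G l K F' X' R' ∧
      5 * (X.card + R.card) + F.card < 5 * (X'.card + R'.card) + F'.card := by
  obtain ⟨t, ht⟩ := hT.nonempty
  have hdF : ∀ A ∈ F, Disjoint A T := by
    intro A hA
    rw [Finset.disjoint_left]
    intro x hx hx'
    exact (mem_rest.1 (hTB hx')).2.2 A hA hx
  have hTF : T ∉ F := fun hTF => (mem_rest.1 (hTB ht)).2.2 T hTF ht
  refine ⟨insert T F, X, R, ?_, ?_⟩
  · refine ⟨?_, ?_, ?_, h.dXR, ?_, ?_, h.lX, h.cR, ?_⟩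
    · intro A hA
      rcases Finset.mem_insert.1 hA with rfl | hA
      · exact hT
      · exact h.conn A hA
    · intro A hA
      rcases Finset.mem_insert.1 hA with rfl | hA
      · exact hTK
      · exact h.size A hA
    · intro A1 h1 A2 h2 h12
      rcases Finset.mem_insert.1 h1 with k1 | k1 <;> rcases Finset.mem_insert.1 h2 with k2 | k2
      · exact absurd (k1.trans k2.symm) h12
      · subst k1
        refine ⟨(hdF A2 k2).symm, ?_⟩
        obtain ⟨a, ha, b, hb, hab⟩ := hadj A2 k2
        exact ⟨b, hb, a, ha, hab.symm⟩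
      · subst k2
        exact ⟨hdF A1 k1, hadj A1 k1⟩
      · exact h.pair A1 k1 A2 k2 h12
    · intro A hA
      rcases Finset.mem_insert.1 hA with rfl | hA
      · rw [Finset.disjoint_left]
        intro x hx hx'
        exact (mem_rest.1 (hTB hx)).1 hx'
      · exact h.dX A hA
    · intro A hA
      rcases Finset.mem_insert.1 hA with rfl | hA
      · rw [Finset.disjoint_left]
        intro x hx hx'
        exact (mem_rest.1 (hTB hx)).2.1 hx'
      · exact h.dR A hA
    · intro x hx y hyX hyR hyF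
      exact h.edge x hx y hyX hyR (fun A hA => hyF A (Finset.mem_insert_of_mem hA))
  · rw [Finset.card_insert_of_notMem hTF]
    omega

/-- cutting off a small ball -/
lemma stepBall {l K : ℕ} {F : Finset (Finset V)} {X R : Finset V} (h : St G l K F X R)
    (hB : 2 * Fintype.card V < 3 * (rest F X R).card) (L : ℕ)
    (hL : Fintype.card V * l ^ L < (l + 1) ^ L) (v : V) (hv : v ∈ rest F X R)
    (hsmall : 2 * (ball G (rest F X R) v L).card ≤ (rest F X R).card) :
    ∃ F' X' R', St G l K F' X' R' ∧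
      5 * (X.card + R.card) + F.card < 5 * (X'.card + R'.card) + F'.card := by
  set B := rest F X R with hBdef
  have hex : ∃ r < L, l * (ball G B v (r + 1) \ ball G B v r).card ≤ (ball G B v r).card := by
    by_contra hcon
    push Not at hcon
    have h1 := growth l L hcon L le_rfl
    have h2 : (ball G B v L).card ≤ Fintype.card V := Finset.card_le_univ _
    have h3 : l ^ L * (ball G B v L).card ≤ l ^ L * Fintype.card V := Nat.mul_le_mul_left _ h2
    rw [Nat.mul_comm (Fintype.card V)] at hL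
    omega
  obtain ⟨r, hrL, hr⟩ := hex
  set b0 := ball G B v r with hb0
  set b1 := ball G B v (r + 1) with hb1
  have hb0B : b0 ⊆ B := ball_subset hv r
  have hb1B : b1 ⊆ B := ball_subset hv (r + 1)
  have hb01 : b0 ⊆ b1 := ball_succ r
  have hvb : v ∈ b0 := mem_ball_self r
  have hb0c : 2 * b0.card ≤ B.card := by
    have : b0.card ≤ (ball G B v L).card := Finset.card_le_card (ball_mono (by omega))
    omega
  have hRB : Disjoint R B := by
    rw [Finset.disjoint_left]
    intro x hx hx'
    exact (mem_rest.1 hx').2.1 hx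
  have hXB : Disjoint X B := by
    rw [Finset.disjoint_left]
    intro x hx hx'
    exact (mem_rest.1 hx').1 hx
  have hFB : ∀ A ∈ F, Disjoint A B := by
    intro A hA
    rw [Finset.disjoint_left]
    intro x hx hx'
    exact (mem_rest.1 hx').2.2 A hA hx
  have hRb : (R ∪ b0).card = R.card + b0.card :=
    Finset.card_union_of_disjoint (hRB.mono_right hb0B)
  have hsd : b1 \ b0 ⊆ B := Finset.sdiff_subset.trans hb1B
  have hXb : (X ∪ (b1 \ b0)).card = X.card + (b1 \ b0).card :=
    Finset.card_union_of_disjoint (hXB.mono_right hsd)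
  have hbpos : 0 < b0.card := Finset.card_pos.2 ⟨v, hvb⟩
  have hle := card_add_le hRB
  refine ⟨F, X ∪ (b1 \ b0), R ∪ b0, ?_, ?_⟩
  · refine ⟨h.conn, h.size, h.pair, ?_, ?_, ?_, ?_, ?_, ?_⟩
    · rw [Finset.disjoint_union_right, Finset.disjoint_union_left, Finset.disjoint_union_left]
      exact ⟨⟨h.dXR, (hRB.mono_right hsd).symm⟩, hXB.mono_right hb0B, Finset.sdiff_disjoint⟩
    · intro A hA
      rw [Finset.disjoint_union_right]
      exact ⟨h.dX A hA, (hFB A hA).mono_right hsd⟩
    · intro A hA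
      rw [Finset.disjoint_union_right]
      exact ⟨h.dR A hA, (hFB A hA).mono_right hb0B⟩
    · rw [hRb, hXb, Nat.mul_add]
      exact Nat.add_le_add h.lX hr
    · rw [hRb]
      omega
    · intro x hx y hyX hyR hyF
      rw [Finset.mem_union, not_or] at hyR hyX
      have hy : y ∈ B := mem_rest.2 ⟨hyX.1, hyR.1, hyF⟩
      rcases Finset.mem_union.1 hx with hx | hx
      · exact h.edge x hx y hyX.1 hyR.1 hyF
      · intro hadj
        have : y ∈ b1 := ball_adj hx hy hadj
        exact hyX.2 (Finset.mem_sdiff.2 ⟨this, hyR.2⟩)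
  · rw [hRb, hXb]
    omega

lemma improve (hG : NoK5 G) {l K L : ℕ} {F : Finset (Finset V)} {X R : Finset V}
    (h : St G l K F X R)
    (hB : 2 * Fintype.card V < 3 * (rest F X R).card)
    (hL : Fintype.card V * l ^ L < (l + 1) ^ L) (hK : 8 * L + 9 ≤ K) :
    ∃ F' X' R', St G l K F' X' R' ∧
      5 * (X.card + R.card) + F.card < 5 * (X'.card + R'.card) + F'.card := by
  by_cases hA : ∃ A ∈ F, ∀ a ∈ A, ∀ y ∈ rest F X R, ¬ G.Adj a y
  · obtain ⟨A, hA, hAB⟩ := hA
    exact stepA h hB A hA hAB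
  push Not at hA
  have hF4 : F.card ≤ 4 := card_le_four hG F h.conn h.pair
  by_cases hF : F = ∅
  · have hpos : 0 < (rest F X R).card := by omega
    obtain ⟨b, hb⟩ := Finset.card_pos.1 hpos
    refine stepT h {b} (conn_singleton b) (by simp; omega) (by simpa using hb) ?_
    intro A hA'
    rw [hF] at hA'
    simp at hA'
  obtain ⟨A0, hA0⟩ := Finset.nonempty_iff_ne_empty.2 hF
  have : Nonempty V := ⟨(h.conn A0 hA0).nonempty.choose⟩
  choose! f hfA g hgB hfg using hA
  by_cases hall : ∀ A ∈ F, (ball G (rest F X R) (g A0) L ∩ ball G (rest F X R) (g A) L).Nonempty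
  · -- add a new branch set
    have hP : ∀ A ∈ F, ∃ P : Finset V, P ⊆ rest F X R ∧ g A0 ∈ P ∧ g A ∈ P ∧ Conn G P ∧
        P.card ≤ 2 * L + 2 := by
      intro A hA
      obtain ⟨u, hu⟩ := hall A hA
      rw [Finset.mem_inter] at hu
      obtain ⟨P, h1, h2, h3, h4, h5⟩ := ball_path L u hu.1
      obtain ⟨Q, k1, k2, k3, k4, k5⟩ := ball_path L u hu.2
      refine ⟨P ∪ Q, Finset.union_subset (h1.trans (ball_subset (hgB A0 hA0) L))
        (k1.trans (ball_subset (hgB A hA) L)), Finset.mem_union_left _ h2,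
        Finset.mem_union_right _ k2, h4.union k4 ⟨u, Finset.mem_inter.2 ⟨h3, k3⟩⟩, ?_⟩
      have := Finset.card_union_le P Q
      omega
    choose! P hPB hP0 hPg hPc hPs using hP
    refine stepT h (F.biUnion P) ?_ ?_ ?_ ?_
    · have := SimpleGraph.induce_sUnion_connected_of_pairwise_not_disjoint
        (G := G) (S := {s | ∃ A ∈ F, s = ((P A : Finset V) : Set V)})
        ⟨_, A0, hA0, rfl⟩ (by
          rintro s t ⟨A, hA, rfl⟩ ⟨A', hA', rfl⟩
          exact ⟨g A0, by simpa using hP0 A hA, by simpa using hP0 A' hA'⟩) (by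
          rintro s ⟨A, hA, rfl⟩
          exact hPc A hA)
      unfold Conn
      have heq : ((F.biUnion P : Finset V) : Set V)
          = ⋃₀ {s | ∃ A ∈ F, s = ((P A : Finset V) : Set V)} := by
        ext x
        simp only [Finset.coe_biUnion, Finset.mem_coe, Set.mem_iUnion, Set.mem_sUnion,
          Set.mem_ofPred_eq, exists_prop]
        constructor
        · rintro ⟨A, hA, hx⟩
          exact ⟨_, ⟨A, hA, rfl⟩, by simpa using hx⟩
        · rintro ⟨s, ⟨A, hA, rfl⟩, hx⟩
          exact ⟨A, hA, by simpa using hx⟩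
      rw [heq]
      exact this
    · have h1 : (F.biUnion P).card ≤ F.card * (2 * L + 2) :=
        Finset.card_biUnion_le_card_mul _ _ _ hPs
      have h2 : F.card * (2 * L + 2) ≤ 4 * (2 * L + 2) := Nat.mul_le_mul_right _ hF4
      omega
    · intro x hx
      rw [Finset.mem_biUnion] at hx
      obtain ⟨A, hA, hx⟩ := hx
      exact hPB A hA hx
    · intro A hA
      exact ⟨f A, hfA A hA, g A, Finset.mem_biUnion.2 ⟨A, hA, hPg A hA⟩, hfg A hA⟩
  · push Not at hall
    obtain ⟨A, hA, hdis⟩ := hall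
    have hd : Disjoint (ball G (rest F X R) (g A0) L) (ball G (rest F X R) (g A) L) := by
      rw [Finset.disjoint_iff_inter_eq_empty]
      exact hdis
    have hsum : (ball G (rest F X R) (g A0) L).card + (ball G (rest F X R) (g A) L).card
        ≤ (rest F X R).card := by
      rw [← Finset.card_union_of_disjoint hd]
      exact Finset.card_le_card (Finset.union_subset (ball_subset (hgB A0 hA0) L)
        (ball_subset (hgB A hA) L))
    by_cases hsm : 2 * (ball G (rest F X R) (g A0) L).card ≤ (rest F X R).card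
    · exact stepBall h hB L hL _ (hgB A0 hA0) hsm
    · exact stepBall h hB L hL _ (hgB A hA) (by omega)

lemma exists_good (hG : NoK5 G) {l K L : ℕ}
    (hL : Fintype.card V * l ^ L < (l + 1) ^ L) (hK : 8 * L + 9 ≤ K) :
    ∃ F X R, St G l K F X R ∧ 3 * (rest F X R).card ≤ 2 * Fintype.card V := by
  have h0 : St G l K ∅ ∅ ∅ := by
    refine ⟨?_, ?_, ?_, ?_, ?_, ?_, ?_, ?_, ?_⟩ <;> simp
  have hne : (Finset.univ.filter
      (fun s : Finset (Finset V) × Finset V × Finset V => St G l K s.1 s.2.1 s.2.2)).Nonempty :=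
    ⟨(∅, ∅, ∅), by simpa using h0⟩
  obtain ⟨⟨F, X, R⟩, hmem, hmax⟩ := Finset.exists_max_image _
    (fun s : Finset (Finset V) × Finset V × Finset V =>
      5 * (s.2.1.card + s.2.2.card) + s.1.card) hne
  have hst : St G l K F X R := by simpa using hmem
  refine ⟨F, X, R, hst, ?_⟩
  by_contra hcon
  obtain ⟨F', X', R', h', hlt⟩ := improve hG hst (by omega) hL hK
  have := hmax (F', X', R') (by simpa using h')
  simp only at this
  omega

lemma sep_of_params (hG : NoK5 G) {l K L : ℕ}
    (hL : Fintype.card V * l ^ L < (l + 1) ^ L) (hK : 8 * L + 9 ≤ K) :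
    ∃ S : Finset V, l * S.card ≤ Fintype.card V + l * (4 * K) ∧
      ∀ C : Finset V, Disjoint C S → (G.induce (C : Set V)).Connected →
        3 * C.card ≤ 2 * Fintype.card V := by
  obtain ⟨F, X, R, h, hB⟩ := exists_good hG hL hK
  refine ⟨X ∪ F.biUnion id, ?_, ?_⟩
  · have h1 : (X ∪ F.biUnion id).card ≤ X.card + (F.biUnion id).card := Finset.card_union_le _ _
    have h2 : (F.biUnion id).card ≤ F.card * K := Finset.card_biUnion_le_card_mul _ _ _ h.size
    have h3 : F.card * K ≤ 4 * K := Nat.mul_le_mul_right _ (card_le_four hG F h.conn h.pair)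
    have h4 : l * (X ∪ F.biUnion id).card ≤ l * (X.card + 4 * K) :=
      Nat.mul_le_mul_left _ (by omega)
    have h5 := h.lX
    have h6 : R.card ≤ Fintype.card V := Finset.card_le_univ _
    rw [Nat.mul_add] at h4
    omega
  · intro C hC hconn
    have hCsub : ∀ x ∈ C, x ∈ R ∨ x ∈ rest F X R := by
      intro x hx
      have hx' := Finset.disjoint_left.1 hC hx
      rw [Finset.mem_union, not_or, Finset.mem_biUnion] at hx'
      by_cases hxR : x ∈ R
      · exact Or.inl hxR
      · refine Or.inr (mem_rest.2 ⟨hx'.1, hxR, ?_⟩)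
        intro A hA hxA
        exact hx'.2 ⟨A, hA, hxA⟩
    by_cases hCR : C ⊆ R
    · have := Finset.card_le_card hCR
      have := h.cR
      omega
    by_cases hCB : C ⊆ rest F X R
    · have := Finset.card_le_card hCB
      omega
    exfalso
    rw [Finset.not_subset] at hCR hCB
    obtain ⟨y, hyC, hyR⟩ := hCR
    obtain ⟨x, hxC, hxB⟩ := hCB
    have hxR : x ∈ R := (hCsub x hxC).resolve_right hxB
    obtain ⟨p⟩ := hconn.preconnected ⟨x, by simpa using hxC⟩ ⟨y, by simpa using hyC⟩
    obtain ⟨d, -, hd1, hd2⟩ := p.exists_boundary_dart {z | z.1 ∈ R} hxR hyR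
    have hadj : G.Adj d.fst.1 d.snd.1 := by
      have := d.adj
      simpa using this
    have hs : d.snd.1 ∈ rest F X R := by
      have hsC : d.snd.1 ∈ C := by simpa using d.snd.2
      exact (hCsub _ hsC).resolve_left hd2
    rw [mem_rest] at hs
    exact h.edge _ hd1 _ hs.1 hs.2.1 hs.2.2 hadj

end Sep

theorem separator : SeparatorStmt := by
  intro δ hδ
  set l : ℕ := ⌈2 / δ⌉₊ with hl
  have hlpos : 0 < l := Nat.ceil_pos.2 (by positivity)
  have hlR : (0 : ℝ) < l := by exact_mod_cast hlpos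
  have hl2 : 2 / δ ≤ l := Nat.le_ceil _
  have hl3 : 2 ≤ δ * l := by
    rw [div_le_iff₀ hδ] at hl2
    linarith
  set r : ℝ := ((l : ℝ) + 1) / l with hr
  have hr1 : 1 < r := by
    rw [hr, lt_div_iff₀ hlR]
    linarith
  have hlim := tendsto_pow_const_div_const_pow_of_one_lt 1 hr1
  have hev := hlim.eventually (gt_mem_nhds (show (0 : ℝ) < δ / 256 by positivity))
  rw [Filter.eventually_atTop] at hev
  obtain ⟨L0, hL0⟩ := hev
  refine ⟨max ⌈144 / δ⌉₊ ⌈((L0 : ℝ) + 2) * 128 / δ⌉₊, ?_⟩
  intro V _ G hG hm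
  set m := Fintype.card V with hmdef
  have hm1 : 144 / δ ≤ m := by
    have h1 : ⌈144 / δ⌉₊ ≤ m := (le_max_left _ _).trans hm
    exact (Nat.le_ceil _).trans (by exact_mod_cast h1)
  have hm2 : ((L0 : ℝ) + 2) * 128 / δ ≤ m := by
    have h1 : ⌈((L0 : ℝ) + 2) * 128 / δ⌉₊ ≤ m := (le_max_right _ _).trans hm
    exact (Nat.le_ceil _).trans (by exact_mod_cast h1)
  rw [div_le_iff₀ hδ] at hm1 hm2
  have hmpos : (0 : ℝ) < m := by
    by_contra hcon
    push Not at hcon
    nlinarith
  set L : ℕ := ⌊δ * m / 128⌋₊ with hLdef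
  have hL1 : (L : ℝ) ≤ δ * m / 128 := Nat.floor_le (by positivity)
  have hL2 : δ * m / 128 < (L : ℝ) + 1 := Nat.lt_floor_add_one _
  have hLL0 : (L0 : ℝ) + 1 < L := by linarith
  have hLge : L0 ≤ L := by
    have : (L0 : ℝ) ≤ L := by linarith
    exact_mod_cast this
  have hL0R : (0 : ℝ) ≤ L0 := Nat.cast_nonneg _
  have hrL : 0 < r ^ L := by positivity
  have h1 := hL0 L hLge
  rw [pow_one, div_lt_iff₀ hrL] at h1
  have hkey : (m : ℝ) < r ^ L := by
    have h2 : δ * m < 256 * L := by linarith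
    have h3 : 256 * (L : ℝ) < δ * r ^ L := by linarith
    have h4 : δ * m < δ * r ^ L := h2.trans h3
    exact lt_of_mul_lt_mul_left h4 hδ.le
  have hkeyN : m * l ^ L < (l + 1) ^ L := by
    have h2 : r ^ L = ((l : ℝ) + 1) ^ L / (l : ℝ) ^ L := by rw [hr, div_pow]
    rw [h2, lt_div_iff₀ (by positivity)] at hkey
    exact_mod_cast hkey
  obtain ⟨S, hS1, hS2⟩ := Sep.sep_of_params hG (l := l) (K := 8 * L + 9) hkeyN le_rfl
  refine ⟨S, ?_, hS2⟩
  have h5 : (l : ℝ) * S.card ≤ m + l * (4 * (8 * L + 9)) := by exact_mod_cast hS1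
  have h6 : (m : ℝ) ≤ δ * l * m / 2 := by nlinarith
  have h7 : (4 * (8 * (L : ℝ) + 9)) ≤ δ * m / 2 := by linarith
  have h8 : (l : ℝ) * (4 * (8 * (L : ℝ) + 9)) ≤ l * (δ * m / 2) :=
    mul_le_mul_of_nonneg_left h7 hlR.le
  have h9 : (l : ℝ) * S.card ≤ l * (δ * m) := by
    calc (l : ℝ) * S.card ≤ m + l * (4 * (8 * L + 9)) := h5
      _ ≤ δ * l * m / 2 + l * (δ * m / 2) := by linarith
      _ = l * (δ * m) := by ring
  exact le_of_mul_le_mul_left h9 hlR

end Pool.Agent.Lib.MP_00ece3_co
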