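import Pool.Agent.Lib.MP_00ece3_co.Spec

/-!
# Upper bound for the orchard crossing numbers of planar graphs
-/

namespace Pool.Agent.Lib.MP_00ece3_co

namespace Upper

open Classical

theorem orient_swap (x y z : ℝ × ℝ) : orient y x z = -orient x y z := by
  unfold orient
  ring

theorem separates_comm {V : Type} (p : V → ℝ × ℝ) (a b x y : V) :
    Separates p a b x y ↔ Separates p a b y x := by
  unfold Separates
  rw [mul_comm]

theorem sepCount_comm {V : Type} (p : V → ℝ × ℝ) (x y : V) : sepCount p x y = sepCount p y x := by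
  unfold sepCount
  congr 1
  ext e
  constructor
  · rintro ⟨a, b, h1, h2, h3, h4, h5, h6, h7⟩
    exact ⟨a, b, h1, h2, h4, h3, h6, h5, (separates_comm p a b x y).mp h7⟩
  · rintro ⟨a, b, h1, h2, h3, h4, h5, h6, h7⟩
    exact ⟨a, b, h1, h2, h4, h3, h6, h5, (separates_comm p a b y x).mp h7⟩

theorem isPlacement_comp {V W : Type} (P : W → ℝ × ℝ) (E : W ≃ V) (h : IsPlacement P) :
    IsPlacement (P ∘ E.symm) := by
  refine ⟨h.1.comp E.symm.injective, fun a b c hab hac hbc => ?_⟩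
  exact h.2 _ _ _ (fun h => hab (E.symm.injective h)) (fun h => hac (E.symm.injective h))
    (fun h => hbc (E.symm.injective h))

theorem sepCount_comp {V W : Type} (P : W → ℝ × ℝ) (E : W ≃ V) (x y : W) :
    sepCount (P ∘ E.symm) (E x) (E y) = sepCount P x y := by
  unfold sepCount
  rw [← Set.ncard_image_of_injective _ (Sym2.map.injective E.injective)]
  congr 1
  ext e
  constructor
  · rintro ⟨a, b, h1, h2, h3, h4, h5, h6, h7⟩
    refine ⟨s(E.symm a, E.symm b), ⟨E.symm a, E.symm b, rfl, ?_, ?_, ?_, ?_, ?_, ?_⟩, ?_⟩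
    · exact fun h => h2 (E.symm.injective h)
    · rintro rfl; exact h3 (by simp)
    · rintro rfl; exact h4 (by simp)
    · rintro rfl; exact h5 (by simp)
    · rintro rfl; exact h6 (by simp)
    · unfold Separates at h7 ⊢
      simpa using h7
    · rw [h1]
      simp
  · rintro ⟨e', ⟨a, b, h1, h2, h3, h4, h5, h6, h7⟩, rfl⟩
    refine ⟨E a, E b, ?_, ?_, ?_, ?_, ?_, ?_, ?_⟩
    · rw [h1]; simp
    · exact fun h => h2 (E.injective h)
    · exact fun h => h3 (E.injective h)
    · exact fun h => h4 (E.injective h)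
    · exact fun h => h5 (E.injective h)
    · exact fun h => h6 (E.injective h)
    · unfold Separates at h7 ⊢
      simpa using h7

theorem sepCount_le {V : Type} [Fintype V] (p : V → ℝ × ℝ) (x y : V) :
    sepCount p x y ≤ Fintype.card V * Fintype.card V := by
  unfold sepCount
  have h1 : (Set.ncard {e : Sym2 V | ∃ a b, e = s(a, b) ∧ a ≠ b ∧ a ≠ x ∧ a ≠ y ∧ b ≠ x ∧ b ≠ y ∧
    Separates p a b x y}) ≤ Nat.card (Sym2 V) := Set.ncard_le_card _
  refine h1.trans ?_
  have h2 : Function.Surjective (fun q : V × V => s(q.1, q.2)) := by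
    intro e
    induction e using Sym2.ind with
    | _ a b => exact ⟨(a, b), rfl⟩
  have h3 := Nat.card_le_card_of_surjective _ h2
  refine h3.trans ?_
  rw [Nat.card_prod, Nat.card_eq_fintype_card]

/-- Twice the number of crossings is the sum over ordered adjacent pairs. -/
theorem two_mul_crossings {n : ℕ} (G : SimpleGraph (Fin n)) (p : Fin n → ℝ × ℝ) :
    2 * crossings G p = ∑ x : Fin n, ∑ y : Fin n, if G.Adj x y then sepCount p x y else 0 := by
  have h1 : crossings G p = ∑ x : Fin n, ∑ y : Fin n,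
      if y < x ∧ G.Adj x y then sepCount p x y else 0 := by
    unfold crossings
    rw [Finset.sum_comm]
    refine Finset.sum_congr rfl fun x _ => Finset.sum_congr rfl fun y _ => ?_
    rw [sepCount_comm p y x, G.adj_comm y x]
  have h2 : 2 * crossings G p = crossings G p + crossings G p := two_mul _
  rw [h2]
  nth_rewrite 2 [h1]
  unfold crossings
  rw [← Finset.sum_add_distrib]
  refine Finset.sum_congr rfl fun x _ => ?_
  rw [← Finset.sum_add_distrib]
  refine Finset.sum_congr rfl fun y _ => ?_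
  by_cases hadj : G.Adj x y
  · rcases lt_or_gt_of_ne hadj.ne with h | h
    · simp [h, hadj, not_lt.mpr h.le]
    · simp [h, hadj, not_lt.mpr h.le]
  · simp [hadj]

/-- Splitting the ordered adjacent pairs by membership in `S`. -/
theorem split_sum {n : ℕ} (G : SimpleGraph (Fin n)) (w : Fin n → Fin n → ℕ)
    (hw : ∀ x y, w x y = w y x) (S : Finset (Fin n)) (A B C : ℕ)
    (hA : ∀ x ∈ S, ∀ y ∈ S, G.Adj x y → w x y ≤ A)
    (hB : ∀ x ∈ S, ∀ y ∉ S, G.Adj x y → w x y ≤ B)
    (hC : ∀ x ∉ S, ∀ y ∉ S, G.Adj x y → w x y ≤ C) :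
    (∑ x : Fin n, ∑ y : Fin n, if G.Adj x y then w x y else 0) ≤
      ((S ×ˢ S).filter (fun e => G.Adj e.1 e.2)).card * A +
      2 * (((S ×ˢ Sᶜ).filter (fun e => G.Adj e.1 e.2)).card * B) +
      ((Sᶜ ×ˢ Sᶜ).filter (fun e => G.Adj e.1 e.2)).card * C := by
  have key : ∀ (P Q : Finset (Fin n)) (K : ℕ), (∀ x ∈ P, ∀ y ∈ Q, G.Adj x y → w x y ≤ K) →
      (∑ x ∈ P, ∑ y ∈ Q, if G.Adj x y then w x y else 0) ≤
        ((P ×ˢ Q).filter (fun e => G.Adj e.1 e.2)).card * K := by
    intro P Q K hK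
    rw [← Finset.sum_product', ← smul_eq_mul, ← Finset.sum_const, Finset.sum_filter]
    refine Finset.sum_le_sum fun e he => ?_
    rw [Finset.mem_product] at he
    by_cases hadj : G.Adj e.1 e.2
    · rw [if_pos hadj, if_pos hadj]
      exact hK _ he.1 _ he.2 hadj
    · rw [if_neg hadj, if_neg hadj]
  have hsplit : ∀ f : Fin n → ℕ, ∑ x, f x = ∑ x ∈ S, f x + ∑ x ∈ Sᶜ, f x := fun f =>
    (Finset.sum_add_sum_compl S f).symm
  rw [hsplit]
  have h1 : ∀ P : Finset (Fin n), (∑ x ∈ P, ∑ y : Fin n, if G.Adj x y then w x y else 0) =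
      (∑ x ∈ P, ∑ y ∈ S, if G.Adj x y then w x y else 0) +
      (∑ x ∈ P, ∑ y ∈ Sᶜ, if G.Adj x y then w x y else 0) := by
    intro P
    rw [← Finset.sum_add_distrib]
    exact Finset.sum_congr rfl fun x _ => hsplit _
  rw [h1 S, h1 Sᶜ]
  have h2 : (∑ x ∈ Sᶜ, ∑ y ∈ S, if G.Adj x y then w x y else 0) =
      (∑ x ∈ S, ∑ y ∈ Sᶜ, if G.Adj x y then w x y else 0) := by
    rw [Finset.sum_comm]
    refine Finset.sum_congr rfl fun x _ => Finset.sum_congr rfl fun y _ => ?_
    rw [hw y x, G.adj_comm y x]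
  rw [h2]
  have k1 := key S S A hA
  have k2 := key S Sᶜ B (fun x hx y hy => hB x hx y (Finset.mem_compl.mp hy))
  have k3 := key Sᶜ Sᶜ C (fun x hx y hy => hC x (Finset.mem_compl.mp hx) y (Finset.mem_compl.mp hy))
  omega

/-- The placement built from an ordering: vertices outside `S` on the regular polygon, vertices
of `S` near the centre. -/
theorem crossings_le (place : PlacementStmt) (pairs : PairsStmt) (cross : CrossStmt)
    (order : OrderStmt) {n : ℕ} (G : SimpleGraph (Fin n)) (hG : Planar G) (S : Finset (Fin n))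
    (D k : ℕ) (hk : Sᶜ.card = 2 * k + 1)
    (hD : ∀ C : Finset (Fin n), Disjoint C S → (G.induce (C : Set (Fin n))).Connected →
      C.card ≤ D) :
    ∃ p : Fin n → ℝ × ℝ, IsPlacement p ∧
      2 * crossings G p ≤ 8 * S.card * (n * n) +
        (2 * (2 * k + 1) + 244 * S.card) * (k * k + 2 * (S.card * n)) +
        8 * n * ((D + S.card) * n) := by
  have hinst : (fun a b : Fin n => propDecidable (a = b)) = instDecidableEqFin n :=
    Subsingleton.elim _ _
  have ord : ∃ e : Fin (Sᶜ.card) ≃ {x : Fin n // x ∈ Sᶜ}, ∀ i j : Fin (Sᶜ.card), i < j →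
      G.Adj (e i) (e j) → j.val - i.val ≤ D := by
    have h := order (Fin n) G S D hD
    rw [hinst] at h
    exact h
  obtain ⟨e, he⟩ := ord
  set m := S.card with hm
  have hn : 2 * k + 1 + m = n := by
    rw [← hk, hm, add_comm]
    have := Finset.card_add_card_compl S
    simpa using this
  obtain ⟨P, hP, hP1, hP2⟩ := place k m
  let e1 : Fin (2 * k + 1) ≃ {x : Fin n // x ∈ Sᶜ} := (finCongr hk.symm).trans e
  let e2 : Fin m ≃ {x : Fin n // x ∈ S} := S.equivFin.symm
  let E : Fin (2 * k + 1) ⊕ Fin m ≃ Fin n :=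
    (Equiv.sumComm _ _).trans ((Equiv.sumCongr e2 (e1.trans
      (Equiv.subtypeEquivRight (fun x => Finset.mem_compl)))).trans
        (Equiv.sumCompl (fun x => x ∈ S)))
  have hE1 : ∀ i, E (Sum.inl i) = (e1 i : Fin n) := fun i => rfl
  have hE2 : ∀ i, E (Sum.inr i) = (e2 i : Fin n) := fun i => rfl
  let p : Fin n → ℝ × ℝ := P ∘ E.symm
  have hp : IsPlacement p := isPlacement_comp P E hP
  refine ⟨p, hp, ?_⟩
  have hS : ∀ x ∈ S, ∃ i, x = E (Sum.inr i) := by
    intro x hx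
    refine ⟨e2.symm ⟨x, hx⟩, ?_⟩
    rw [hE2]
    simp
  have hSc : ∀ x ∉ S, ∃ i, x = E (Sum.inl i) := by
    intro x hx
    refine ⟨e1.symm ⟨x, Finset.mem_compl.mpr hx⟩, ?_⟩
    rw [hE1]
    simp
  have hw : ∀ x y, 2 * sepCount p x y = 2 * sepCount p y x := fun x y => by
    rw [sepCount_comm]
  have hA : ∀ x ∈ S, ∀ y ∈ S, G.Adj x y → 2 * sepCount p x y ≤ 2 * (n * n) := by
    intro x _ y _ _
    have := sepCount_le p x y
    rw [Fintype.card_fin] at this
    omega
  have hB : ∀ x ∈ S, ∀ y ∉ S, G.Adj x y → 2 * sepCount p x y ≤ k * k + 2 * (m * n) := by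
    intro x hx y hy _
    obtain ⟨i, rfl⟩ := hS x hx
    obtain ⟨j, rfl⟩ := hSc y hy
    have h := hP1 j i
    rw [hn] at h
    have h2 : sepCount p (E (Sum.inr i)) (E (Sum.inl j)) = sepCount P (Sum.inr i) (Sum.inl j) :=
      sepCount_comp P E _ _
    rw [h2]
    exact h
  have hC : ∀ x ∉ S, ∀ y ∉ S, G.Adj x y → 2 * sepCount p x y ≤ 2 * ((D + m) * n) := by
    have hC0 : ∀ i j : Fin (2 * k + 1), i < j → G.Adj (E (Sum.inl i)) (E (Sum.inl j)) →
        2 * sepCount p (E (Sum.inl i)) (E (Sum.inl j)) ≤ 2 * ((D + m) * n) := by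
      intro i j hij hadj
      have h := hP2 i j hij
      rw [hn] at h
      have h2 : sepCount p (E (Sum.inl i)) (E (Sum.inl j)) = sepCount P (Sum.inl i) (Sum.inl j) :=
        sepCount_comp P E _ _
      have h3 : j.val - i.val ≤ D := by
        have := he (Fin.cast hk.symm i) (Fin.cast hk.symm j) hij
          (by simpa [hE1, e1] using hadj)
        simpa using this
      rw [h2]
      have h4 : (j.val - i.val) * n ≤ D * n := Nat.mul_le_mul_right n h3
      have h5 : (D + m) * n = D * n + m * n := by ring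
      omega
    intro x hx y hy hadj
    obtain ⟨i, rfl⟩ := hSc x hx
    obtain ⟨j, rfl⟩ := hSc y hy
    rcases lt_trichotomy i j with h | h | h
    · exact hC0 i j h hadj
    · subst h
      exact absurd rfl hadj.ne
    · rw [hw]
      exact hC0 j i h hadj.symm
  have hmain := split_sum G (fun x y => 2 * sepCount p x y) hw S _ _ _ hA hB hC
  have h2c : 2 * (2 * crossings G p) =
      ∑ x : Fin n, ∑ y : Fin n, if G.Adj x y then 2 * sepCount p x y else 0 := by
    rw [two_mul_crossings, Finset.mul_sum]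
    refine Finset.sum_congr rfl fun x _ => ?_
    rw [Finset.mul_sum]
    refine Finset.sum_congr rfl fun y _ => ?_
    split_ifs <;> rfl
  have c1 : ((S ×ˢ S).filter (fun e => G.Adj e.1 e.2)).card ≤ 8 * S.card := by
    exact pairs (Fin n) G hG.1 S
  have c2 : ((S ×ˢ Sᶜ).filter (fun e => G.Adj e.1 e.2)).card ≤ 2 * Sᶜ.card + 244 * S.card := by
    have h := cross (Fin n) G hG S
    rw [hinst] at h
    exact h
  have c3 : ((Sᶜ ×ˢ Sᶜ).filter (fun e => G.Adj e.1 e.2)).card ≤ 8 * Sᶜ.card := by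
    exact pairs (Fin n) G hG.1 Sᶜ
  rw [hk] at c2 c3
  have d1 := Nat.mul_le_mul_right (2 * (n * n)) c1
  have d2 := Nat.mul_le_mul_right (k * k + 2 * (m * n)) c2
  have d3 := Nat.mul_le_mul_right (2 * ((D + m) * n)) c3
  have d4 : 8 * (2 * k + 1) * (2 * ((D + m) * n)) ≤ 8 * n * (2 * ((D + m) * n)) :=
    Nat.mul_le_mul_right _ (by omega)
  have e5 : 2 * (2 * crossings G p) ≤ 8 * m * (2 * (n * n)) +
      2 * ((2 * (2 * k + 1) + 244 * m) * (k * k + 2 * (m * n))) +
      8 * n * (2 * ((D + m) * n)) := by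
    rw [h2c]
    refine hmain.trans ?_
    refine Nat.add_le_add (Nat.add_le_add d1 (Nat.mul_le_mul_left 2 d2)) (d3.trans d4)
  have e6 : 8 * m * (2 * (n * n)) = 2 * (8 * m * (n * n)) := by ring
  have e7 : 8 * n * (2 * ((D + m) * n)) = 2 * (8 * n * ((D + m) * n)) := by ring
  rw [e6, e7] at e5
  omega

/-- Removing one more vertex makes the number of remaining vertices odd. -/
theorem make_odd {n : ℕ} (S0 : Finset (Fin n)) (h : S0.card < n) :
    ∃ S : Finset (Fin n), S0 ⊆ S ∧ S.card ≤ S0.card + 1 ∧ ∃ k, Sᶜ.card = 2 * k + 1 := by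
  have hc := Finset.card_add_card_compl S0
  rw [Fintype.card_fin] at hc
  rcases Nat.even_or_odd' S0ᶜ.card with ⟨k, hk | hk⟩
  · have hne : S0ᶜ.Nonempty := by
      rw [← Finset.card_pos]
      omega
    obtain ⟨x, hx⟩ := hne
    refine ⟨insert x S0, Finset.subset_insert _ _, Finset.card_insert_le _ _, k - 1, ?_⟩
    have h1 : (insert x S0).card = S0.card + 1 :=
      Finset.card_insert_of_notMem (Finset.mem_compl.mp hx)
    have h2 := Finset.card_add_card_compl (insert x S0)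
    rw [Fintype.card_fin] at h2
    omega
  · exact ⟨S0, subset_rfl, Nat.le_succ _, k, hk⟩

end Upper

open Upper in
theorem upper (place : PlacementStmt) (pairs : PairsStmt) (cross : CrossStmt)
    (frag : FragmentStmt) (order : OrderStmt) : UpperStmt := by
  intro ε hε
  set δ : ℝ := min (1 / 2) (ε / 2000) with hδ
  have hδ0 : 0 < δ := by
    rw [hδ]
    positivity
  have hδ1 : δ ≤ 1 / 2 := min_le_left _ _
  have hδ2 : δ ≤ ε / 2000 := min_le_right _ _
  obtain ⟨n₀, hn₀⟩ := frag δ hδ0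
  obtain ⟨n₁, hn₁⟩ := exists_nat_ge (1 / δ)
  refine ⟨max n₀ (max n₁ 1), fun n hn G hG => ?_⟩
  have hn0 : n₀ ≤ n := (le_max_left _ _).trans hn
  have hn1 : n₁ ≤ n := ((le_max_left _ _).trans (le_max_right _ _)).trans hn
  have hn2 : 1 ≤ n := ((le_max_right _ _).trans (le_max_right _ _)).trans hn
  have hnR : (1 : ℝ) ≤ n := by exact_mod_cast hn2
  have hδn : 1 ≤ δ * n := by
    have h1 : 1 / δ ≤ n := hn₁.trans (by exact_mod_cast hn1)
    rw [div_le_iff₀ hδ0] at h1
    linarith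
  obtain ⟨S0, hS0, hC0⟩ := hn₀ (Fin n) G hG.1 (by simpa using hn0)
  rw [Fintype.card_fin] at hS0 hC0
  have hlt : S0.card < n := by
    have : (S0.card : ℝ) < n := by nlinarith
    exact_mod_cast this
  obtain ⟨S, hsub, hcard, k, hk⟩ := make_odd S0 hlt
  have hD : ∀ C : Finset (Fin n), Disjoint C S → (G.induce (C : Set (Fin n))).Connected →
      C.card ≤ ⌊δ * n⌋₊ := by
    intro C h1 h2
    exact Nat.le_floor (hC0 C (Finset.disjoint_of_subset_right hsub h1) h2)
  obtain ⟨p, hp, hcr⟩ := crossings_le place pairs cross order G hG S ⌊δ * n⌋₊ k hk hD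
  have hOCN : OCN G ≤ crossings G p := Nat.sInf_le ⟨p, hp, rfl⟩
  have hm : (S.card : ℝ) ≤ 2 * (δ * n) := by
    have : (S.card : ℝ) ≤ S0.card + 1 := by exact_mod_cast hcard
    linarith
  have hDR : ((⌊δ * n⌋₊ : ℕ) : ℝ) ≤ δ * n := Nat.floor_le (by positivity)
  have hkn : 2 * (k : ℝ) + 1 ≤ n := by
    have h1 := Finset.card_add_card_compl S
    rw [Fintype.card_fin, hk] at h1
    have : 2 * k + 1 ≤ n := by omega
    exact_mod_cast this
  set m : ℝ := (S.card : ℝ) with hmdef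
  set D : ℝ := ((⌊δ * n⌋₊ : ℕ) : ℝ) with hDdef
  have hcrR : 2 * (crossings G p : ℝ) ≤ 8 * m * (n * n) +
        (2 * (2 * k + 1) + 244 * m) * (k * k + 2 * (m * n)) + 8 * n * ((D + m) * n) := by
    rw [hmdef, hDdef]
    exact_mod_cast hcr
  have hm0 : 0 ≤ m := Nat.cast_nonneg _
  have hD0 : 0 ≤ D := Nat.cast_nonneg _
  have hk0 : (0 : ℝ) ≤ k := Nat.cast_nonneg _
  have hn0' : (0 : ℝ) ≤ n := by linarith
  -- the three terms
  have t1 : 8 * m * (n * n) ≤ 16 * δ * (n : ℝ) ^ 3 := by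
    have : 8 * m * (n * n) ≤ 8 * (2 * (δ * n)) * ((n : ℝ) * n) :=
      mul_le_mul_of_nonneg_right (by linarith) (by positivity)
    calc 8 * m * (n * n) ≤ 8 * (2 * (δ * n)) * ((n : ℝ) * n) := this
      _ = 16 * δ * (n : ℝ) ^ 3 := by ring
  have t3 : 8 * n * ((D + m) * n) ≤ 24 * δ * (n : ℝ) ^ 3 := by
    have h1 : D + m ≤ 3 * (δ * n) := by linarith
    have h2 : (D + m) * n ≤ 3 * (δ * n) * n := mul_le_mul_of_nonneg_right h1 hn0'
    have h3 : 8 * n * ((D + m) * n) ≤ 8 * (n : ℝ) * (3 * (δ * n) * n) :=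
      mul_le_mul_of_nonneg_left h2 (by positivity)
    calc 8 * n * ((D + m) * n) ≤ 8 * (n : ℝ) * (3 * (δ * n) * n) := h3
      _ = 24 * δ * (n : ℝ) ^ 3 := by ring
  have t2 : (2 * (2 * k + 1) + 244 * m) * (k * k + 2 * (m * n)) ≤
      (2 + 488 * δ) * (1 / 4 + 4 * δ) * (n : ℝ) ^ 3 := by
    have h1 : 2 * (2 * (k : ℝ) + 1) + 244 * m ≤ (2 + 488 * δ) * n := by linarith
    have h2 : (k : ℝ) * k ≤ 1 / 4 * ((n : ℝ) * n) := by nlinarith
    have h3 : m * n ≤ 2 * (δ * n) * n := mul_le_mul_of_nonneg_right hm hn0'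
    have h4 : (k : ℝ) * k + 2 * (m * n) ≤ (1 / 4 + 4 * δ) * (n * n) := by linarith
    calc (2 * (2 * k + 1) + 244 * m) * (k * k + 2 * (m * n))
        ≤ ((2 + 488 * δ) * n) * ((1 / 4 + 4 * δ) * (n * n)) := by
          apply mul_le_mul h1 h4 (by positivity) (by positivity)
      _ = (2 + 488 * δ) * (1 / 4 + 4 * δ) * (n : ℝ) ^ 3 := by ring
  have hn3 : 0 < (n : ℝ) ^ 3 := by positivity
  have t4 : (2 + 488 * δ) * (1 / 4 + 4 * δ) ≤ 1 / 2 + 1106 * δ := by nlinarith
  have hfin : 2 * (crossings G p : ℝ) ≤ (1 / 2 + 1146 * δ) * (n : ℝ) ^ 3 := by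
    have := mul_le_mul_of_nonneg_right t4 hn3.le
    nlinarith
  have hOCNR : (OCN G : ℝ) ≤ crossings G p := by exact_mod_cast hOCN
  have hlast : (1 / 2 + 1146 * δ) * (n : ℝ) ^ 3 ≤ (1 / 2 + 2 * ε) * (n : ℝ) ^ 3 := by
    apply mul_le_mul_of_nonneg_right _ hn3.le
    linarith
  linarith

end Pool.Agent.Lib.MP_00ece3_co
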