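import Pool.Agent.Lib.MP_00ece3_co.Star
import Pool.Agent.Lib.MP_00ece3_co.K2
import Pool.Agent.Lib.MP_00ece3_co.Gon
import Pool.Agent.Lib.MP_00ece3_co.Centre
import Pool.Agent.Lib.MP_00ece3_co.Place
import Pool.Agent.Lib.MP_00ece3_co.Contract
import Pool.Agent.Lib.MP_00ece3_co.Edges
import Pool.Agent.Lib.MP_00ece3_co.Cross
import Pool.Agent.Lib.MP_00ece3_co.Sep
import Pool.Agent.Lib.MP_00ece3_co.Fragment
import Pool.Agent.Lib.MP_00ece3_co.Order
import Pool.Agent.Lib.MP_00ece3_co.Lower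
import Pool.Agent.Lib.MP_00ece3_co.Upper
import Pool.Agent.Lib.MP_00ece3_co.Limit

/-!
# The largest orchard crossing number of a planar graph on `n` vertices is asymptotic to `n³/4`
-/

namespace Pool.Agent.Results.MP_00ece3_co.CubicAsymptotics

open Pool.Agent.Lib.MP_00ece3_co Filter Topology

/-- `M(n) ≥ (n-2)(n-3)(n-5)/4` for `n ≥ 5`, and `M(n)/n³` tends to `1/4`. -/
theorem result :
    (∀ n : ℕ, 5 ≤ n → (n - 2) * (n - 3) * (n - 5) ≤ 4 * M n) ∧
      Tendsto (fun n : ℕ => (M n : ℝ) / (n : ℝ) ^ 3) atTop (𝓝 (1 / 4)) := by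
  have hlow : LowerStmt := lower star k2_planar
  have hpairs : PairsStmt := pairs contract_minor
  refine ⟨hlow, limit hlow (upper (place gon_pos gon_centre centre) hpairs
    (cross contract_minor hpairs) (fragment separator) order)⟩

end Pool.Agent.Results.MP_00ece3_co.CubicAsymptotics
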