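import Mathlib

/-!
# Orchard crossing numbers of planar graphs: definitions
-/

namespace Pool.Agent.Lib.MP_00ece3_co

/-- Orientation determinant of three points of the plane: it vanishes exactly when they are
collinear, and its sign tells on which side of the line `xy` the point `z` lies. -/
def orient (x y z : ℝ × ℝ) : ℝ :=
  (y.1 - x.1) * (z.2 - x.2) - (y.2 - x.2) * (z.1 - x.1)

/-- A placement: distinct vertices get distinct points, no three of them collinear. -/
def IsPlacement {V : Type} (p : V → ℝ × ℝ) : Prop :=
  Function.Injective p ∧ ∀ a b c, a ≠ b → a ≠ c → b ≠ c → orient (p a) (p b) (p c) ≠ 0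

/-- The line through the points of `a` and `b` separates the points of `x` and `y`
(they lie strictly on opposite sides). -/
def Separates {V : Type} (p : V → ℝ × ℝ) (a b x y : V) : Prop :=
  orient (p a) (p b) (p x) * orient (p a) (p b) (p y) < 0

/-- `n(x, y)`: the number of lines spanned by two points other than those of `x`, `y` which
separate `x` from `y`; as no three points are collinear these lines correspond to the unordered
pairs `{a, b}` of vertices different from `x` and `y`. -/
noncomputable def sepCount {V : Type} (p : V → ℝ × ℝ) (x y : V) : ℕ :=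
  Set.ncard {e : Sym2 V | ∃ a b, e = s(a, b) ∧ a ≠ b ∧ a ≠ x ∧ a ≠ y ∧ b ≠ x ∧ b ≠ y ∧
    Separates p a b x y}

open Classical in
/-- The number of crossings of `G` for the placement `p`: the sum of `n(x, y)` over the edges
`xy` of `G` (each edge is taken once, with `x < y`). -/
noncomputable def crossings {n : ℕ} (G : SimpleGraph (Fin n)) (p : Fin n → ℝ × ℝ) : ℕ :=
  ∑ x : Fin n, ∑ y : Fin n, if x < y ∧ G.Adj x y then sepCount p x y else 0

/-- The orchard crossing number. -/
noncomputable def OCN {n : ℕ} (G : SimpleGraph (Fin n)) : ℕ :=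
  sInf {c | ∃ p : Fin n → ℝ × ℝ, IsPlacement p ∧ c = crossings G p}

/-- `H` is a minor of `G`: there are disjoint connected branch sets, adjacent when required. -/
def IsMinor {W V : Type} (H : SimpleGraph W) (G : SimpleGraph V) : Prop :=
  ∃ B : W → Set V, (∀ w, (G.induce (B w)).Connected) ∧
    (∀ w w', w ≠ w' → Disjoint (B w) (B w')) ∧
    ∀ w w', H.Adj w w' → ∃ a ∈ B w, ∃ b ∈ B w', G.Adj a b

/-- Planarity, in the form of Wagner's theorem: neither `K₅` nor `K₃,₃` is a minor. -/
def Planar {V : Type} (G : SimpleGraph V) : Prop :=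
  ¬ IsMinor (⊤ : SimpleGraph (Fin 5)) G ∧
    ¬ IsMinor (completeBipartiteGraph (Fin 3) (Fin 3)) G

/-- `M(n)`: the largest orchard crossing number of a planar graph on `n` vertices. -/
noncomputable def M (n : ℕ) : ℕ :=
  sSup {c | ∃ G : SimpleGraph (Fin n), Planar G ∧ c = OCN G}

end Pool.Agent.Lib.MP_00ece3_co
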