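import Pool.Agent.Lib.MP_00ece3_co.Spec

/-!
# Lower bound for `M(n)`
-/

namespace Pool.Agent.Lib.MP_00ece3_co

namespace Lower

theorem exists_isPlacement (n : ℕ) : ∃ p : Fin n → ℝ × ℝ, IsPlacement p := by
  refine ⟨fun i => ((i.val : ℝ), (i.val : ℝ) ^ 2), ?_, ?_⟩
  · intro a b h
    have h1 : ((a.val : ℝ)) = (b.val : ℝ) := congrArg Prod.fst h
    exact Fin.ext (by exact_mod_cast h1)
  · intro a b c hab hac hbc h
    unfold orient at h
    simp only at h
    have h2 : ((b.val : ℝ) - a.val) * ((c.val : ℝ) - a.val) * ((c.val : ℝ) - b.val) = 0 := by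
      rw [← h]
      ring
    have e : ∀ x y : Fin n, x ≠ y → ((y.val : ℝ) - x.val) ≠ 0 := by
      intro x y hxy h3
      apply hxy
      have h4 : (y.val : ℝ) = x.val := by linarith
      exact Fin.ext (by exact_mod_cast h4.symm)
    exact mul_ne_zero (mul_ne_zero (e a b hab) (e a c hac)) (e b c hbc) h2

theorem card_tail (n : ℕ) : (Finset.univ.filter (fun y : Fin n => 2 ≤ y.val)).card = n - 2 := by
  rcases Nat.lt_or_ge n 2 with h | h
  · have : (Finset.univ.filter (fun y : Fin n => 2 ≤ y.val)) = ∅ := by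
      ext y
      simp only [Finset.mem_filter, Finset.mem_univ, true_and, Finset.notMem_empty, iff_false]
      have := y.2
      omega
    rw [this, Finset.card_empty]
    omega
  · obtain ⟨m, rfl⟩ : ∃ m, n = 2 + m := ⟨n - 2, by omega⟩
    have : (Finset.univ.filter (fun y : Fin (2 + m) => 2 ≤ y.val)) =
        Finset.univ.map (Fin.natAddEmb 2) := by
      ext y
      simp only [Finset.mem_filter, Finset.mem_univ, true_and, Finset.mem_map, Fin.natAddEmb_apply]
      constructor
      · intro hy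
        exact ⟨⟨y.val - 2, by have := y.2; omega⟩, Fin.ext (by simp; omega)⟩
      · rintro ⟨z, rfl⟩
        simp
    rw [this, Finset.card_map, Finset.card_univ, Fintype.card_fin]
    omega

theorem crossings_ge (h1 : StarStmt) (n : ℕ) (hn : 5 ≤ n) (p : Fin n → ℝ × ℝ)
    (hp : IsPlacement p) : (n - 2) * (n - 3) * (n - 5) ≤ 4 * crossings (K2 n) p := by
  classical
  set T := (Finset.univ.filter (fun y : Fin n => 2 ≤ y.val)) with hT
  have hTc : T.card = n - 2 := card_tail n
  have hstar : ∀ c : Fin n, c.val < 2 →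
      (n - 2) * (n - 3) * (n - 5) ≤ 8 * ∑ t ∈ T, sepCount p c t := by
    intro c hc
    have hcT : c ∉ T := by
      rw [hT, Finset.mem_filter]
      omega
    have h := h1 (Fin n) p hp c T hcT
    rw [hTc] at h
    have h2 : (((n - 2) * (n - 3) * (n - 5) : ℕ) : ℤ) =
        ((n - 2 : ℕ) : ℤ) * (((n - 2 : ℕ) : ℤ) - 1) * (((n - 2 : ℕ) : ℤ) - 3) := by
      push_cast [Nat.cast_sub (show 2 ≤ n by omega), Nat.cast_sub (show 3 ≤ n by omega),
        Nat.cast_sub hn]
      ring
    have h3 : (((n - 2) * (n - 3) * (n - 5) : ℕ) : ℤ) ≤ ((8 * ∑ t ∈ T, sepCount p c t : ℕ) : ℤ) := by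
      rw [h2]
      refine h.trans (le_of_eq ?_)
      push_cast
      rfl
    exact_mod_cast h3
  have hrow : ∀ c : Fin n, c.val < 2 →
      (∑ y : Fin n, if c < y ∧ (K2 n).Adj c y then sepCount p c y else 0) =
        ∑ t ∈ T, sepCount p c t := by
    intro c hc
    rw [hT, Finset.sum_filter]
    refine Finset.sum_congr rfl fun y _ => ?_
    have : (c < y ∧ (K2 n).Adj c y) ↔ 2 ≤ y.val := by
      constructor
      · rintro ⟨-, h | h⟩
        · exact h.2
        · omega
      · intro h
        refine ⟨Fin.lt_def.mpr (by omega), Or.inl ⟨hc, h⟩⟩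
    by_cases h : 2 ≤ y.val
    · rw [if_pos (this.mpr h), if_pos h]
    · rw [if_neg (fun h' => h (this.mp h')), if_neg h]
  set c0 : Fin n := ⟨0, by omega⟩ with hc0
  set c1 : Fin n := ⟨1, by omega⟩ with hc1
  have hne : c0 ≠ c1 := by
    rw [hc0, hc1]
    simp
  have hge : ∑ t ∈ T, sepCount p c0 t + ∑ t ∈ T, sepCount p c1 t ≤ crossings (K2 n) p := by
    rw [← hrow c0 (by simp [hc0]), ← hrow c1 (by simp [hc1])]
    have hpair : (∑ x ∈ ({c0, c1} : Finset (Fin n)), ∑ y : Fin n,
        if x < y ∧ (K2 n).Adj x y then sepCount p x y else 0) =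
        (∑ y : Fin n, if c0 < y ∧ (K2 n).Adj c0 y then sepCount p c0 y else 0) +
        (∑ y : Fin n, if c1 < y ∧ (K2 n).Adj c1 y then sepCount p c1 y else 0) :=
      Finset.sum_pair hne
    rw [← hpair]
    unfold crossings
    refine (Finset.sum_le_sum_of_subset (Finset.subset_univ _)).trans (le_of_eq ?_)
    refine Finset.sum_congr rfl fun x _ => Finset.sum_congr rfl fun y _ => ?_
    congr
  have e0 := hstar c0 (by simp [hc0])
  have e1 := hstar c1 (by simp [hc1])
  omega

end Lower

open Lower in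
theorem lower (h1 : StarStmt) (h2 : K2PlanarStmt) : LowerStmt := by
  intro n hn
  have hOCN : (n - 2) * (n - 3) * (n - 5) ≤ 4 * OCN (K2 n) := by
    have hne : {c | ∃ p : Fin n → ℝ × ℝ, IsPlacement p ∧ c = crossings (K2 n) p}.Nonempty := by
      obtain ⟨p, hp⟩ := exists_isPlacement n
      exact ⟨_, p, hp, rfl⟩
    obtain ⟨p, hp, he⟩ := Nat.sInf_mem hne
    have : OCN (K2 n) = crossings (K2 n) p := he
    rw [this]
    exact crossings_ge h1 n hn p hp
  have hM : OCN (K2 n) ≤ M n := by
    apply le_csSup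
    · have : {c | ∃ G : SimpleGraph (Fin n), Planar G ∧ c = OCN G}.Finite := by
        have hf : (Set.range (fun G : SimpleGraph (Fin n) => OCN G)).Finite := Set.finite_range _
        refine hf.subset ?_
        rintro c ⟨G, -, rfl⟩
        exact ⟨G, rfl⟩
      exact this.bddAbove
    · exact ⟨K2 n, h2 n, rfl⟩
  omega

end Pool.Agent.Lib.MP_00ece3_co
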