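import Pool.Agent.Lib.MP_00ece3_co.Defs

/-!
# Orchard crossing numbers of planar graphs: the statements of the main steps
-/

namespace Pool.Agent.Lib.MP_00ece3_co

open Classical

/-- No `K₅` minor. -/
def NoK5 {V : Type} (G : SimpleGraph V) : Prop := ¬ IsMinor (⊤ : SimpleGraph (Fin 5)) G

/-- The quotient (contraction) of `G` by a map `f`. -/
def contract {V W : Type} (G : SimpleGraph V) (f : V → W) : SimpleGraph W where
  Adj w w' := w ≠ w' ∧ ∃ a b, f a = w ∧ f b = w' ∧ G.Adj a b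
  symm := ⟨by
    rintro w w' ⟨h, a, b, ha, hb, hab⟩
    exact ⟨h.symm, b, a, hb, ha, hab.symm⟩⟩
  loopless := ⟨fun w h => h.1 rfl⟩

/-- A. star lower bound -/
def StarStmt : Prop := ∀ (V : Type) [Fintype V] (p : V → ℝ × ℝ), IsPlacement p →
  ∀ (c : V) (T : Finset V), c ∉ T →
    (T.card : ℤ) * (T.card - 1) * (T.card - 3) ≤ 8 * ∑ t ∈ T, (sepCount p c t : ℤ)

/-- The complete bipartite graph between the first two vertices and the others. -/
def K2 (n : ℕ) : SimpleGraph (Fin n) where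
  Adj x y := (x.val < 2 ∧ 2 ≤ y.val) ∨ (y.val < 2 ∧ 2 ≤ x.val)
  symm := ⟨by
    rintro x y (h | h)
    · exact Or.inr h
    · exact Or.inl h⟩
  loopless := ⟨by
    rintro x (h | h) <;> omega⟩

/-- B. `K_{2,n-2}` is planar -/
def K2PlanarStmt : Prop := ∀ n : ℕ, Planar (K2 n)

/-- The vertices of the regular `N`-gon. -/
noncomputable def gon (N : ℕ) (i : ℕ) : ℝ × ℝ :=
  (Real.cos (2 * Real.pi * i / N), Real.sin (2 * Real.pi * i / N))

/-- C. orientations in the regular polygon -/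
def GonStmt : Prop := ∀ N i j l : ℕ, i < j → j < l → l < N →
  0 < orient (gon N i) (gon N j) (gon N l)

/-- C'. the side of the centre -/
def GonCentreStmt : Prop := ∀ N i j : ℕ, i < j → j < N →
  (2 * (j - i) < N → 0 < orient (gon N i) (gon N j) (0, 0)) ∧
  (N < 2 * (j - i) → orient (gon N i) (gon N j) (0, 0) < 0)

/-- D. adding `m` points in general position near the origin -/
def CentreStmt : Prop := ∀ (N m : ℕ) (q : Fin N → ℝ × ℝ), IsPlacement q →
  (∀ a b, a ≠ b → orient (q a) (q b) (0, 0) ≠ 0) →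
  ∃ p : Fin N ⊕ Fin m → ℝ × ℝ, IsPlacement p ∧ (∀ a, p (Sum.inl a) = q a) ∧
    ∀ a b s, a ≠ b →
      0 < orient (q a) (q b) (0, 0) * orient (q a) (q b) (p (Sum.inr s))

/-- E. the placement -/
def PlacementStmt : Prop := ∀ k m : ℕ, ∃ p : Fin (2 * k + 1) ⊕ Fin m → ℝ × ℝ, IsPlacement p ∧
  (∀ (c : Fin (2 * k + 1)) (s : Fin m),
    2 * sepCount p (Sum.inr s) (Sum.inl c) ≤ k * k + 2 * (m * (2 * k + 1 + m))) ∧
  (∀ (c d : Fin (2 * k + 1)), c < d →
    sepCount p (Sum.inl c) (Sum.inl d) ≤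
      (d.val - c.val) * (2 * k + 1 + m) + m * (2 * k + 1 + m))

/-- F. minors of contractions are minors -/
def ContractStmt : Prop := ∀ (U V W : Type) (H : SimpleGraph U) (G : SimpleGraph V) (f : V → W),
  (∀ w, (G.induce (f ⁻¹' {w})).Connected) → IsMinor H (contract G f) → IsMinor H G

/-- G. graphs without `K₅` minor have at most `4n` edges (ordered pairs inside a set) -/
def PairsStmt : Prop := ∀ (V : Type) [Fintype V] (G : SimpleGraph V), NoK5 G →
  ∀ S : Finset V, ((S ×ˢ S).filter (fun e => G.Adj e.1 e.2)).card ≤ 8 * S.card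

/-- H. edges between a set and its complement -/
def CrossStmt : Prop := ∀ (V : Type) [Fintype V] (G : SimpleGraph V), Planar G →
  ∀ S : Finset V, ((S ×ˢ Sᶜ).filter (fun e => G.Adj e.1 e.2)).card ≤ 2 * Sᶜ.card + 244 * S.card

/-- I. separators -/
def SeparatorStmt : Prop := ∀ δ : ℝ, 0 < δ → ∃ m₀ : ℕ, ∀ (V : Type) [Fintype V]
  (G : SimpleGraph V), NoK5 G → m₀ ≤ Fintype.card V →
    ∃ S : Finset V, (S.card : ℝ) ≤ δ * Fintype.card V ∧
      ∀ C : Finset V, Disjoint C S → (G.induce (C : Set V)).Connected →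
        3 * C.card ≤ 2 * Fintype.card V

/-- J. fragmentation -/
def FragmentStmt : Prop := ∀ δ : ℝ, 0 < δ → ∃ n₀ : ℕ, ∀ (V : Type) [Fintype V]
  (G : SimpleGraph V), NoK5 G → n₀ ≤ Fintype.card V →
    ∃ S : Finset V, (S.card : ℝ) ≤ δ * Fintype.card V ∧
      ∀ C : Finset V, Disjoint C S → (G.induce (C : Set V)).Connected →
        (C.card : ℝ) ≤ δ * Fintype.card V

/-- K. ordering the vertices component by component -/
def OrderStmt : Prop := ∀ (V : Type) [Fintype V] (G : SimpleGraph V) (S : Finset V) (D : ℕ),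
  (∀ C : Finset V, Disjoint C S → (G.induce (C : Set V)).Connected → C.card ≤ D) →
  ∃ e : Fin (Sᶜ.card) ≃ {x : V // x ∈ Sᶜ}, ∀ i j : Fin (Sᶜ.card), i < j →
    G.Adj (e i) (e j) → j.val - i.val ≤ D

/-- L. the lower bound -/
def LowerStmt : Prop := ∀ n : ℕ, 5 ≤ n → (n - 2) * (n - 3) * (n - 5) ≤ 4 * M n

/-- U. the upper bound -/
def UpperStmt : Prop := ∀ ε : ℝ, 0 < ε → ∃ n₀ : ℕ, ∀ n : ℕ, n₀ ≤ n →
  ∀ G : SimpleGraph (Fin n), Planar G → (OCN G : ℝ) ≤ (1 / 4 + ε) * (n : ℝ) ^ 3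

end Pool.Agent.Lib.MP_00ece3_co
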