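import Pool.Agent.Lib.MP_00ece3_co.Spec

/-!
# The star lower bound
-/

namespace Pool.Agent.Lib.MP_00ece3_co

open Classical

namespace Star

lemma orient_rot (x y z : ℝ × ℝ) : orient y z x = orient x y z := by
  unfold orient; ring

lemma orient_swap (x y z : ℝ × ℝ) : orient x z y = - orient x y z := by
  unfold orient; ring

lemma orient_sum (c a b d : ℝ × ℝ) :
    orient c a b + orient c b d + orient c d a = orient a b d := by
  unfold orient; ring

lemma orient_same (c a : ℝ × ℝ) : orient c a a = 0 := by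
  unfold orient; ring

/-- indicator of a separated triple -/
noncomputable def sI {V : Type} (p : V → ℝ × ℝ) (c x y z : V) : ℤ :=
  if x ≠ y ∧ x ≠ z ∧ y ≠ z ∧ Separates p y z c x then 1 else 0

/-- indicator of a source -/
noncomputable def uI {V : Type} (p : V → ℝ × ℝ) (c x y z : V) : ℤ :=
  if y ≠ z ∧ 0 < orient (p c) (p x) (p y) ∧ 0 < orient (p c) (p x) (p z) then 1 else 0

lemma sI_nonneg {V : Type} (p : V → ℝ × ℝ) (c x y z : V) : 0 ≤ sI p c x y z := by
  unfold sI; split_ifs <;> norm_num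

lemma key {V : Type} {p : V → ℝ × ℝ} (hp : IsPlacement p) {c a b d : V} (ha : c ≠ a)
    (hb : c ≠ b) (hd : c ≠ d) :
    uI p c a b d + uI p c b d a + uI p c d a b ≤ sI p c a b d + sI p c b d a + sI p c d a b := by
  by_cases hab : a = b
  · subst hab
    have h1 : uI p c a a d = 0 := by simp [uI, orient_same]
    have h2 : uI p c a d a = 0 := by simp [uI, orient_same]
    have h3 : uI p c d a a = 0 := by simp [uI]
    have := sI_nonneg p c a a d
    have := sI_nonneg p c a d a
    have := sI_nonneg p c d a a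
    linarith
  by_cases hbd : b = d
  · subst hbd
    have h1 : uI p c a b b = 0 := by simp [uI]
    have h2 : uI p c b b a = 0 := by simp [uI, orient_same]
    have h3 : uI p c b a b = 0 := by simp [uI, orient_same]
    have := sI_nonneg p c a b b
    have := sI_nonneg p c b b a
    have := sI_nonneg p c b a b
    linarith
  by_cases had : a = d
  · subst had
    have h1 : uI p c a b a = 0 := by simp [uI, orient_same]
    have h2 : uI p c b a a = 0 := by simp [uI]
    have h3 : uI p c a a b = 0 := by simp [uI, orient_same]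
    have := sI_nonneg p c a b a
    have := sI_nonneg p c b a a
    have := sI_nonneg p c a a b
    linarith
  have hα := hp.2 c a b ha hb hab
  have hβ := hp.2 c b d hb hd hbd
  have hγ := hp.2 c d a hd ha (Ne.symm had)
  have hω := hp.2 a b d hab had hbd
  have hsum := orient_sum (p c) (p a) (p b) (p d)
  have e1 : orient (p c) (p a) (p d) = - orient (p c) (p d) (p a) := orient_swap _ _ _
  have e2 : orient (p c) (p b) (p a) = - orient (p c) (p a) (p b) := orient_swap _ _ _
  have e3 : orient (p c) (p d) (p b) = - orient (p c) (p b) (p d) := orient_swap _ _ _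
  have f1 : orient (p b) (p d) (p c) = orient (p c) (p b) (p d) := orient_rot _ _ _
  have f2 : orient (p b) (p d) (p a) = orient (p a) (p b) (p d) := orient_rot _ _ _
  have f3 : orient (p d) (p a) (p c) = orient (p c) (p d) (p a) := orient_rot _ _ _
  have f4 : orient (p d) (p a) (p b) = orient (p a) (p b) (p d) := by
    rw [orient_rot, orient_rot]
  have f5 : orient (p a) (p b) (p c) = orient (p c) (p a) (p b) := orient_rot _ _ _
  unfold uI sI Separates
  rw [e1, e2, e3, f1, f2, f3, f4, f5]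
  set α := orient (p c) (p a) (p b)
  set β := orient (p c) (p b) (p d)
  set γ := orient (p c) (p d) (p a)
  set ω := orient (p a) (p b) (p d)
  simp only [ne_eq, hab, hbd, had, Ne.symm hab, Ne.symm hbd, Ne.symm had, not_false_eq_true,
    true_and, Left.neg_pos_iff]
  rcases lt_or_gt_of_ne hω with hω | hω <;> rcases lt_or_gt_of_ne hα with hα | hα <;>
    rcases lt_or_gt_of_ne hβ with hβ | hβ <;> rcases lt_or_gt_of_ne hγ with hγ | hγ <;>
    simp only [mul_neg_iff, hω, hα, hβ, hγ, not_lt_of_gt,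
      and_true, and_false, or_false, false_or, if_true, if_false] <;>
    norm_num

lemma sum_rot {V : Type} (T : Finset V) (f : V → V → V → ℤ) :
    ∑ a ∈ T, ∑ b ∈ T, ∑ d ∈ T, f b d a = ∑ a ∈ T, ∑ b ∈ T, ∑ d ∈ T, f a b d := by
  rw [Finset.sum_comm]
  refine Finset.sum_congr rfl fun b _ => ?_
  rw [Finset.sum_comm]

lemma sum_rot' {V : Type} (T : Finset V) (f : V → V → V → ℤ) :
    ∑ a ∈ T, ∑ b ∈ T, ∑ d ∈ T, f d a b = ∑ a ∈ T, ∑ b ∈ T, ∑ d ∈ T, f a b d := by
  rw [sum_rot T (fun b d a => f a b d)]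

/-- out-neighbours -/
noncomputable def out {V : Type} (p : V → ℝ × ℝ) (c : V) (T : Finset V) (a : V) : Finset V :=
  T.filter (fun b => 0 < orient (p c) (p a) (p b))

lemma sum_uI {V : Type} (p : V → ℝ × ℝ) (c : V) (T : Finset V) (a : V) :
    ∑ b ∈ T, ∑ d ∈ T, uI p c a b d =
      ((out p c T a).card : ℤ) * (out p c T a).card - (out p c T a).card := by
  have h1 : ∑ b ∈ T, ∑ d ∈ T, uI p c a b d = ((out p c T a).offDiag.card : ℤ) := by
    rw [← Finset.sum_product', Finset.card_eq_sum_ones]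
    push_cast
    have hsub : (out p c T a).offDiag = (T ×ˢ T).filter (fun e => e.1 ≠ e.2 ∧
        0 < orient (p c) (p a) (p e.1) ∧ 0 < orient (p c) (p a) (p e.2)) := by
      ext ⟨x, y⟩
      simp only [out, Finset.mem_offDiag, Finset.mem_filter, Finset.mem_product]
      tauto
    rw [hsub, Finset.sum_filter]
    rfl
  rw [h1, Finset.offDiag_card, Nat.cast_sub (Nat.le_mul_self _)]
  push_cast
  ring

lemma sum_out {V : Type} {p : V → ℝ × ℝ} (hp : IsPlacement p) {c : V} {T : Finset V}
    (hc : c ∉ T) :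
    2 * ∑ a ∈ T, ((out p c T a).card : ℤ) = (T.card : ℤ) * T.card - T.card := by
  have h1 : ∀ a ∈ T, ((out p c T a).card : ℤ) =
      ∑ b ∈ T, if 0 < orient (p c) (p a) (p b) then 1 else 0 := by
    intro a _
    rw [out, Finset.card_filter]
    push_cast
    rfl
  have h2 : ∑ a ∈ T, ((out p c T a).card : ℤ) =
      ∑ a ∈ T, ∑ b ∈ T, if 0 < orient (p c) (p a) (p b) then (1 : ℤ) else 0 :=
    Finset.sum_congr rfl h1
  have h3 : ∑ a ∈ T, ((out p c T a).card : ℤ) =
      ∑ a ∈ T, ∑ b ∈ T, if 0 < orient (p c) (p b) (p a) then (1 : ℤ) else 0 := by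
    rw [h2, Finset.sum_comm]
  have h4 : 2 * ∑ a ∈ T, ((out p c T a).card : ℤ) =
      ∑ a ∈ T, ∑ b ∈ T, if a ≠ b then (1 : ℤ) else 0 := by
    rw [two_mul]
    nth_rewrite 1 [h2]
    rw [h3, ← Finset.sum_add_distrib]
    refine Finset.sum_congr rfl fun a ha => ?_
    rw [← Finset.sum_add_distrib]
    refine Finset.sum_congr rfl fun b hb => ?_
    have hca : c ≠ a := fun h => hc (h ▸ ha)
    have hcb : c ≠ b := fun h => hc (h ▸ hb)
    by_cases hab : a = b
    · subst hab
      simp [orient_same]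
    · have h := hp.2 c a b hca hcb hab
      have e2 : orient (p c) (p b) (p a) = - orient (p c) (p a) (p b) := orient_swap _ _ _
      rw [e2]
      rcases lt_or_gt_of_ne h with h | h
      · simp [h, hab, not_lt_of_gt h]
      · simp [h, hab, not_lt_of_gt h]
  have h5 : ∑ a ∈ T, ∑ b ∈ T, (if a ≠ b then (1 : ℤ) else 0) = (T.offDiag.card : ℤ) := by
    rw [← Finset.sum_product', Finset.card_eq_sum_ones]
    push_cast
    have hsub : T.offDiag = (T ×ˢ T).filter (fun e => e.1 ≠ e.2) := by
      ext ⟨x, y⟩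
      simp only [Finset.mem_offDiag, Finset.mem_filter, Finset.mem_product]
      tauto
    rw [hsub, Finset.sum_filter]
  rw [h4, h5, Finset.offDiag_card, Nat.cast_sub (Nat.le_mul_self _)]
  push_cast
  ring

lemma sum_sI_le {V : Type} [Fintype V] (p : V → ℝ × ℝ) {c : V} {T : Finset V} (hc : c ∉ T)
    (t : V) : ∑ x ∈ T, ∑ y ∈ T, sI p c t x y ≤ 2 * (sepCount p c t : ℤ) := by
  set W := (T ×ˢ T).filter (fun e => t ≠ e.1 ∧ t ≠ e.2 ∧ e.1 ≠ e.2 ∧
    Separates p e.1 e.2 c t) with hW
  have h1 : ∑ x ∈ T, ∑ y ∈ T, sI p c t x y = (W.card : ℤ) := by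
    rw [← Finset.sum_product', Finset.card_eq_sum_ones]
    push_cast
    rw [hW, Finset.sum_filter]
    rfl
  have h2 : W.card ≤ 2 * (W.image (fun e => s(e.1, e.2))).card := by
    apply Finset.card_le_mul_card_image
    intro e he
    induction e using Sym2.ind with
    | _ x y =>
      have hsub : W.filter (fun e => s(e.1, e.2) = s(x, y)) ⊆ {(x, y), (y, x)} := by
        intro e he
        rw [Finset.mem_filter] at he
        obtain ⟨a, b⟩ := e
        have := he.2
        simp only [Sym2.eq_iff] at this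
        rcases this with ⟨rfl, rfl⟩ | ⟨rfl, rfl⟩ <;> simp
      exact (Finset.card_le_card hsub).trans Finset.card_le_two
  have h3 : (W.image (fun e => s(e.1, e.2))).card ≤ sepCount p c t := by
    unfold sepCount
    rw [← Set.ncard_coe_finset]
    apply Set.ncard_le_ncard _ (Set.toFinite _)
    intro e he
    rw [Finset.mem_coe, Finset.mem_image] at he
    obtain ⟨⟨a, b⟩, hab, rfl⟩ := he
    rw [hW, Finset.mem_filter, Finset.mem_product] at hab
    obtain ⟨⟨haT, hbT⟩, h1, h2, h3, h4⟩ := hab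
    exact ⟨a, b, rfl, h3, fun h => hc (h ▸ haT), Ne.symm h1, fun h => hc (h ▸ hbT),
      Ne.symm h2, h4⟩
  rw [h1]
  have : W.card ≤ 2 * sepCount p c t := by omega
  exact_mod_cast this

end Star

theorem star : StarStmt := by
  intro V _ p hp c T hc
  have h1 : ∑ a ∈ T, ∑ b ∈ T, ∑ d ∈ T, Star.uI p c a b d ≤
      ∑ a ∈ T, ∑ b ∈ T, ∑ d ∈ T, Star.sI p c a b d := by
    have hsum : ∑ a ∈ T, ∑ b ∈ T, ∑ d ∈ T,
          (Star.uI p c a b d + Star.uI p c b d a + Star.uI p c d a b) ≤
        ∑ a ∈ T, ∑ b ∈ T, ∑ d ∈ T,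
          (Star.sI p c a b d + Star.sI p c b d a + Star.sI p c d a b) := by
      refine Finset.sum_le_sum fun a ha => Finset.sum_le_sum fun b hb =>
        Finset.sum_le_sum fun d hd => ?_
      exact Star.key hp (fun h => hc (h ▸ ha)) (fun h => hc (h ▸ hb)) (fun h => hc (h ▸ hd))
    simp only [Finset.sum_add_distrib] at hsum
    rw [Star.sum_rot T (Star.uI p c), Star.sum_rot' T (Star.uI p c),
      Star.sum_rot T (Star.sI p c), Star.sum_rot' T (Star.sI p c)] at hsum
    linarith
  have h2 : ∑ a ∈ T, ∑ b ∈ T, ∑ d ∈ T, Star.sI p c a b d ≤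
      2 * ∑ t ∈ T, (sepCount p c t : ℤ) := by
    rw [Finset.mul_sum]
    exact Finset.sum_le_sum fun t _ => Star.sum_sI_le p hc t
  have h3 : ∑ a ∈ T, ∑ b ∈ T, ∑ d ∈ T, Star.uI p c a b d =
      ∑ a ∈ T, (((Star.out p c T a).card : ℤ) * (Star.out p c T a).card
        - (Star.out p c T a).card) :=
    Finset.sum_congr rfl fun a _ => Star.sum_uI p c T a
  have h4 := Star.sum_out hp hc
  have h5 : 0 ≤ ∑ a ∈ T, (2 * ((Star.out p c T a).card : ℤ) - (T.card - 1)) ^ 2 :=
    Finset.sum_nonneg fun a _ => sq_nonneg _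
  have h6 : ∑ a ∈ T, (2 * ((Star.out p c T a).card : ℤ) - (T.card - 1)) ^ 2 =
      4 * ∑ a ∈ T, (((Star.out p c T a).card : ℤ) * (Star.out p c T a).card
        - (Star.out p c T a).card) + (4 - 4 * (T.card - 1)) *
          ∑ a ∈ T, ((Star.out p c T a).card : ℤ) + T.card * (T.card - 1) ^ 2 := by
    have : ∀ a ∈ T, (2 * ((Star.out p c T a).card : ℤ) - (T.card - 1)) ^ 2 =
        4 * (((Star.out p c T a).card : ℤ) * (Star.out p c T a).card
        - (Star.out p c T a).card) + (4 - 4 * (T.card - 1)) * ((Star.out p c T a).card : ℤ)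
        + (T.card - 1) ^ 2 := fun a _ => by ring
    rw [Finset.sum_congr rfl this, Finset.sum_add_distrib, Finset.sum_add_distrib,
      Finset.mul_sum, Finset.mul_sum, Finset.sum_const, nsmul_eq_mul]
  rw [h6] at h5
  rw [h3] at h1
  nlinarith

end Pool.Agent.Lib.MP_00ece3_co
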